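import Mathlib

set_option autoImplicit false
open Complex Set Filter Metric Topology MeasureTheory
open scoped NNReal ENNReal Real

namespace Pool.Agent.H871R2.Sph

/-- unit vector at angle `θ` -/
noncomputable def ev (θ : ℝ) : ℂ := Real.cos θ + Real.sin θ * I

theorem ev_eq (θ : ℝ) : ev θ = Complex.exp (θ * I) := by
  rw [ev, Complex.exp_mul_I, Complex.ofReal_cos, Complex.ofReal_sin]

theorem ev_re (θ : ℝ) : (ev θ).re = Real.cos θ := by
  rw [ev, add_re, ofReal_re, re_ofReal_mul, I_re, mul_zero, add_zero]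

theorem ev_im (θ : ℝ) : (ev θ).im = Real.sin θ := by
  rw [ev, add_im, ofReal_im, im_ofReal_mul, I_im, mul_one, zero_add]

theorem norm_ev (θ : ℝ) : ‖ev θ‖ = 1 := by rw [ev_eq, Complex.norm_exp_ofReal_mul_I]

theorem continuous_ev : Continuous ev := by
  unfold ev
  fun_prop

theorem hasDerivAt_ev (θ : ℝ) : HasDerivAt ev (I * ev θ) θ := by
  have h1 : HasDerivAt (fun t : ℝ => (t : ℂ) * I) (1 * I) θ :=
    (Complex.ofRealCLM.hasDerivAt (x := θ)).mul_const I
  have h2 := h1.cexp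
  rw [one_mul] at h2
  have h3 : ev = fun t : ℝ => Complex.exp ((t : ℂ) * I) := funext ev_eq
  rw [h3, mul_comm]
  exact h2

/-- the area density -/
noncomputable def dens (f : ℂ → ℂ) : ℂ → ℝ≥0∞ :=
  (ball (0 : ℂ) 1).indicator fun z => ENNReal.ofReal (‖deriv f z‖ ^ 2)

theorem measurable_dens (f : ℂ → ℂ) : Measurable (dens f) := by
  apply Measurable.indicator _ measurableSet_ball
  exact ((measurable_deriv f).norm.pow_const 2).ennreal_ofReal

theorem det_mul (c : ℂ) : ((ContinuousLinearMap.toSpanSingleton ℂ c).restrictScalars ℝ).det = ‖c‖ ^ 2 := by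
  have : (((ContinuousLinearMap.toSpanSingleton ℂ c).restrictScalars ℝ : ℂ →L[ℝ] ℂ) : ℂ →ₗ[ℝ] ℂ) = ((LinearMap.toSpanSingleton ℂ ℂ c).restrictScalars ℝ) := by
    ext <;> simp
  rw [ContinuousLinearMap.det, this, LinearMap.det_restrictScalars]
  simp [Algebra.norm_complex_apply, Complex.normSq_eq_norm_sq]

theorem lintegral_dens {f : ℂ → ℂ} (hf : DifferentiableOn ℂ f (ball 0 1))
    (hi : InjOn f (ball 0 1)) : ∫⁻ z, dens f z = volume (f '' ball 0 1) := by
  have h1 : ∀ x ∈ ball (0 : ℂ) 1, HasFDerivWithinAt f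
      ((ContinuousLinearMap.toSpanSingleton ℂ (deriv f x)).restrictScalars ℝ) (ball 0 1) x := by
    intro x hx
    have h2 : HasDerivAt f (deriv f x) x :=
      (hf.differentiableAt (isOpen_ball.mem_nhds hx)).hasDerivAt
    exact (h2.hasFDerivAt.restrictScalars ℝ).hasFDerivWithinAt
  rw [← lintegral_abs_det_fderiv_eq_addHaar_image volume measurableSet_ball h1 hi, dens,
    lintegral_indicator measurableSet_ball]
  congr 1
  funext z
  rw [det_mul, abs_of_nonneg (by positivity)]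

/-- length-area, measure theoretic part -/
theorem length_area_aux {G : ℂ → ℝ≥0∞} (hG : Measurable G) (a : ℂ) {δ η : ℝ} (hδ : 0 < δ)
    (hδη : δ < η) {c : ℝ≥0∞} (h : ∀ r ∈ Ioo δ η, c ≤ ENNReal.ofReal (r ^ 2) *
      ∫⁻ θ in Ioo (-π) π, G (a + r * ev θ)) :
    ENNReal.ofReal (Real.log (η / δ)) * c ≤ ∫⁻ z, G z := by
  have h1 : ∫⁻ z, G z = ∫⁻ p in polarCoord.target, ENNReal.ofReal p.1 * G (a + p.1 * ev p.2) := by
    rw [← lintegral_add_left_eq_self G a, ← Complex.lintegral_comp_polarCoord_symm]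
    congr 1
    funext p
    rw [smul_eq_mul, Complex.polarCoord_symm_apply]
    rfl
  have hmeas : Measurable fun p : ℝ × ℝ => ENNReal.ofReal p.1 * G (a + p.1 * ev p.2) := by
    apply Measurable.mul
    · exact measurable_fst.ennreal_ofReal
    · apply hG.comp
      apply Continuous.measurable
      have := continuous_ev
      fun_prop
  have h2 : ∫⁻ p in Ioo δ η ×ˢ Ioo (-π) π, ENNReal.ofReal p.1 * G (a + p.1 * ev p.2) ≤
      ∫⁻ z, G z := by
    rw [h1]
    apply lintegral_mono_set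
    rw [polarCoord_target]
    exact prod_mono (fun x hx => lt_trans hδ hx.1) Subset.rfl
  refine le_trans ?_ h2
  rw [Measure.volume_eq_prod, ← Measure.prod_restrict, lintegral_prod _ hmeas.aemeasurable]
  have h3 : ENNReal.ofReal (Real.log (η / δ)) * c = ∫⁻ r in Ioo δ η, ENNReal.ofReal (1 / r) * c := by
    rw [lintegral_mul_const _ (by fun_prop)]
    congr 1
    have h4 : ∫ r in δ..η, 1 / r = Real.log (η / δ) :=
      integral_one_div_of_pos hδ (hδ.trans hδη)
    rw [intervalIntegral.integral_of_le hδη.le, integral_Ioc_eq_integral_Ioo] at h4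
    rw [← h4, ofReal_integral_eq_lintegral_ofReal]
    · apply IntegrableOn.mono_set (t := Icc δ η) _ Ioo_subset_Icc_self
      apply ContinuousOn.integrableOn_Icc
      apply continuousOn_const.div continuousOn_id
      intro x hx
      exact (lt_of_lt_of_le hδ hx.1).ne'
    · filter_upwards [ae_restrict_mem measurableSet_Ioo] with r hr
      have : 0 < r := hδ.trans hr.1
      simp only [Pi.zero_apply]
      positivity
  rw [h3]
  apply setLIntegral_mono' measurableSet_Ioo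
  intro r hr
  have hr0 : 0 < r := hδ.trans hr.1
  have hm : Measurable (fun θ : ℝ => G (a + r * ev θ)) := by
    apply hG.comp
    apply Continuous.measurable
    have := continuous_ev
    fun_prop
  have e : ∫⁻ θ in Ioo (-π) π, ENNReal.ofReal r * G (a + r * ev θ) =
      ENNReal.ofReal r * ∫⁻ θ in Ioo (-π) π, G (a + r * ev θ) := by
    rw [lintegral_const_mul _ hm]
  refine le_trans ?_ (le_of_eq e.symm)
  calc ENNReal.ofReal (1 / r) * c ≤ ENNReal.ofReal (1 / r) * (ENNReal.ofReal (r ^ 2) *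
      ∫⁻ θ in Ioo (-π) π, G (a + r * ev θ)) := by gcongr; exact h r hr
    _ = ENNReal.ofReal r * ∫⁻ θ in Ioo (-π) π, G (a + r * ev θ) := by
      rw [← mul_assoc, ← ENNReal.ofReal_mul (by positivity)]
      congr 2
      field_simp

theorem path_bound {g : ℂ → ℂ} (hg : DifferentiableOn ℂ g (ball 0 1)) {a : ℂ} {r η : ℝ}
    (hr : 0 < r) (hη : 0 < η) {θ₁ θ₂ : ℝ} (h12 : θ₁ ≤ θ₂) (h1 : -π ≤ θ₁) (h2 : θ₂ ≤ π)
    (hin : ∀ θ ∈ Icc θ₁ θ₂, a + r * ev θ ∈ ball (0 : ℂ) 1)
    (hT : ENNReal.ofReal (r ^ 2) * ∫⁻ θ in Ioo (-π) π, dens g (a + r * ev θ) ≤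
      ENNReal.ofReal (η ^ 2)) :
    ‖g (a + r * ev θ₂) - g (a + r * ev θ₁)‖ ≤ 4 * η := by
  set γ : ℝ → ℂ := fun θ => a + r * ev θ with hγ
  have hγc : Continuous γ := by
    have := continuous_ev
    fun_prop
  have hγd : ∀ θ, HasDerivAt γ (r * (I * ev θ)) θ := by
    intro θ
    exact ((hasDerivAt_ev θ).const_mul (r : ℂ)).const_add a
  have hg' : ContinuousOn (deriv g) (ball 0 1) := by
    have : AnalyticOnNhd ℂ g (ball 0 1) := hg.analyticOnNhd isOpen_ball
    exact this.deriv.continuousOn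
  have hc : ContinuousOn (fun θ => deriv g (γ θ)) (Icc θ₁ θ₂) :=
    hg'.comp hγc.continuousOn hin
  have hu : uIcc θ₁ θ₂ = Icc θ₁ θ₂ := uIcc_of_le h12
  have hcd : ContinuousOn (fun θ => deriv g (γ θ) * (r * (I * ev θ))) (Icc θ₁ θ₂) := by
    apply hc.mul
    have := continuous_ev
    fun_prop
  have hint : ∫ θ in θ₁..θ₂, deriv g (γ θ) * (r * (I * ev θ)) = g (γ θ₂) - g (γ θ₁) := by
    apply intervalIntegral.integral_eq_sub_of_hasDerivAt
    · intro θ hθ
      rw [hu] at hθ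
      have h3 : HasDerivAt g (deriv g (γ θ)) (γ θ) :=
        (hg.differentiableAt (isOpen_ball.mem_nhds (hin θ hθ))).hasDerivAt
      exact h3.comp θ (hγd θ)
    · apply ContinuousOn.intervalIntegrable
      rw [hu]; exact hcd
  rw [← hint]
  have hnc : ContinuousOn (fun θ => ‖deriv g (γ θ)‖ ^ 2) (Icc θ₁ θ₂) := hc.norm.pow 2
  have hsq : r ^ 2 * ∫ θ in θ₁..θ₂, ‖deriv g (γ θ)‖ ^ 2 ≤ η ^ 2 := by
    rw [← ENNReal.ofReal_le_ofReal_iff (by positivity)]
    refine le_trans ?_ hT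
    rw [ENNReal.ofReal_mul (by positivity)]
    gcongr
    rw [intervalIntegral.integral_of_le h12, ofReal_integral_eq_lintegral_ofReal]
    · calc ∫⁻ θ in Ioc θ₁ θ₂, ENNReal.ofReal (‖deriv g (γ θ)‖ ^ 2)
          ≤ ∫⁻ θ in Ioc θ₁ θ₂, dens g (γ θ) := by
            apply setLIntegral_mono' measurableSet_Ioc
            intro θ hθ
            rw [dens, indicator_of_mem (hin θ (Ioc_subset_Icc_self hθ))]
        _ ≤ ∫⁻ θ in Ioc (-π) π, dens g (γ θ) := by
            apply lintegral_mono_set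
            exact Ioc_subset_Ioc h1 h2
        _ = ∫⁻ θ in Ioo (-π) π, dens g (γ θ) := by
            rw [restrict_Ioo_eq_restrict_Ioc]
    · exact (hnc.integrableOn_Icc).mono_set Ioc_subset_Icc_self
    · filter_upwards with θ
      simp only [Pi.zero_apply]
      positivity
  calc ‖∫ θ in θ₁..θ₂, deriv g (γ θ) * (r * (I * ev θ))‖
      ≤ ∫ θ in θ₁..θ₂, ‖deriv g (γ θ) * (r * (I * ev θ))‖ :=
        intervalIntegral.norm_integral_le_integral_norm h12
    _ ≤ ∫ θ in θ₁..θ₂, (η / 2 + r ^ 2 / (2 * η) * ‖deriv g (γ θ)‖ ^ 2) := by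
        apply intervalIntegral.integral_mono_on h12
        · apply ContinuousOn.intervalIntegrable
          rw [hu]; exact hcd.norm
        · apply ContinuousOn.intervalIntegrable
          rw [hu]
          exact continuousOn_const.add (continuousOn_const.mul hnc)
        · intro θ _
          rw [norm_mul, norm_mul, norm_mul, norm_ev, Complex.norm_I, Complex.norm_real,
            Real.norm_of_nonneg hr.le, mul_one, mul_one]
          have h5 : 0 ≤ (η - ‖deriv g (γ θ)‖ * r) ^ 2 := sq_nonneg _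
          have h6 : η / 2 + r ^ 2 / (2 * η) * ‖deriv g (γ θ)‖ ^ 2 - ‖deriv g (γ θ)‖ * r =
              (η - ‖deriv g (γ θ)‖ * r) ^ 2 / (2 * η) := by
            field_simp
            ring
          have h7 : 0 ≤ (η - ‖deriv g (γ θ)‖ * r) ^ 2 / (2 * η) := by positivity
          linarith
    _ = (θ₂ - θ₁) * (η / 2) + r ^ 2 / (2 * η) * ∫ θ in θ₁..θ₂, ‖deriv g (γ θ)‖ ^ 2 := by
        rw [intervalIntegral.integral_add, intervalIntegral.integral_const,
          intervalIntegral.integral_const_mul, smul_eq_mul]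
        · exact intervalIntegrable_const
        · apply ContinuousOn.intervalIntegrable
          rw [hu]
          exact continuousOn_const.mul hnc
    _ ≤ 4 * η := by
        have h5 : θ₂ - θ₁ ≤ 2 * π := by linarith
        have h6 : r ^ 2 / (2 * η) * ∫ θ in θ₁..θ₂, ‖deriv g (γ θ)‖ ^ 2 ≤ η / 2 := by
          have : r ^ 2 / (2 * η) * ∫ θ in θ₁..θ₂, ‖deriv g (γ θ)‖ ^ 2 =
              (r ^ 2 * ∫ θ in θ₁..θ₂, ‖deriv g (γ θ)‖ ^ 2) / (2 * η) := by ring
          rw [this, div_le_iff₀ (by positivity)]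
          nlinarith
        have h7 := Real.pi_lt_d2
        nlinarith

theorem length_area {f : ℂ → ℂ} (hf : DifferentiableOn ℂ f (ball 0 1)) (hi : InjOn f (ball 0 1))
    (hv : volume (f '' ball 0 1) ≠ ⊤) {η : ℝ} (hη : 0 < η) :
    ∃ δ, 0 < δ ∧ δ < η ∧ ∀ a ∈ ball (0 : ℂ) 1, ∃ r ∈ Ioo δ η, ∀ z ∈ ball (0 : ℂ) 1 ∩ sphere a r,
      ∀ z' ∈ ball (0 : ℂ) 1 ∩ sphere a r, ‖f z - f z'‖ ≤ 4 * η := by
  set V : ℝ := (volume (f '' ball 0 1)).toReal with hV
  have hV0 : 0 ≤ V := ENNReal.toReal_nonneg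
  -- choose `δ`
  obtain ⟨δ, hδ0, hδη, hδ⟩ : ∃ δ, 0 < δ ∧ δ < η ∧ V < Real.log (η / δ) * η ^ 2 := by
    refine ⟨η * Real.exp (-((V + 1) / η ^ 2)), by positivity, ?_, ?_⟩
    · have : Real.exp (-((V + 1) / η ^ 2)) < 1 := by
        rw [Real.exp_lt_one_iff]
        have : 0 < (V + 1) / η ^ 2 := by positivity
        linarith
      nlinarith
    · have h1 : η / (η * Real.exp (-((V + 1) / η ^ 2))) = Real.exp ((V + 1) / η ^ 2) := by
        rw [Real.exp_neg]
        field_simp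
      rw [h1, Real.log_exp]
      field_simp
      linarith
  refine ⟨δ, hδ0, hδη, fun a ha => ?_⟩
  rw [mem_ball, dist_zero_right] at ha
  -- rotate
  obtain ⟨c, hc, hca⟩ : ∃ c : ℂ, ‖c‖ = 1 ∧ a = c * (-(‖a‖ : ℂ)) := by
    by_cases h0 : a = 0
    · exact ⟨1, by simp, by simp [h0]⟩
    · have h1 : ‖a‖ ≠ 0 := by simpa using h0
      have h2 : (‖a‖ : ℂ) ≠ 0 := by exact_mod_cast h1
      refine ⟨-a / ‖a‖, ?_, ?_⟩
      · rw [norm_div, norm_neg, Complex.norm_real, norm_norm, div_self h1]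
      · field_simp
  set α : ℝ := ‖a‖ with hα
  have hα0 : 0 ≤ α := norm_nonneg _
  set g : ℂ → ℂ := fun z => f (c * z) with hg
  have hcm : ∀ z : ℂ, c * z ∈ ball (0 : ℂ) 1 ↔ z ∈ ball (0 : ℂ) 1 := by
    intro z
    rw [mem_ball, mem_ball, dist_zero_right, dist_zero_right, norm_mul, hc, one_mul]
  have hc0 : c ≠ 0 := by
    intro h; rw [h, norm_zero] at hc; exact zero_ne_one hc
  have hgd : DifferentiableOn ℂ g (ball 0 1) := by
    apply hf.comp (differentiableOn_id.const_mul c)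
    intro z hz
    exact (hcm z).2 hz
  have hgi : InjOn g (ball 0 1) := by
    intro z hz w hw h
    exact mul_left_cancel₀ hc0 (hi ((hcm z).2 hz) ((hcm w).2 hw) h)
  have hgim : g '' ball 0 1 = f '' ball 0 1 := by
    ext w
    constructor
    · rintro ⟨z, hz, rfl⟩
      exact ⟨c * z, (hcm z).2 hz, rfl⟩
    · rintro ⟨z, hz, rfl⟩
      refine ⟨c⁻¹ * z, ?_, ?_⟩
      · rw [← hcm, mul_inv_cancel_left₀ hc0]; exact hz
      · simp only [hg]; rw [mul_inv_cancel_left₀ hc0]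
  have hJ : ∫⁻ z, dens g z = volume (f '' ball 0 1) := by
    rw [lintegral_dens hgd hgi, hgim]
  obtain ⟨r, hr, hT⟩ : ∃ r ∈ Ioo δ η, ENNReal.ofReal (r ^ 2) *
      ∫⁻ θ in Ioo (-π) π, dens g (-(α : ℂ) + r * ev θ) ≤ ENNReal.ofReal (η ^ 2) := by
    by_contra hcon
    push Not at hcon
    have h1 := length_area_aux (measurable_dens g) (-(α : ℂ)) hδ0 hδη (fun r hr => (hcon r hr).le)
    rw [hJ, ← ENNReal.ofReal_mul (Real.log_nonneg (by rw [le_div_iff₀ hδ0]; linarith)),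
      ← ENNReal.ofReal_toReal hv, ENNReal.ofReal_le_ofReal_iff hV0] at h1
    linarith
  refine ⟨r, hr, ?_⟩
  have hr0 : 0 < r := hδ0.trans hr.1
  -- the points in angular coordinates
  have hang : ∀ z ∈ ball (0 : ℂ) 1 ∩ sphere a r, ∃ θ, -π ≤ θ ∧ θ ≤ π ∧
      f z = g (-(α : ℂ) + r * ev θ) ∧ -(α : ℂ) + r * ev θ ∈ ball (0 : ℂ) 1 := by
    rintro z ⟨hz1, hz2⟩
    have h1 : z = c * (-(α : ℂ) + r * ev (arg (c⁻¹ * (z - a)))) := by
      have h2 : ‖c⁻¹ * (z - a)‖ = r := by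
        rw [norm_mul, norm_inv, hc, inv_one, one_mul, ← dist_eq_norm]
        exact hz2
      have h3 : (r : ℂ) * ev (arg (c⁻¹ * (z - a))) = c⁻¹ * (z - a) := by
        conv_rhs => rw [← Complex.norm_mul_exp_arg_mul_I (c⁻¹ * (z - a))]
        rw [h2, ev_eq]
      rw [h3, mul_add, mul_inv_cancel_left₀ hc0, ← hca]
      ring
    refine ⟨arg (c⁻¹ * (z - a)), (neg_pi_lt_arg _).le, arg_le_pi _, ?_, ?_⟩
    · conv_lhs => rw [h1]
    · rw [← hcm, ← h1]; exact hz1
  have hin : ∀ θ, -(α : ℂ) + r * ev θ ∈ ball (0 : ℂ) 1 ↔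
      α ^ 2 + r ^ 2 - 2 * α * r * Real.cos θ < 1 := by
    intro θ
    rw [mem_ball, dist_zero_right, ← sq_lt_one_iff₀ (norm_nonneg _), ← Complex.normSq_eq_norm_sq,
      Complex.normSq_apply]
    have h1 : (-(α : ℂ) + r * ev θ).re = -α + r * Real.cos θ := by
      rw [add_re, neg_re, ofReal_re, re_ofReal_mul, ev_re]
    have h2 : (-(α : ℂ) + r * ev θ).im = r * Real.sin θ := by
      rw [add_im, neg_im, ofReal_im, im_ofReal_mul, ev_im, neg_zero, zero_add]
    rw [h1, h2]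
    have h3 := Real.sin_sq_add_cos_sq θ
    have h4 : (-α + r * Real.cos θ) * (-α + r * Real.cos θ) + r * Real.sin θ * (r * Real.sin θ) =
        α ^ 2 + r ^ 2 - 2 * α * r * Real.cos θ := by
      linear_combination r ^ 2 * h3
    rw [h4]
  have hmid : ∀ θ₁ θ₂, -π ≤ θ₁ → θ₂ ≤ π → -(α : ℂ) + r * ev θ₁ ∈ ball (0 : ℂ) 1 →
      -(α : ℂ) + r * ev θ₂ ∈ ball (0 : ℂ) 1 → ∀ θ ∈ Icc θ₁ θ₂,
      -(α : ℂ) + r * ev θ ∈ ball (0 : ℂ) 1 := by
    intro θ₁ θ₂ h1 h2 h3 h4 θ hθ
    rw [hin] at h3 h4 ⊢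
    have h5 : Real.cos θ₁ ≤ Real.cos θ ∨ Real.cos θ₂ ≤ Real.cos θ := by
      rcases le_total 0 θ with h | h
      · right
        exact Real.cos_le_cos_of_nonneg_of_le_pi h h2 hθ.2
      · left
        rw [← Real.cos_neg θ, ← Real.cos_neg θ₁]
        exact Real.cos_le_cos_of_nonneg_of_le_pi (by linarith) (by linarith) (by linarith [hθ.1])
    have h6 : 0 ≤ 2 * α * r := by positivity
    rcases h5 with h5 | h5
    · have := mul_le_mul_of_nonneg_left h5 h6
      linarith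
    · have := mul_le_mul_of_nonneg_left h5 h6
      linarith
  intro z hz z' hz'
  obtain ⟨θ, t1, t2, t3, t4⟩ := hang z hz
  obtain ⟨θ', s1, s2, s3, s4⟩ := hang z' hz'
  rw [t3, s3]
  rcases le_total θ' θ with h | h
  · exact path_bound hgd hr0 hη h s1 t2 (hmid _ _ s1 t2 s4 t4) hT
  · rw [norm_sub_rev]
    exact path_bound hgd hr0 hη h t1 s2 (hmid _ _ t1 s2 t4 s4) hT

end Pool.Agent.H871R2.Sph
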