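import Mathlib
import Pool.Agent.Helper202.Riemann
import Pool.Agent.H871R2.Sph.LengthArea

set_option autoImplicit false
open Complex Set Filter Metric Topology MeasureTheory
open scoped NNReal ENNReal Real

namespace Pool.Agent.H871R2.Sph

theorem cos_mono_aux {θ t : ℝ} (h0 : 0 ≤ θ) (h1 : θ ≤ t) (h2 : t ≤ π) : Real.cos t ≤ Real.cos θ :=
  Real.cos_le_cos_of_nonneg_of_le_pi h0 h2 h1

/-- the open disc minus a small closed disc is connected -/
theorem isPreconnected_diff {w : ℂ} {ρ : ℝ} (hρ0 : 0 < ρ) (hρ : ρ < 1 / 2) :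
    IsPreconnected (ball (0 : ℂ) 1 \ closedBall w ρ) := by
  obtain ⟨n, hn, hw⟩ : ∃ n : ℂ, ‖n‖ = 1 ∧ w = n * (‖w‖ : ℂ) := by
    by_cases h0 : w = 0
    · exact ⟨1, by simp, by simp [h0]⟩
    · have h1 : ‖w‖ ≠ 0 := by simpa using h0
      have h2 : (‖w‖ : ℂ) ≠ 0 := by exact_mod_cast h1
      refine ⟨w / ‖w‖, ?_, ?_⟩
      · rw [norm_div, Complex.norm_real, norm_norm, div_self h1]
      · field_simp
  set b : ℝ := ‖w‖ with hb
  have hb0 : 0 ≤ b := norm_nonneg _
  have hn0 : n ≠ 0 := by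
    intro h; rw [h, norm_zero] at hn; exact zero_ne_one hn
  -- distance computations
  have hmem : ∀ r t : ℝ, n * (r * ev t) ∈ ball (0 : ℂ) 1 \ closedBall w ρ ↔
      |r| < 1 ∧ ρ ^ 2 < r ^ 2 + b ^ 2 - 2 * r * b * Real.cos t := by
    intro r t
    have h1 : ‖n * (r * ev t)‖ = |r| := by
      rw [norm_mul, norm_mul, hn, norm_ev, Complex.norm_real, one_mul, mul_one, Real.norm_eq_abs]
    have h2 : ‖n * (r * ev t) - w‖ ^ 2 = r ^ 2 + b ^ 2 - 2 * r * b * Real.cos t := by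
      have h3 : n * (r * ev t) - w = n * (r * ev t - b) := by
        rw [hw]; ring
      rw [h3, norm_mul, hn, one_mul, ← Complex.normSq_eq_norm_sq, Complex.normSq_apply]
      have h4 : ((r : ℂ) * ev t - b).re = r * Real.cos t - b := by
        rw [sub_re, ofReal_re, re_ofReal_mul, ev_re]
      have h5 : ((r : ℂ) * ev t - b).im = r * Real.sin t := by
        rw [sub_im, ofReal_im, im_ofReal_mul, ev_im, sub_zero]
      rw [h4, h5]
      linear_combination r ^ 2 * Real.sin_sq_add_cos_sq t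
    rw [Set.mem_sdiff, mem_ball, dist_zero_right, h1, mem_closedBall, not_le, dist_eq_norm, ← h2]
    rw [sq_lt_sq, abs_of_pos hρ0, abs_norm]
  have hev : ev π = -1 := by simp [ev]
  have hev' : ev (-π) = -1 := by simp [ev]
  have hcont : ∀ r : ℝ, Continuous fun t : ℝ => n * ((r : ℂ) * ev t) := by
    intro r
    have := continuous_ev
    fun_prop
  have hcont2 : Continuous fun r : ℝ => n * ((r : ℂ) * ev π) := by fun_prop
  apply isPreconnected_of_forall (n * (((1 / 2 : ℝ) : ℂ) * ev π))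
  intro z hz
  set r : ℝ := ‖z‖ with hr
  set θ : ℝ := arg (n⁻¹ * z) with hθ
  have hr0 : 0 ≤ r := norm_nonneg _
  have hzr : z = n * (r * ev θ) := by
    have h2 : ‖n⁻¹ * z‖ = r := by rw [norm_mul, norm_inv, hn, inv_one, one_mul]
    have h3 : (r : ℂ) * ev θ = n⁻¹ * z := by
      conv_rhs => rw [← Complex.norm_mul_exp_arg_mul_I (n⁻¹ * z)]
      rw [h2, ev_eq]
    rw [h3, mul_inv_cancel_left₀ hn0]
  have hz' := hz
  rw [hzr, hmem] at hz'
  obtain ⟨hz1, hz2⟩ := hz'
  -- the circular part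
  have harc : ∀ t : ℝ, Real.cos t ≤ Real.cos θ → n * (r * ev t) ∈ ball (0 : ℂ) 1 \ closedBall w ρ := by
    intro t ht
    rw [hmem]
    refine ⟨hz1, hz2.trans_le ?_⟩
    have : 0 ≤ 2 * r * b := by positivity
    have := mul_le_mul_of_nonneg_left ht this
    linarith
  have hc1 : ∃ A ⊆ ball (0 : ℂ) 1 \ closedBall w ρ, z ∈ A ∧ n * (r * ev π) ∈ A ∧
      IsPreconnected A := by
    rcases le_total 0 θ with h | h
    · refine ⟨(fun t : ℝ => n * ((r : ℂ) * ev t)) '' Icc θ π, ?_, ?_, ?_, ?_⟩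
      · rintro _ ⟨t, ht, rfl⟩
        exact harc t (cos_mono_aux h ht.1 ht.2)
      · exact ⟨θ, left_mem_Icc.2 (arg_le_pi _), hzr.symm⟩
      · exact ⟨π, right_mem_Icc.2 (arg_le_pi _), rfl⟩
      · exact isPreconnected_Icc.image _ (hcont r).continuousOn
    · refine ⟨(fun t : ℝ => n * ((r : ℂ) * ev t)) '' Icc (-π) θ, ?_, ?_, ?_, ?_⟩
      · rintro _ ⟨t, ht, rfl⟩
        refine harc t ?_
        rw [← Real.cos_neg θ, ← Real.cos_neg t]
        exact cos_mono_aux (by linarith) (by linarith [ht.2]) (by linarith [ht.1])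
      · exact ⟨θ, right_mem_Icc.2 (neg_pi_lt_arg _).le, hzr.symm⟩
      · exact ⟨-π, left_mem_Icc.2 (neg_pi_lt_arg _).le, by simp only [hev, hev']⟩
      · exact isPreconnected_Icc.image _ (hcont r).continuousOn
  obtain ⟨A, hA1, hA2, hA3, hA4⟩ := hc1
  -- the radial part
  have hrad : ∀ t ∈ uIcc r (1 / 2), n * (t * ev π) ∈ ball (0 : ℂ) 1 \ closedBall w ρ := by
    intro t ht
    have h1 : n * (r * ev π) ∈ ball (0 : ℂ) 1 \ closedBall w ρ := hA1 hA3
    rw [hmem, Real.cos_pi] at h1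
    rw [hmem, Real.cos_pi]
    obtain ⟨h2, h3⟩ := h1
    rw [abs_of_nonneg hr0] at h2
    have h4 : ρ < r + b := by
      have : ρ ^ 2 < (r + b) ^ 2 := by linarith
      exact lt_of_pow_lt_pow_left₀ 2 (by positivity) this
    rw [mem_uIcc] at ht
    have h5 : 0 ≤ t ∧ t < 1 ∧ ρ < t + b := by
      rcases ht with ht | ht
      · exact ⟨by linarith [ht.1], by linarith [ht.2], by linarith [ht.1]⟩
      · exact ⟨by linarith [ht.1], by linarith [ht.2], by linarith [ht.1]⟩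
    refine ⟨by rw [abs_of_nonneg h5.1]; exact h5.2.1, ?_⟩
    have : ρ ^ 2 < (t + b) ^ 2 := by
      apply pow_lt_pow_left₀ h5.2.2 hρ0.le (by norm_num)
    linarith
  refine ⟨(fun t : ℝ => n * ((t : ℂ) * ev π)) '' uIcc r (1 / 2) ∪ A, ?_, ?_, ?_, ?_⟩
  · rintro x (⟨t, ht, rfl⟩ | hx)
    · exact hrad t ht
    · exact hA1 hx
  · exact Or.inl ⟨1 / 2, right_mem_uIcc, rfl⟩
  · exact Or.inr hA2
  · apply IsPreconnected.union (n * (r * ev π))
    · exact ⟨r, left_mem_uIcc, rfl⟩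
    · exact hA3
    · exact isPreconnected_uIcc.image _ hcont2.continuousOn
    · exact hA4

/-- uniqueness of bounded injective holomorphic functions with constant values on a boundary arc -/
theorem no_const_arc {F : ℂ → ℂ} (hc : ContinuousOn F (closedBall 0 1))
    (hd : DifferentiableOn ℂ F (ball 0 1)) (hi : InjOn F (ball 0 1)) {O : Set ℂ} (hO : IsOpen O)
    {ξ c : ℂ} (hξ : ξ ∈ O) (hξ1 : ‖ξ‖ = 1) (hconst : ∀ z ∈ O, ‖z‖ = 1 → F z = c) : False := by
  have hcov : sphere (0 : ℂ) 1 ⊆ ⋃ t : sphere (0 : ℂ) 1, {z : ℂ | (t : ℂ) * z ∈ O} := by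
    intro z hz
    have hz1 : ‖z‖ = 1 := by simpa using hz
    have hz0 : z ≠ 0 := by intro h; rw [h, norm_zero] at hz1; exact zero_ne_one hz1
    refine mem_iUnion.2 ⟨⟨ξ / z, by simp [hξ1, hz1]⟩, ?_⟩
    simp only [mem_ofPred_eq]
    rw [div_mul_cancel₀ _ hz0]
    exact hξ
  obtain ⟨T, hT⟩ := (isCompact_sphere (0 : ℂ) 1).elim_finite_subcover
    (fun t : sphere (0 : ℂ) 1 => {z : ℂ | (t : ℂ) * z ∈ O}) (fun t =>
    hO.preimage (by fun_prop : Continuous fun z : ℂ => (t : ℂ) * z)) hcov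
  set P : ℂ → ℂ := fun z => ∏ t ∈ T, (F ((t : ℂ) * z) - c) with hP
  have htn : ∀ t : sphere (0 : ℂ) 1, ‖(t : ℂ)‖ = 1 := fun t => by simpa using t.2
  have hPc : ContinuousOn P (closedBall 0 1) := by
    apply continuousOn_finsetProd
    intro t _
    apply ContinuousOn.sub _ continuousOn_const
    apply hc.comp (f := fun z : ℂ => (t : ℂ) * z) (by fun_prop)
    intro z hz
    rw [mem_closedBall, dist_zero_right] at hz ⊢
    rw [norm_mul, htn, one_mul]
    exact hz
  have hPd : DifferentiableOn ℂ P (ball 0 1) := by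
    apply DifferentiableOn.fun_finsetProd
    intro t _
    apply DifferentiableOn.sub_const
    apply hd.comp (f := fun z : ℂ => (t : ℂ) * z) (by fun_prop)
    intro z hz
    rw [mem_ball, dist_zero_right] at hz ⊢
    rw [norm_mul, htn, one_mul]
    exact hz
  have hP0 : ∀ z ∈ closure (ball (0 : ℂ) 1), P z = 0 := by
    have h1 : DiffContOnCl ℂ P (ball 0 1) := by
      refine ⟨hPd, ?_⟩
      rw [closure_ball _ one_ne_zero]
      exact hPc
    have h2 : DiffContOnCl ℂ (fun _ => (0 : ℂ)) (ball (0 : ℂ) 1) := diffContOnCl_const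
    refine Complex.eqOn_closure_of_eqOn_frontier isBounded_ball h1 h2 ?_
    rw [frontier_ball _ one_ne_zero]
    intro z hz
    obtain ⟨t, ht⟩ := mem_iUnion.1 (hT hz)
    obtain ⟨ht1, ht2⟩ := mem_iUnion.1 ht
    apply Finset.prod_eq_zero ht1
    rw [hconst _ ht2 (by rw [norm_mul, htn, one_mul]; simpa using hz), sub_self]
  have hex : ∀ r : ℝ, 0 < r → r < 1 → ∃ z, ‖z‖ = r ∧ F z = c := by
    intro r hr0 hr1
    have h1 : P r = 0 := by
      apply hP0
      apply subset_closure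
      simpa [abs_of_pos hr0] using hr1
    obtain ⟨t, ht1, ht2⟩ := Finset.prod_eq_zero_iff.1 h1
    refine ⟨(t : ℂ) * r, ?_, sub_eq_zero.1 ht2⟩
    rw [norm_mul, htn, one_mul, Complex.norm_real, Real.norm_of_nonneg hr0.le]
  obtain ⟨z1, h1, h1'⟩ := hex (1 / 2) (by norm_num) (by norm_num)
  obtain ⟨z2, h2, h2'⟩ := hex (1 / 3) (by norm_num) (by norm_num)
  have h3 : z1 = z2 := by
    apply hi _ _ (h1'.trans h2'.symm)
    · rw [mem_ball, dist_zero_right, h1]; norm_num
    · rw [mem_ball, dist_zero_right, h2]; norm_num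
  rw [h3, h2] at h1
  norm_num at h1

end Pool.Agent.H871R2.Sph
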