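import Mathlib
import Pool.Agent.H871R2.Sph.Cara

set_option autoImplicit false
open Complex Set Filter Metric Topology MeasureTheory
open scoped NNReal ENNReal Real

namespace Pool.Agent.H871R2.Sph

/-- a topological embedding of the closed unit disc in the plane, fixing `0` -/
structure Emb (g : ℂ → ℂ) : Prop where
  cont : ContinuousOn g (closedBall 0 1)
  inj : InjOn g (closedBall 0 1)
  opn : IsOpen (g '' ball 0 1)
  zero : g 0 = 0

theorem Emb.exists_inv {g : ℂ → ℂ} (hg : Emb g) : ∃ gi : ℂ → ℂ,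
    ContinuousOn gi (g '' closedBall 0 1) ∧ ∀ z ∈ closedBall (0 : ℂ) 1, gi (g z) = z := by
  have hleft : ∀ z ∈ closedBall (0 : ℂ) 1, Function.invFunOn g (closedBall 0 1) (g z) = z :=
    fun z hz => hg.inj.leftInvOn_invFunOn hz
  refine ⟨Function.invFunOn g (closedBall 0 1), ?_, hleft⟩
  rw [continuousOn_iff_isClosed]
  intro t ht
  refine ⟨g '' (t ∩ closedBall 0 1), ?_, ?_⟩
  · apply IsCompact.isClosed
    apply ((isCompact_closedBall (0 : ℂ) 1).inter_left ht).image_of_continuousOn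
    exact hg.cont.mono inter_subset_right
  · ext w
    constructor
    · rintro ⟨h1, z, hz, rfl⟩
      rw [mem_preimage, hleft z hz] at h1
      exact ⟨⟨z, ⟨h1, hz⟩, rfl⟩, ⟨z, hz, rfl⟩⟩
    · rintro ⟨⟨z, ⟨h1, hz⟩, rfl⟩, h3⟩
      refine ⟨?_, h3⟩
      rw [mem_preimage, hleft z hz]
      exact h1

theorem Emb.isSimplyConnected {g : ℂ → ℂ} (hg : Emb g) : IsSimplyConnected (g '' ball 0 1) := by
  obtain ⟨gi, h1, h2⟩ := hg.exists_inv
  have hsub : ball (0 : ℂ) 1 ⊆ closedBall 0 1 := ball_subset_closedBall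
  let e : ball (0 : ℂ) 1 ≃ₜ (g '' ball 0 1 : Set ℂ) :=
    { toFun := fun z => ⟨g z, z, z.2, rfl⟩
      invFun := fun w => ⟨gi w, by
        obtain ⟨z, hz, hw⟩ := w.2
        rw [← hw, h2 z (hsub hz)]; exact hz⟩
      left_inv := fun z => Subtype.ext (h2 z (hsub z.2))
      right_inv := by
        rintro ⟨w, z, hz, rfl⟩
        apply Subtype.ext
        simp only
        rw [h2 z (hsub hz)]
      continuous_toFun := by
        apply Continuous.subtype_mk
        exact (hg.cont.mono hsub).domRestrict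
      continuous_invFun := by
        apply Continuous.subtype_mk
        exact (h1.mono (image_mono hsub)).domRestrict }
  have h3 : SimplyConnectedSpace (ball (0 : ℂ) 1) := by
    have : ContractibleSpace (ball (0 : ℂ) 1) :=
      (convex_ball (0 : ℂ) 1).contractibleSpace ⟨0, mem_ball_self one_pos⟩
    exact SimplyConnectedSpace.ofContractible _
  exact e.toHomotopyEquiv.simplyConnectedSpace_iff.1 h3

/-- the data of a conformal map onto the interior of an embedded disc, in the coordinates of the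
embedding -/
structure Conf (g f ψ ψi : ℂ → ℂ) : Prop where
  emb : Emb g
  diff : DifferentiableOn ℂ f (ball 0 1)
  inj : InjOn f (ball 0 1)
  deriv : deriv f 0 ≠ 0
  zero : f 0 = 0
  im : f '' ball 0 1 = g '' ball 0 1
  maps : MapsTo ψ (ball 0 1) (ball 0 1)
  mapsi : MapsTo ψi (ball 0 1) (ball 0 1)
  left : ∀ z ∈ ball (0 : ℂ) 1, ψi (ψ z) = z
  right : ∀ z ∈ ball (0 : ℂ) 1, ψ (ψi z) = z
  cont : ContinuousOn ψ (ball 0 1)
  conti : ContinuousOn ψi (ball 0 1)
  eq : ∀ z ∈ ball (0 : ℂ) 1, g (ψ z) = f z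

theorem Emb.exists_conf {g : ℂ → ℂ} (hg : Emb g) : ∃ f ψ ψi : ℂ → ℂ, Conf g f ψ ψi := by
  have hsub : ball (0 : ℂ) 1 ⊆ closedBall 0 1 := ball_subset_closedBall
  obtain ⟨gi, h1, h2⟩ := hg.exists_inv
  have hbd : g '' ball 0 1 ≠ univ := by
    intro h
    have h3 : IsCompact (g '' closedBall (0 : ℂ) 1) :=
      (isCompact_closedBall (0 : ℂ) 1).image_of_continuousOn hg.cont
    have h4 : g '' closedBall (0 : ℂ) 1 = univ :=
      eq_univ_of_univ_subset (h ▸ image_mono hsub)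
    rw [h4] at h3
    exact noncompact_univ ℂ h3
  obtain ⟨f, φ, f1, f2, f3, f4, f5, f6, f7, f8⟩ :=
    Pool.Agent.Helper202.Riemann.riemann_inv hg.opn hg.isSimplyConnected hbd
      (a := 0) ⟨0, mem_ball_self one_pos, hg.zero⟩
  have hfm : ∀ z ∈ ball (0 : ℂ) 1, ∃ w ∈ ball (0 : ℂ) 1, g w = f z := fun z hz => f2.mapsTo hz
  have key : ∀ z ∈ ball (0 : ℂ) 1, gi (f z) ∈ ball (0 : ℂ) 1 ∧ g (gi (f z)) = f z := by
    intro z hz
    obtain ⟨w, hw, h⟩ := hfm z hz
    rw [← h, h2 w (hsub hw)]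
    exact ⟨hw, rfl⟩
  refine ⟨f, fun z => gi (f z), fun z => φ (g z), hg, f1, f2.injOn, f3 0 (mem_ball_self one_pos), f4,
    f2.image_eq, fun z hz => (key z hz).1, fun z hz => f6 ⟨z, hz, rfl⟩, ?_, ?_, ?_, ?_,
    fun z hz => (key z hz).2⟩
  · intro z hz
    rw [(key z hz).2, f8 z hz]
  · intro z hz
    rw [f7 _ ⟨z, hz, rfl⟩, h2 z (hsub hz)]
  · apply h1.comp f1.continuousOn
    intro z hz
    exact image_mono hsub (f2.mapsTo hz)
  · exact f5.continuousOn.comp (hg.cont.mono hsub) (fun z hz => ⟨z, hz, rfl⟩)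

theorem three_points {p : Fin 3 → ℂ} {d : ℝ} (hd : ∀ i j, i ≠ j → d ≤ dist (p i) (p j)) {a : ℂ}
    {r : ℝ} (hr : 2 * r < d) {i j : Fin 3} (hi : p i ∈ closedBall a r) (hj : p j ∈ closedBall a r) :
    i = j := by
  by_contra hne
  have h1 := hd i j hne
  have h2 : dist (p i) (p j) ≤ dist (p i) a + dist (p j) a := dist_triangle_right _ _ _
  rw [mem_closedBall] at hi hj
  linarith

theorem exists_third (A B : Fin 3 → Prop) (hA : ∀ i j, A i → A j → i = j)
    (hB : ∀ i j, B i → B j → i = j) : ∃ i, ¬ A i ∧ ¬ B i := by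
  by_contra hcon
  push Not at hcon
  by_cases hA0 : ∃ i, A i
  · obtain ⟨i, hi⟩ := hA0
    have h1 : ∀ j, j ≠ i → B j := fun j hj => hcon j (fun h => hj (hA j i h hi))
    have h2 : ∀ i : Fin 3, ∃ j k : Fin 3, j ≠ i ∧ k ≠ i ∧ j ≠ k := by decide
    obtain ⟨j, k, hj, hk, hjk⟩ := h2 i
    exact hjk (hB j k (h1 j hj) (h1 k hk))
  · push Not at hA0
    have := hB 0 1 (hcon 0 (hA0 0)) (hcon 1 (hA0 1))
    exact absurd this (by decide)

theorem Conf.uniformContinuousOn {g f ψ ψi : ℂ → ℂ} (h : Conf g f ψ ψi) :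
    UniformContinuousOn ψ (ball 0 1) := by
  have hsub : ball (0 : ℂ) 1 ⊆ closedBall 0 1 := ball_subset_closedBall
  obtain ⟨gi, g1, g2⟩ := h.emb.exists_inv
  have hψ : ∀ z ∈ ball (0 : ℂ) 1, ψ z = gi (f z) := by
    intro z hz
    rw [← h.eq z hz, g2 _ (hsub (h.maps hz))]
  have hψinj : InjOn ψ (ball 0 1) := by
    intro z hz w hw hzw
    rw [← h.left z hz, ← h.left w hw, hzw]
  have hcomp : IsCompact (g '' closedBall (0 : ℂ) 1) :=
    (isCompact_closedBall (0 : ℂ) 1).image_of_continuousOn h.emb.cont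
  have hvol : volume (f '' ball 0 1) ≠ ⊤ := by
    rw [h.im]
    exact ((measure_mono (image_mono hsub)).trans_lt hcomp.measure_lt_top).ne
  have hgu : UniformContinuousOn gi (g '' closedBall 0 1) :=
    hcomp.uniformContinuousOn_of_continuous g1
  rw [Metric.uniformContinuousOn_iff] at hgu ⊢
  -- three base points
  set p : Fin 3 → ℂ := ![0, 1 / 2, -(1 / 2)] with hp
  have hpb : ∀ i, p i ∈ ball (0 : ℂ) 1 := by
    intro i
    fin_cases i <;> simp [hp] <;> norm_num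
  have hpd : ∀ i j, i ≠ j → (1 / 2 : ℝ) ≤ dist (p i) (p j) := by
    intro i j hij
    fin_cases i <;> fin_cases j <;> simp [hp, dist_eq_norm] at hij ⊢ <;> norm_num
  obtain ⟨d, hd0, hd⟩ : ∃ d > 0, ∀ i j, i ≠ j → d ≤ dist (ψ (p i)) (ψ (p j)) := by
    have h1 : ∀ i j : Fin 3, ∃ d > 0, i ≠ j → d ≤ dist (ψ (p i)) (ψ (p j)) := by
      intro i j
      by_cases hij : i = j
      · exact ⟨1, one_pos, fun h => absurd hij h⟩
      · refine ⟨dist (ψ (p i)) (ψ (p j)), ?_, fun _ => le_rfl⟩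
        rw [gt_iff_lt, dist_pos]
        intro he
        have h2 := hψinj (hpb i) (hpb j) he
        have h3 := hpd i j hij
        rw [h2, dist_self] at h3
        norm_num at h3
    choose D hD0 hD using h1
    obtain ⟨m, hm⟩ := Finite.exists_min (fun q : Fin 3 × Fin 3 => D q.1 q.2)
    exact ⟨D m.1 m.2, hD0 _ _, fun i j hij => (hm (i, j)).trans (hD i j hij)⟩
  intro ε hε
  set ρ : ℝ := min (ε / 4) (min (1 / 4) (d / 4)) with hρ
  have hρ0 : 0 < ρ := by positivity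
  have hρ1 : ρ ≤ ε / 4 := min_le_left _ _
  have hρ2 : ρ ≤ 1 / 4 := (min_le_right _ _).trans (min_le_left _ _)
  have hρ3 : ρ ≤ d / 4 := (min_le_right _ _).trans (min_le_right _ _)
  obtain ⟨η0, hη0, hη⟩ := hgu ρ hρ0
  set η : ℝ := min (η0 / 8) (1 / 8) with hηdef
  have hηp : 0 < η := by positivity
  have hη1 : η ≤ η0 / 8 := min_le_left _ _
  have hη2 : η ≤ 1 / 8 := min_le_right _ _
  obtain ⟨δ, hδ0, hδη, hδ⟩ := length_area h.diff h.inj hvol hηp
  refine ⟨δ, hδ0, ?_⟩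
  intro z hz z' hz' hzz'
  obtain ⟨r, hr, hlen⟩ := hδ z hz
  have hr0 : 0 < r := hδ0.trans hr.1
  -- a base point outside
  have hout : ∃ i, p i ∉ closedBall z r := by
    by_contra hcon
    push Not at hcon
    have := three_points hpd (by linarith [hr.2] : 2 * r < 1 / 2) (hcon 0) (hcon 1)
    exact absurd this (by decide)
  have hcross : ∀ S : Set ℂ, IsPreconnected S → S ⊆ ball 0 1 → (∃ x ∈ S, dist x z < r) →
      (∃ y ∈ S, r < dist y z) → ∃ u ∈ S, dist u z = r := by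
    rintro S hS _ ⟨x, hx, hx'⟩ ⟨y, hy, hy'⟩
    have h1 := hS.intermediate_value hx hy (f := fun u => dist u z) (by fun_prop)
    exact h1 ⟨hx'.le, hy'.le⟩
  obtain ⟨u0, hu0, hu0'⟩ : ∃ u ∈ ball (0 : ℂ) 1, dist u z = r := by
    obtain ⟨i, hi⟩ := hout
    refine hcross _ (convex_ball (0 : ℂ) 1).isPreconnected Subset.rfl ⟨z, hz, by simpa using hr0⟩
      ⟨p i, hpb i, ?_⟩
    rw [mem_closedBall, not_le] at hi
    exact hi
  set w : ℂ := ψ u0 with hw
  have hγ : ∀ u ∈ ball (0 : ℂ) 1, dist u z = r → ψ u ∈ closedBall w ρ := by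
    intro u hu hu'
    rw [mem_closedBall, hw, hψ u hu, hψ u0 hu0]
    apply le_of_lt
    have hfm : ∀ x ∈ ball (0 : ℂ) 1, f x ∈ g '' closedBall 0 1 := by
      intro x hx
      rw [← h.eq x hx]
      exact ⟨ψ x, hsub (h.maps hx), rfl⟩
    apply hη _ (hfm u hu) _ (hfm u0 hu0)
    rw [dist_eq_norm]
    have := hlen u ⟨hu, hu'⟩ u0 ⟨hu0, hu0'⟩
    linarith
  have key : ∀ u ∈ ball (0 : ℂ) 1, dist u z < r → ψ u ∈ closedBall w ρ := by
    intro u hu hu'
    by_contra hcon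
    obtain ⟨i, hi1, hi2⟩ := exists_third (fun i => p i ∈ closedBall z r)
      (fun i => ψ (p i) ∈ closedBall w ρ)
      (fun i j => three_points hpd (by linarith [hr.2]))
      (fun i j => three_points (p := fun i => ψ (p i)) hd (by linarith))
    have hC := isPreconnected_diff (w := w) hρ0 (by linarith)
    have hC2 : IsPreconnected (ψi '' (ball (0 : ℂ) 1 \ closedBall w ρ)) :=
      hC.image _ (h.conti.mono sdiff_subset)
    obtain ⟨v, hv, hv'⟩ := hcross _ hC2 (by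
      rintro _ ⟨x, hx, rfl⟩
      exact h.mapsi hx.1) ⟨u, ⟨ψ u, ⟨h.maps hu, hcon⟩, h.left u hu⟩, hu'⟩
      ⟨p i, ⟨ψ (p i), ⟨h.maps (hpb i), hi2⟩, h.left _ (hpb i)⟩, by
        simpa [mem_closedBall] using hi1⟩
    obtain ⟨x, hx, rfl⟩ := hv
    have := hγ _ (h.mapsi hx.1) hv'
    rw [h.right x hx.1] at this
    exact hx.2 this
  have k1 := key z hz (by simpa using hr0)
  have k2 := key z' hz' (by rw [dist_comm]; exact hzz'.trans hr.1)
  rw [mem_closedBall] at k1 k2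
  have := dist_triangle_right (ψ z) (ψ z') w
  linarith

end Pool.Agent.H871R2.Sph
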