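import Mathlib
import Pool.Agent.H871R2.Sph.Cara2

set_option autoImplicit false
open Complex Set Filter Metric Topology MeasureTheory
open scoped NNReal ENNReal Real ComplexConjugate

namespace Pool.Agent.H871R2.Sph

theorem Conf.exists_ext {g f ψ ψi : ℂ → ℂ} (h : Conf g f ψ ψi) :
    ∃ Ψ : ℂ → ℂ, ContinuousOn Ψ (closedBall 0 1) ∧ EqOn Ψ ψ (ball 0 1) := by
  have hcl : closure (ball (0 : ℂ) 1) = closedBall 0 1 := closure_ball _ one_ne_zero
  have hlim : ∀ x ∈ closedBall (0 : ℂ) 1, ∃ y, Tendsto ψ (𝓝[ball 0 1] x) (𝓝 y) := by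
    intro x hx
    rw [← hcl] at hx
    have h1 : (𝓝[ball (0 : ℂ) 1] x).NeBot := mem_closure_iff_nhdsWithin_neBot.1 hx
    have h2 : Cauchy (𝓝[ball (0 : ℂ) 1] x) := cauchy_nhds.mono inf_le_left
    have h3 : Cauchy (map ψ (𝓝[ball (0 : ℂ) 1] x)) :=
      h2.map_of_le h.uniformContinuousOn inf_le_right
    obtain ⟨y, hy⟩ := cauchy_iff_exists_le_nhds.1 h3
    exact ⟨y, hy⟩
  refine ⟨extendFrom (ball 0 1) ψ, continuousOn_extendFrom hcl.ge hlim, ?_⟩
  exact extendFrom_extends h.cont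

theorem Conf.injOn_sphere_aux {g f ψ ψi : ℂ → ℂ} (h : Conf g f ψ ψi) {Ψ : ℂ → ℂ}
    (hc : ContinuousOn Ψ (closedBall 0 1)) (he : EqOn Ψ ψ (ball 0 1)) {c ζ y : ℂ} (hcn : ‖c‖ = 1)
    (hζ : ‖ζ‖ = 1) (hy : ‖y‖ = 1) (h1 : Ψ (c * ζ) = y) (h2 : Ψ (c * conj ζ) = y) {s : ℝ}
    (hs1 : -ζ.im < s) (hs2 : s < ζ.im) :
    Ψ (c * ((√(1 - s ^ 2) : ℝ) + s * I)) = y ∨ Ψ (c * (-(√(1 - s ^ 2) : ℝ) + s * I)) = y := by
  by_contra hcon
  push Not at hcon
  obtain ⟨hn1, hn2⟩ := hcon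
  have hc0 : c ≠ 0 := by
    intro h0; rw [h0, norm_zero] at hcn; exact zero_ne_one hcn
  have hcm : ∀ z : ℂ, ‖c * z‖ = ‖z‖ := fun z => by rw [norm_mul, hcn, one_mul]
  set K : Set ℂ := {z | z.im = s} ∩ closedBall 0 1 with hK
  have hKc : IsCompact K := by
    apply (isCompact_closedBall (0 : ℂ) 1).inter_left
    exact isClosed_eq Complex.continuous_im continuous_const
  have hpos : ∀ z ∈ K, 0 < dist (Ψ (c * z)) y := by
    rintro z ⟨hz1, hz2⟩
    rw [dist_pos]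
    intro hcon
    rw [mem_closedBall, dist_zero_right] at hz2
    rcases hz2.lt_or_eq with hz3 | hz3
    · have h3 : c * z ∈ ball (0 : ℂ) 1 := by rw [mem_ball, dist_zero_right, hcm]; exact hz3
      have h4 := h.maps h3
      rw [← he h3, hcon, mem_ball, dist_zero_right, hy] at h4
      exact lt_irrefl _ h4
    · have h3 : z.re ^ 2 = 1 - s ^ 2 := by
        have h4 : z.re * z.re + z.im * z.im = 1 := by
          rw [← Complex.normSq_apply, Complex.normSq_eq_norm_sq, hz3, one_pow]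
        have h5 : z.im = s := hz1
        rw [h5] at h4
        linarith
      have h4 : √(1 - s ^ 2) = |z.re| := by rw [← h3, Real.sqrt_sq_eq_abs]
      have h5 : z = z.re + s * I := by
        have h6 : z.im = s := hz1
        rw [← h6]
        exact (Complex.re_add_im z).symm
      rcases abs_choice z.re with h6 | h6
      · apply hn1
        rw [h4, h6, ← h5]
        exact hcon
      · apply hn2
        rw [h4, h6]
        push_cast
        rw [neg_neg, ← h5]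
        exact hcon
  have hcont : ContinuousOn (fun z => dist (Ψ (c * z)) y) K := by
    have hcc : ContinuousOn (fun z => Ψ (c * z)) K := by
      apply hc.comp (by fun_prop)
      intro z hz
      have := hz.2
      rw [mem_closedBall, dist_zero_right] at this ⊢
      rwa [hcm]
    exact (continuous_id.dist continuous_const).comp_continuousOn hcc
  obtain ⟨κ, hκ0, hκ⟩ := hKc.exists_forall_le' hcont hpos
  have hnear : ∀ w : ℂ, ‖w‖ = 1 → Ψ (c * w) = y → ∃ δ > 0, ∀ x ∈ closedBall (0 : ℂ) 1,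
      dist x (c * w) < δ → dist (Ψ x) y < κ := by
    intro w hw hwy
    have h3 : c * w ∈ closedBall (0 : ℂ) 1 := by
      rw [mem_closedBall, dist_zero_right, hcm, hw]
    have := Metric.continuousWithinAt_iff.1 (hc _ h3) κ hκ0
    obtain ⟨δ, hδ, h4⟩ := this
    refine ⟨δ, hδ, fun x hx hxd => ?_⟩
    rw [← hwy]
    exact h4 hx hxd
  obtain ⟨δ1, hδ1, hk1⟩ := hnear ζ hζ h1
  obtain ⟨δ2, hδ2, hk2⟩ := hnear (conj ζ) (by rw [RCLike.norm_conj, hζ]) h2
  have hgap1 : 0 < ζ.im - s := by linarith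
  have hgap2 : 0 < ζ.im + s := by linarith
  set ε : ℝ := min (min δ1 δ2) (min (min (ζ.im - s) (ζ.im + s)) 1) / 2 with hε
  have hε0 : 0 < ε := by positivity
  have hm1 := min_le_left (min δ1 δ2) (min (min (ζ.im - s) (ζ.im + s)) 1)
  have hm2 := min_le_right (min δ1 δ2) (min (min (ζ.im - s) (ζ.im + s)) 1)
  have e1 : ε < δ1 := by have := min_le_left δ1 δ2; linarith
  have e2 : ε < δ2 := by have := min_le_right δ1 δ2; linarith
  have e3 : ε < ζ.im - s := by
    have a1 := min_le_left (min (ζ.im - s) (ζ.im + s)) 1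
    have a2 := min_le_left (ζ.im - s) (ζ.im + s)
    linarith
  have e4 : ε < ζ.im + s := by
    have a1 := min_le_left (min (ζ.im - s) (ζ.im + s)) 1
    have a2 := min_le_right (ζ.im - s) (ζ.im + s)
    linarith
  have e5 : ε < 1 := by
    have a1 := min_le_right (min (ζ.im - s) (ζ.im + s)) 1
    linarith
  have him1 : ζ.im ≤ 1 := by
    have := Complex.abs_im_le_norm ζ
    rw [hζ] at this
    exact (le_abs_self _).trans this
  have hunit : ∀ w : ℂ, ‖w‖ = 1 → c * ((1 - ε : ℝ) * w) ∈ ball (0 : ℂ) 1 ∧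
      dist (c * ((1 - ε : ℝ) * w)) (c * w) = ε := by
    intro w hw
    constructor
    · rw [mem_ball, dist_zero_right, hcm, norm_mul, hw, mul_one, Complex.norm_real,
        Real.norm_of_nonneg (by linarith)]
      linarith
    · rw [dist_eq_norm, ← mul_sub, hcm]
      have : ((1 - ε : ℝ) : ℂ) * w - w = ((-ε : ℝ) : ℂ) * w := by push_cast; ring
      rw [this, norm_mul, hw, mul_one, Complex.norm_real, norm_neg, Real.norm_of_nonneg hε0.le]
  obtain ⟨b1, d1⟩ := hunit ζ hζ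
  obtain ⟨b2, d2⟩ := hunit (conj ζ) (by rw [RCLike.norm_conj, hζ])
  have y1 := hk1 _ (ball_subset_closedBall b1) (by rw [d1]; exact e1)
  have y2 := hk2 _ (ball_subset_closedBall b2) (by rw [d2]; exact e2)
  rw [he b1] at y1
  rw [he b2] at y2
  set x1 : ℂ := c * ((1 - ε : ℝ) * ζ) with hx1
  set x2 : ℂ := c * ((1 - ε : ℝ) * conj ζ) with hx2
  have hseg : segment ℝ (ψ x1) (ψ x2) ⊆ ball y κ ∩ ball 0 1 :=
    ((convex_ball y κ).inter (convex_ball 0 1)).segment_subset ⟨y1, h.maps b1⟩ ⟨y2, h.maps b2⟩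
  have hS : IsPreconnected (ψi '' segment ℝ (ψ x1) (ψ x2)) :=
    (convex_segment _ _).isPreconnected.image _ (h.conti.mono (fun x hx => (hseg hx).2))
  have hcx1 : (c⁻¹ * x1).im = (1 - ε) * ζ.im := by
    rw [hx1, inv_mul_cancel_left₀ hc0, im_ofReal_mul]
  have hcx2 : (c⁻¹ * x2).im = -((1 - ε) * ζ.im) := by
    rw [hx2, inv_mul_cancel_left₀ hc0, im_ofReal_mul, conj_im]
    ring
  have hiv := hS.intermediate_value (a := x2) (b := x1)
    ⟨ψ x2, right_mem_segment _ _ _, h.left _ b2⟩ ⟨ψ x1, left_mem_segment _ _ _, h.left _ b1⟩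
    (f := fun u => (c⁻¹ * u).im) (by fun_prop)
  have hmul : (1 - ε) * ζ.im ≥ ζ.im - ε := by nlinarith
  obtain ⟨u, ⟨x, hx, rfl⟩, hu⟩ := hiv (show s ∈ Icc _ _ from ⟨by simp only [hcx2]; linarith, by
    simp only [hcx1]; linarith⟩)
  have hub : ψi x ∈ ball (0 : ℂ) 1 := h.mapsi (hseg hx).2
  have hz : c⁻¹ * ψi x ∈ K := by
    refine ⟨hu, ?_⟩
    rw [mem_closedBall, dist_zero_right, norm_mul, norm_inv, hcn, inv_one, one_mul]
    rw [mem_ball, dist_zero_right] at hub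
    exact hub.le
  have hfin := hκ _ hz
  simp only [mul_inv_cancel_left₀ hc0] at hfin
  rw [he hub, h.right _ (hseg hx).2] at hfin
  have := (hseg hx).1
  rw [mem_ball] at this
  linarith

theorem Conf.norm_bdry {g f ψ ψi : ℂ → ℂ} (h : Conf g f ψ ψi) {Ψ : ℂ → ℂ}
    (hc : ContinuousOn Ψ (closedBall 0 1)) (he : EqOn Ψ ψ (ball 0 1)) {z : ℂ} (hz : ‖z‖ = 1) :
    ‖Ψ z‖ = 1 := by
  have hcl : closure (ball (0 : ℂ) 1) = closedBall 0 1 := closure_ball _ one_ne_zero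
  have hzc : z ∈ closedBall (0 : ℂ) 1 := by rw [mem_closedBall, dist_zero_right, hz]
  have hne : (𝓝[ball (0 : ℂ) 1] z).NeBot := by
    rw [← mem_closure_iff_nhdsWithin_neBot, hcl]; exact hzc
  have ht : Tendsto ψ (𝓝[ball 0 1] z) (𝓝 (Ψ z)) := by
    have h1 : Tendsto Ψ (𝓝[ball 0 1] z) (𝓝 (Ψ z)) := ((hc z hzc).mono ball_subset_closedBall).tendsto
    refine h1.congr' ?_
    filter_upwards [self_mem_nhdsWithin] with x hx
    exact he hx
  have hle : ‖Ψ z‖ ≤ 1 := by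
    have h1 : Ψ z ∈ closedBall (0 : ℂ) 1 := by
      apply isClosed_closedBall.mem_of_tendsto ht
      filter_upwards [self_mem_nhdsWithin] with x hx
      exact ball_subset_closedBall (h.maps hx)
    simpa using h1
  rcases hle.lt_or_eq with hlt | heq
  · exfalso
    have hb : Ψ z ∈ ball (0 : ℂ) 1 := by simpa using hlt
    have h1 : Tendsto ψi (𝓝 (Ψ z)) (𝓝 (ψi (Ψ z))) :=
      (h.conti.continuousAt (isOpen_ball.mem_nhds hb)).tendsto
    have h2 : Tendsto (fun x => ψi (ψ x)) (𝓝[ball 0 1] z) (𝓝 (ψi (Ψ z))) := h1.comp ht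
    have h3 : Tendsto (fun x : ℂ => x) (𝓝[ball 0 1] z) (𝓝 z) := tendsto_id.mono_left inf_le_left
    have h4 : Tendsto (fun x : ℂ => x) (𝓝[ball 0 1] z) (𝓝 (ψi (Ψ z))) := by
      refine h2.congr' ?_
      filter_upwards [self_mem_nhdsWithin] with x hx
      exact h.left x hx
    have h5 := tendsto_nhds_unique h3 h4
    have h6 := h.mapsi hb
    rw [← h5, mem_ball, dist_zero_right, hz] at h6
    exact lt_irrefl _ h6
  · exact heq

theorem Conf.no_arc {g f ψ ψi : ℂ → ℂ} (h : Conf g f ψ ψi) {Ψ : ℂ → ℂ}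
    (hc : ContinuousOn Ψ (closedBall 0 1)) (he : EqOn Ψ ψ (ball 0 1)) {c y ξ : ℂ} (hcn : ‖c‖ = 1)
    (hmaps : MapsTo Ψ (closedBall 0 1) (closedBall 0 1))
    {O : Set ℂ} (hO : IsOpen O) (hξ : ξ ∈ O) (hξ1 : ‖ξ‖ = 1)
    (hconst : ∀ z ∈ O, ‖z‖ = 1 → Ψ (c * z) = y) : False := by
  have hc0 : c ≠ 0 := by
    intro h0; rw [h0, norm_zero] at hcn; exact zero_ne_one hcn
  have hcm : ∀ z : ℂ, ‖c * z‖ = ‖z‖ := fun z => by rw [norm_mul, hcn, one_mul]
  have hcb : ∀ z ∈ ball (0 : ℂ) 1, c * z ∈ ball (0 : ℂ) 1 := by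
    intro z hz
    rw [mem_ball, dist_zero_right] at hz ⊢
    rwa [hcm]
  have hcb' : ∀ z ∈ closedBall (0 : ℂ) 1, c * z ∈ closedBall (0 : ℂ) 1 := by
    intro z hz
    rw [mem_closedBall, dist_zero_right] at hz ⊢
    rwa [hcm]
  have heq : ∀ z ∈ ball (0 : ℂ) 1, g (Ψ (c * z)) = f (c * z) := by
    intro z hz
    rw [he (hcb z hz), h.eq _ (hcb z hz)]
  apply no_const_arc (F := fun z => g (Ψ (c * z))) (O := O) (ξ := ξ) (c := g y) _ _ _ hO hξ hξ1
  · intro z hz hz1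
    rw [hconst z hz hz1]
  · apply h.emb.cont.comp
    · exact hc.comp (by fun_prop) hcb'
    · intro z hz
      exact hmaps (hcb' z hz)
  · have : DifferentiableOn ℂ (fun z => f (c * z)) (ball 0 1) := h.diff.comp (by fun_prop) hcb
    exact this.congr heq
  · intro z hz w hw hzw
    simp only at hzw
    rw [heq z hz, heq w hw] at hzw
    exact mul_left_cancel₀ hc0 (h.inj (hcb z hz) (hcb w hw) hzw)

theorem Conf.injOn_sphere {g f ψ ψi : ℂ → ℂ} (h : Conf g f ψ ψi) {Ψ : ℂ → ℂ}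
    (hc : ContinuousOn Ψ (closedBall 0 1)) (he : EqOn Ψ ψ (ball 0 1))
    (hmaps : MapsTo Ψ (closedBall 0 1) (closedBall 0 1)) {ζ₁ ζ₂ : ℂ}
    (h1 : ‖ζ₁‖ = 1) (h2 : ‖ζ₂‖ = 1) (h12 : Ψ ζ₁ = Ψ ζ₂) : ζ₁ = ζ₂ := by
  by_contra hne
  have hz1 : ζ₁ ≠ 0 := by intro h0; rw [h0, norm_zero] at h1; exact zero_ne_one h1
  -- the middle direction
  obtain ⟨c, hcn, hc1, hc2, hpos⟩ : ∃ c : ℂ, ‖c‖ = 1 ∧ c * (c⁻¹ * ζ₁) = ζ₁ ∧
      c * conj (c⁻¹ * ζ₁) = ζ₂ ∧ 0 < (c⁻¹ * ζ₁).im := by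
    obtain ⟨c, hc⟩ := IsAlgClosed.exists_pow_nat_eq (ζ₁ * ζ₂) (n := 2) (by norm_num)
    have hcn : ‖c‖ = 1 := by
      have h3 : ‖c‖ ^ 2 = 1 := by rw [← norm_pow, hc, norm_mul, h1, h2, one_mul]
      exact (pow_eq_one_iff_of_nonneg (norm_nonneg _) two_ne_zero).1 h3
    have hc0 : c ≠ 0 := by
      intro h0; rw [h0, norm_zero] at hcn; exact zero_ne_one hcn
    have hconj : ∀ z : ℂ, ‖z‖ = 1 → conj z = z⁻¹ := by
      intro z hz
      rw [Complex.inv_def, Complex.normSq_eq_norm_sq, hz]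
      simp
    have hun : ‖c⁻¹ * ζ₁‖ = 1 := by rw [norm_mul, norm_inv, hcn, h1]; simp
    have hcj : c * conj (c⁻¹ * ζ₁) = ζ₂ := by
      rw [hconj _ hun]
      field_simp
      linear_combination hc
    have hne0 : (c⁻¹ * ζ₁).im ≠ 0 := by
      intro h0
      apply hne
      have h3 : conj (c⁻¹ * ζ₁) = c⁻¹ * ζ₁ := Complex.conj_eq_iff_im.2 h0
      rw [h3, mul_inv_cancel_left₀ hc0] at hcj
      exact hcj
    rcases lt_or_gt_of_ne hne0 with h3 | h3
    · refine ⟨-c, by rw [norm_neg, hcn], ?_, ?_, ?_⟩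
      · rw [inv_neg, neg_mul, neg_mul, mul_neg, neg_neg, mul_inv_cancel_left₀ hc0]
      · rw [inv_neg, neg_mul, neg_mul, map_neg, mul_neg, neg_neg, hcj]
      · rw [inv_neg, neg_mul, neg_im]
        linarith
    · exact ⟨c, hcn, mul_inv_cancel_left₀ hc0 _, hcj, h3⟩
  set ζ : ℂ := c⁻¹ * ζ₁ with hζ
  set y : ℂ := Ψ ζ₁ with hy
  have hc0 : c ≠ 0 := by
    intro h0; rw [h0, norm_zero] at hcn; exact zero_ne_one hcn
  have hζn : ‖ζ‖ = 1 := by rw [hζ, norm_mul, norm_inv, hcn, h1]; simp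
  have hyn : ‖y‖ = 1 := h.norm_bdry hc he h1
  have hor : ∀ s : ℝ, -ζ.im < s → s < ζ.im →
      Ψ (c * ((√(1 - s ^ 2) : ℝ) + s * I)) = y ∨ Ψ (c * (-(√(1 - s ^ 2) : ℝ) + s * I)) = y :=
    fun s hs1 hs2 => h.injOn_sphere_aux hc he hcn hζn hyn (by rw [hc1]) (by rw [hc2, ← h12]) hs1 hs2
  have him1 : ζ.im ≤ 1 := by
    have := Complex.abs_im_le_norm ζ
    rw [hζn] at this
    exact (le_abs_self _).trans this
  have hcirc : ∀ z : ℂ, ‖z‖ = 1 → √(1 - z.im ^ 2) = |z.re| := by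
    intro z hz
    have h4 : z.re * z.re + z.im * z.im = 1 := by
      rw [← Complex.normSq_apply, Complex.normSq_eq_norm_sq, hz, one_pow]
    have h3 : z.re ^ 2 = 1 - z.im ^ 2 := by linarith
    rw [← h3, Real.sqrt_sq_eq_abs]
  by_cases hall : ∀ s : ℝ, -ζ.im < s → s < ζ.im → Ψ (c * ((√(1 - s ^ 2) : ℝ) + s * I)) = y
  · apply h.no_arc hc he hcn hmaps (y := y) (ξ := 1)
      (O := {z : ℂ | -ζ.im < z.im ∧ z.im < ζ.im ∧ 0 < z.re})
    · apply IsOpen.inter
      · exact isOpen_lt continuous_const Complex.continuous_im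
      · exact (isOpen_lt Complex.continuous_im continuous_const).inter
          (isOpen_lt continuous_const Complex.continuous_re)
    · simp [hpos]
    · simp
    · rintro z ⟨hz1, hz2, hz3⟩ hz
      have h3 := hall z.im hz1 hz2
      rw [hcirc z hz, abs_of_pos hz3, Complex.re_add_im] at h3
      exact h3
  · push Not at hall
    obtain ⟨s, hs1, hs2, hs3⟩ := hall
    -- a neighbourhood on which the first alternative fails
    have hp : ContinuousOn (fun t : ℝ => Ψ (c * ((√(1 - t ^ 2) : ℝ) + t * I))) (Ioo (-ζ.im) ζ.im) := by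
      apply hc.comp
      · apply Continuous.continuousOn
        fun_prop
      · intro t ht
        rw [mem_closedBall, dist_zero_right, norm_mul, hcn, one_mul]
        apply le_of_eq
        have h3 : 0 ≤ 1 - t ^ 2 := by nlinarith [ht.1, ht.2]
        rw [← sq_eq_sq₀ (norm_nonneg _) zero_le_one, ← Complex.normSq_eq_norm_sq,
          Complex.normSq_add_mul_I, Real.sq_sqrt h3]
        ring
    have hnear : ∀ᶠ t in 𝓝 s, Ψ (c * ((√(1 - t ^ 2) : ℝ) + t * I)) ≠ y := by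
      have h3 : ContinuousAt (fun t : ℝ => Ψ (c * ((√(1 - t ^ 2) : ℝ) + t * I))) s :=
        hp.continuousAt (Ioo_mem_nhds hs1 hs2)
      exact h3.eventually_ne hs3
    obtain ⟨δ, hδ, hball⟩ := Metric.eventually_nhds_iff_ball.1
      (hnear.and (Ioo_mem_nhds hs1 hs2))
    have hs4 : 0 < 1 - s ^ 2 := by nlinarith
    apply h.no_arc hc he hcn hmaps (y := y) (ξ := -(√(1 - s ^ 2) : ℝ) + s * I)
      (O := {z : ℂ | z.im ∈ ball s δ ∧ z.re < 0})
    · apply IsOpen.inter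
      · exact isOpen_ball.preimage Complex.continuous_im
      · exact isOpen_lt Complex.continuous_re continuous_const
    · have e1 : (-(√(1 - s ^ 2) : ℝ) + s * I : ℂ).im = s := by simp
      have e2 : (-(√(1 - s ^ 2) : ℝ) + s * I : ℂ).re = -√(1 - s ^ 2) := by simp
      refine ⟨?_, ?_⟩
      · rw [e1]; exact mem_ball_self hδ
      · rw [e2]
        have := Real.sqrt_pos.2 hs4
        linarith
    · have e3 : (-(√(1 - s ^ 2) : ℝ) + s * I : ℂ) = ((-√(1 - s ^ 2) : ℝ) : ℂ) + s * I := by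
        push_cast; ring
      rw [e3, ← sq_eq_sq₀ (norm_nonneg _) zero_le_one, ← Complex.normSq_eq_norm_sq,
        Complex.normSq_add_mul_I, neg_sq, Real.sq_sqrt hs4.le]
      ring
    · rintro z ⟨hz1, hz2⟩ hz
      obtain ⟨h3, h4⟩ := hball z.im hz1
      have h5 := (hor z.im h4.1 h4.2).resolve_left h3
      rw [hcirc z hz, abs_of_neg hz2] at h5
      push_cast at h5
      rw [neg_neg, Complex.re_add_im] at h5
      exact h5

/-- Carathéodory's theorem, in the coordinates given by an embedding of the closed disc -/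
theorem Emb.caratheodory {g : ℂ → ℂ} (hg : Emb g) : ∃ f Ψ : ℂ → ℂ,
    DifferentiableOn ℂ f (ball 0 1) ∧ deriv f 0 ≠ 0 ∧ f 0 = 0 ∧
    ContinuousOn Ψ (closedBall 0 1) ∧ BijOn Ψ (closedBall 0 1) (closedBall 0 1) ∧
    (∀ z ∈ ball (0 : ℂ) 1, Ψ z ∈ ball (0 : ℂ) 1) ∧ (∀ z, ‖z‖ = 1 → ‖Ψ z‖ = 1) ∧ Ψ 0 = 0 ∧
    ∀ z ∈ ball (0 : ℂ) 1, g (Ψ z) = f z := by
  obtain ⟨f, ψ, ψi, h⟩ := hg.exists_conf
  obtain ⟨Ψ, hc, he⟩ := h.exists_ext
  have hcl : closure (ball (0 : ℂ) 1) = closedBall 0 1 := closure_ball _ one_ne_zero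
  have hbd : ∀ z, ‖z‖ = 1 → ‖Ψ z‖ = 1 := fun z hz => h.norm_bdry hc he hz
  have hb : ∀ z ∈ ball (0 : ℂ) 1, Ψ z ∈ ball (0 : ℂ) 1 := by
    intro z hz
    rw [he hz]; exact h.maps hz
  have hmaps : MapsTo Ψ (closedBall 0 1) (closedBall 0 1) := by
    intro z hz
    rw [mem_closedBall, dist_zero_right] at hz
    rcases hz.lt_or_eq with h1 | h1
    · exact ball_subset_closedBall (hb z (by simpa using h1))
    · rw [mem_closedBall, dist_zero_right, hbd z h1]
  refine ⟨f, Ψ, h.diff, h.deriv, h.zero, hc, ⟨hmaps, ?_, ?_⟩, hb, hbd, ?_, ?_⟩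
  · intro z hz w hw hzw
    rw [mem_closedBall, dist_zero_right] at hz hw
    rcases hz.lt_or_eq with h1 | h1
    · have hz' : z ∈ ball (0 : ℂ) 1 := by simpa using h1
      rcases hw.lt_or_eq with h2 | h2
      · have hw' : w ∈ ball (0 : ℂ) 1 := by simpa using h2
        rw [he hz', he hw'] at hzw
        rw [← h.left z hz', ← h.left w hw', hzw]
      · exfalso
        have h3 := hb z hz'
        rw [hzw, mem_ball, dist_zero_right, hbd w h2] at h3
        exact lt_irrefl _ h3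
    · rcases hw.lt_or_eq with h2 | h2
      · exfalso
        have h3 := hb w (by simpa using h2)
        rw [← hzw, mem_ball, dist_zero_right, hbd z h1] at h3
        exact lt_irrefl _ h3
      · exact h.injOn_sphere hc he hmaps h1 h2 hzw
  · have h1 : IsClosed (Ψ '' closedBall 0 1) :=
      ((isCompact_closedBall (0 : ℂ) 1).image_of_continuousOn hc).isClosed
    have h2 : ball (0 : ℂ) 1 ⊆ Ψ '' closedBall 0 1 := by
      intro w hw
      exact ⟨ψi w, ball_subset_closedBall (h.mapsi hw), by rw [he (h.mapsi hw), h.right w hw]⟩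
    rw [SurjOn, ← hcl]
    exact closure_minimal (by rw [hcl]; exact h2) (by rw [hcl]; exact h1)
  · have h0 : (0 : ℂ) ∈ ball (0 : ℂ) 1 := mem_ball_self one_pos
    have h1 := h.eq 0 h0
    rw [he h0]
    exact hg.inj (ball_subset_closedBall (h.maps h0)) (ball_subset_closedBall h0)
      (h1.trans (h.zero.trans hg.zero.symm))
  · intro z hz
    rw [he hz, h.eq z hz]

end Pool.Agent.H871R2.Sph
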