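import Mathlib

set_option autoImplicit false
open Complex Set Filter Metric Topology
open scoped NNReal

namespace Pool.Agent.H871R2.Sph

/-- identity plus a contraction is a homeomorphism -/
theorem exists_perturb (e : ℂ → ℂ) (K : ℝ≥0) (hK : K < 1) (he : LipschitzWith K e) :
    ∃ κ : ℂ ≃ₜ ℂ, ∀ z, κ z = z + e z := by
  have h : ApproximatesLinearOn (fun z => z + e z)
      ((ContinuousLinearEquiv.refl ℂ ℂ : ℂ ≃L[ℂ] ℂ) : ℂ →L[ℂ] ℂ) univ K := by
    intro x _ y _
    have h1 := he.dist_le_mul x y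
    rw [dist_eq_norm, dist_eq_norm] at h1
    have h2 : x + e x - (y + e y) - ((ContinuousLinearEquiv.refl ℂ ℂ : ℂ ≃L[ℂ] ℂ) : ℂ →L[ℂ] ℂ)
        (x - y) = e x - e y := by
      simp
      ring
    rw [h2]
    exact h1
  refine ⟨h.toHomeomorph _ (Or.inr ?_), fun z => rfl⟩
  have : ‖(((ContinuousLinearEquiv.refl ℂ ℂ).symm : ℂ ≃L[ℂ] ℂ) : ℂ →L[ℂ] ℂ)‖₊ = 1 := by
    have h2 : (((ContinuousLinearEquiv.refl ℂ ℂ).symm : ℂ ≃L[ℂ] ℂ) : ℂ →L[ℂ] ℂ) =
        ContinuousLinearMap.id ℂ ℂ := rfl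
    rw [h2]
    exact ContinuousLinearMap.nnnorm_id
  rw [this, inv_one]
  exact hK

/-- the cutoff function -/
noncomputable def cut (δ : ℝ) (z : ℂ) : ℝ := max 0 (min 1 (2 - ‖z‖ / δ))

theorem cut_nonneg (δ : ℝ) (z : ℂ) : 0 ≤ cut δ z := le_max_left _ _

theorem cut_le_one (δ : ℝ) (z : ℂ) : cut δ z ≤ 1 := max_le zero_le_one (min_le_left _ _)

theorem cut_eq_one {δ : ℝ} (hδ : 0 < δ) {z : ℂ} (hz : ‖z‖ ≤ δ) : cut δ z = 1 := by
  have : ‖z‖ / δ ≤ 1 := (div_le_one hδ).2 hz
  rw [cut, min_eq_left (by linarith), max_eq_right zero_le_one]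

theorem cut_eq_zero {δ : ℝ} (hδ : 0 < δ) {z : ℂ} (hz : 2 * δ ≤ ‖z‖) : cut δ z = 0 := by
  have : 2 ≤ ‖z‖ / δ := (le_div_iff₀ hδ).2 hz
  rw [cut, max_eq_left]
  exact (min_le_right _ _).trans (by linarith)

theorem cut_lip {δ : ℝ} (hδ : 0 < δ) (x y : ℂ) : |cut δ x - cut δ y| ≤ δ⁻¹ * ‖x - y‖ := by
  have h1 : |cut δ x - cut δ y| ≤ |(2 - ‖x‖ / δ) - (2 - ‖y‖ / δ)| := by
    unfold cut
    refine (abs_max_sub_max_le_max _ _ _ _).trans ?_
    rw [sub_self, abs_zero]
    refine max_le (abs_nonneg _) ?_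
    refine (abs_min_sub_min_le_max _ _ _ _).trans ?_
    rw [sub_self, abs_zero]
    exact (max_eq_right (abs_nonneg _)).le
  refine h1.trans ?_
  have h2 : (2 - ‖x‖ / δ) - (2 - ‖y‖ / δ) = δ⁻¹ * (‖y‖ - ‖x‖) := by
    field_simp
    ring
  rw [h2, abs_mul, abs_of_pos (inv_pos.2 hδ)]
  gcongr
  rw [← norm_neg (x - y), neg_sub]
  exact abs_norm_sub_norm_le _ _

theorem cut_mul_lip {δ : ℝ} (hδ : 0 < δ) {k : ℝ≥0} {h : ℂ → ℂ} (h0 : h 0 = 0)
    (hk : LipschitzOnWith k h (closedBall 0 (2 * δ))) :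
    LipschitzWith (3 * k) (fun z => (cut δ z : ℂ) * h z) := by
  have hb : ∀ x ∈ closedBall (0 : ℂ) (2 * δ), ‖h x‖ ≤ k * (2 * δ) := by
    intro x hx
    have := hk.dist_le_mul x hx 0 (mem_closedBall_self (by positivity))
    rw [h0, dist_zero_right, dist_zero_right] at this
    refine this.trans ?_
    gcongr
    simpa using hx
  have key : ∀ x ∈ closedBall (0 : ℂ) (2 * δ), ∀ y,
      ‖(cut δ x : ℂ) * h x - (cut δ y : ℂ) * h y‖ ≤ 3 * k * ‖x - y‖ := by
    intro x hx y
    by_cases hy : y ∈ closedBall (0 : ℂ) (2 * δ)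
    · have h1 : (cut δ x : ℂ) * h x - (cut δ y : ℂ) * h y =
          ((cut δ x - cut δ y : ℝ) : ℂ) * h x + (cut δ y : ℂ) * (h x - h y) := by
        push_cast; ring
      rw [h1]
      refine (norm_add_le _ _).trans ?_
      rw [norm_mul, norm_mul, Complex.norm_real, Complex.norm_real, Real.norm_eq_abs,
        Real.norm_eq_abs, abs_of_nonneg (cut_nonneg δ y)]
      have h2 := cut_lip hδ x y
      have h3 := hb x hx
      have h4 := hk.dist_le_mul x hx y hy
      rw [dist_eq_norm, dist_eq_norm] at h4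
      have h5 := cut_le_one δ y
      calc |cut δ x - cut δ y| * ‖h x‖ + cut δ y * ‖h x - h y‖
          ≤ (δ⁻¹ * ‖x - y‖) * (k * (2 * δ)) + 1 * (k * ‖x - y‖) := by
            gcongr
        _ = 3 * k * ‖x - y‖ := by field_simp; ring
    · have hy' : 2 * δ ≤ ‖y‖ := by
        rw [mem_closedBall, dist_zero_right, not_le] at hy
        exact hy.le
      have h1 : (cut δ x : ℂ) * h x - (cut δ y : ℂ) * h y =
          ((cut δ x - cut δ y : ℝ) : ℂ) * h x := by
        rw [cut_eq_zero hδ hy']; push_cast; ring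
      rw [h1, norm_mul, Complex.norm_real, Real.norm_eq_abs]
      have h2 := cut_lip hδ x y
      have h3 := hb x hx
      calc |cut δ x - cut δ y| * ‖h x‖
          ≤ (δ⁻¹ * ‖x - y‖) * (k * (2 * δ)) := by gcongr
        _ = 2 * k * ‖x - y‖ := by field_simp
        _ ≤ 3 * k * ‖x - y‖ := by gcongr; norm_num
  apply LipschitzWith.of_dist_le_mul
  intro x y
  rw [dist_eq_norm, dist_eq_norm]
  push_cast
  by_cases hx : x ∈ closedBall (0 : ℂ) (2 * δ)
  · exact key x hx y
  · by_cases hy : y ∈ closedBall (0 : ℂ) (2 * δ)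
    · rw [norm_sub_rev, norm_sub_rev x]
      exact key y hy x
    · have hx' : 2 * δ ≤ ‖x‖ := by
        rw [mem_closedBall, dist_zero_right, not_le] at hx
        exact hx.le
      have hy' : 2 * δ ≤ ‖y‖ := by
        rw [mem_closedBall, dist_zero_right, not_le] at hy
        exact hy.le
      rw [cut_eq_zero hδ hx', cut_eq_zero hδ hy']
      simp only [Complex.ofReal_zero, zero_mul, sub_self, norm_zero]
      positivity

/-- compactly supported homeomorphisms with a given germ at `0` -/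
def Ext (f : ℂ → ℂ) : Prop :=
  f 0 = 0 ∧ ∃ κ : ℂ ≃ₜ ℂ, (∀ᶠ z in 𝓝 (0 : ℂ), κ z = f z) ∧ ∃ R : ℝ, ∀ z, R ≤ ‖z‖ → κ z = z

theorem Ext.comp {f g : ℂ → ℂ} (hf : Ext f) (hg : Ext g) : Ext (fun z => f (g z)) := by
  obtain ⟨f0, κ, h1, R, hR⟩ := hf
  obtain ⟨g0, κ', h1', R', hR'⟩ := hg
  refine ⟨show f (g 0) = 0 by rw [g0, f0], κ'.trans κ, ?_, max R R', ?_⟩
  · have hc : Tendsto κ' (𝓝 0) (𝓝 0) := by
      have := κ'.continuous.tendsto 0
      rwa [h1'.self_of_nhds, g0] at this
    filter_upwards [hc.eventually h1, h1'] with z hz hz'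
    rw [Homeomorph.trans_apply, hz, hz']
  · intro z hz
    rw [Homeomorph.trans_apply, hR' z ((le_max_right _ _).trans hz),
      hR z ((le_max_left _ _).trans hz)]

theorem Ext.congr {f g : ℂ → ℂ} (hf : Ext f) (h : ∀ᶠ z in 𝓝 (0 : ℂ), f z = g z) : Ext g := by
  obtain ⟨f0, κ, h1, h2⟩ := hf
  refine ⟨by rw [← h.self_of_nhds, f0], κ, ?_, h2⟩
  filter_upwards [h, h1] with z hz hz'
  rw [hz', hz]

theorem Ext.id : Ext (fun z => z) :=
  ⟨rfl, Homeomorph.refl ℂ, Eventually.of_forall fun _ => rfl, 0, fun _ _ => rfl⟩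

/-- germs tangent to the identity -/
theorem Ext.of_strict {f : ℂ → ℂ} (h0 : f 0 = 0) (hf : HasStrictDerivAt f 1 0) : Ext f := by
  refine ⟨h0, ?_⟩
  have h1 : HasStrictDerivAt (fun z => f z - z) 0 0 := by
    have := hf.sub (hasStrictDerivAt_id (0 : ℂ))
    rw [sub_self] at this
    exact this
  obtain ⟨s, hs, hlip⟩ := h1.hasStrictFDerivAt.exists_lipschitzOnWith_of_nnnorm_lt (1 / 6)
    (by simp)
  obtain ⟨r, hr, hrs⟩ := Metric.mem_nhds_iff.1 hs
  set δ : ℝ := r / 4 with hδ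
  have hδ0 : 0 < δ := by positivity
  have hsub : closedBall (0 : ℂ) (2 * δ) ⊆ s := by
    refine (closedBall_subset_ball ?_).trans hrs
    rw [hδ]; linarith
  have h2 := cut_mul_lip hδ0 (h := fun z => f z - z) (by simp [h0]) (hlip.mono hsub)
  obtain ⟨κ, hκ⟩ := exists_perturb _ _ (by
    rw [← NNReal.coe_lt_coe]; push_cast; norm_num) h2
  refine ⟨κ, ?_, 2 * δ, ?_⟩
  · filter_upwards [closedBall_mem_nhds (0 : ℂ) hδ0] with z hz
    rw [mem_closedBall, dist_zero_right] at hz
    rw [hκ, cut_eq_one hδ0 hz]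
    push_cast; ring
  · intro z hz
    rw [hκ, cut_eq_zero hδ0 hz]
    push_cast; ring

theorem Ext.mul_near {c : ℂ} (hc : ‖c - 1‖ < 1 / 3) : Ext (fun z => c * z) := by
  refine ⟨by simp, ?_⟩
  have h1 : LipschitzOnWith ‖c - 1‖₊ (fun z => (c - 1) * z) (closedBall 0 (2 * 1)) := by
    apply LipschitzOnWith.of_dist_le_mul
    intro x _ y _
    rw [dist_eq_norm, dist_eq_norm, ← mul_sub, norm_mul, coe_nnnorm]
  have h2 := cut_mul_lip one_pos (h := fun z => (c - 1) * z) (by simp) h1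
  obtain ⟨κ, hκ⟩ := exists_perturb _ _ (by
    rw [← NNReal.coe_lt_coe]; push_cast; linarith) h2
  refine ⟨κ, ?_, 2 * 1, ?_⟩
  · filter_upwards [closedBall_mem_nhds (0 : ℂ) one_pos] with z hz
    rw [mem_closedBall, dist_zero_right] at hz
    rw [hκ, cut_eq_one one_pos hz]
    push_cast; ring
  · intro z hz
    rw [hκ, cut_eq_zero one_pos hz]
    push_cast; ring

theorem Ext.mul {c : ℂ} (hc : c ≠ 0) : Ext (fun z => c * z) := by
  have h1 : Tendsto (fun n : ℕ => Complex.exp (Complex.log c / n)) atTop (𝓝 1) := by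
    have h2 : Tendsto (fun n : ℕ => Complex.log c / (n : ℂ)) atTop (𝓝 0) :=
      tendsto_const_div_atTop_nhds_zero_nat _
    have := (Complex.continuous_exp.tendsto 0).comp h2
    rwa [Complex.exp_zero] at this
  have h2 : ∀ᶠ n : ℕ in atTop, ‖Complex.exp (Complex.log c / n) - 1‖ < 1 / 3 := by
    have := (Metric.tendsto_nhds.1 h1) (1 / 3) (by norm_num)
    filter_upwards [this] with n hn
    rwa [dist_eq_norm] at hn
  obtain ⟨n, hn, hn0⟩ := (h2.and (eventually_gt_atTop 0)).exists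
  have h3 : ∀ k : ℕ, Ext (fun z => Complex.exp (Complex.log c / n) ^ k * z) := by
    intro k
    induction k with
    | zero => simpa using Ext.id
    | succ k ih =>
      refine (ih.comp (Ext.mul_near hn)).congr (Eventually.of_forall fun z => ?_)
      ring
  refine (h3 n).congr (Eventually.of_forall fun z => ?_)
  rw [← Complex.exp_nat_mul, mul_div_cancel₀ _ (by exact_mod_cast hn0.ne'), Complex.exp_log hc]

/-- conformal germs -/
theorem Ext.of_deriv {f : ℂ → ℂ} {c : ℂ} (h0 : f 0 = 0) (hc : c ≠ 0)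
    (hf : HasStrictDerivAt f c 0) : Ext f := by
  have h1 : Ext (fun z => c⁻¹ * f z) := by
    apply Ext.of_strict
    · simp [h0]
    · have := hf.const_mul c⁻¹
      rwa [inv_mul_cancel₀ hc] at this
  refine ((Ext.mul hc).comp h1).congr (Eventually.of_forall fun z => ?_)
  field_simp

/-- a continuous proper bijection of the plane is a homeomorphism -/
theorem homeo_of_proper (F : ℂ → ℂ) (hc : Continuous F) (hb : Function.Bijective F)
    (hp : Tendsto F (cocompact ℂ) (cocompact ℂ)) : ∃ κ : ℂ ≃ₜ ℂ, ∀ z, κ z = F z := by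
  have h1 : IsProperMap F := isProperMap_iff_tendsto_cocompact.2 ⟨hc, hp⟩
  exact ⟨(Equiv.ofBijective F hb).toHomeomorphOfContinuousClosed hc h1.isClosedMap, fun z => rfl⟩

/-- radial homeomorphisms -/
theorem exists_radial (μ : ℝ → ℝ) (hμ : Continuous μ) (hpos : ∀ s, 0 ≤ s → 0 < μ s)
    (hmono : StrictMonoOn (fun s => μ s * s) (Ici 0))
    (htop : Tendsto (fun s => μ s * s) atTop atTop) :
    ∃ κ : ℂ ≃ₜ ℂ, ∀ z, κ z = (μ ‖z‖ : ℂ) * z := by
  have hn : ∀ z : ℂ, ‖(μ ‖z‖ : ℂ) * z‖ = μ ‖z‖ * ‖z‖ := by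
    intro z
    rw [norm_mul, Complex.norm_real, Real.norm_of_nonneg (hpos _ (norm_nonneg _)).le]
  apply homeo_of_proper
  · exact (Complex.continuous_ofReal.comp (hμ.comp continuous_norm)).mul continuous_id
  · constructor
    · intro z w h
      have h1 : μ ‖z‖ * ‖z‖ = μ ‖w‖ * ‖w‖ := by
        rw [← hn, ← hn]
        exact congrArg norm h
      have h2 : ‖z‖ = ‖w‖ := hmono.injOn (norm_nonneg z) (norm_nonneg w) h1
      simp only [h2] at h
      have h3 : (μ ‖w‖ : ℂ) ≠ 0 := by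
        exact_mod_cast (hpos _ (norm_nonneg w)).ne'
      exact mul_left_cancel₀ h3 h
    · intro w
      have h0 : (0 : ℝ) ≤ ‖w‖ := norm_nonneg w
      obtain ⟨N, hN⟩ := ((htop.eventually_ge_atTop ‖w‖).and (eventually_ge_atTop 0)).exists
      have hcont : ContinuousOn (fun s => μ s * s) (Icc 0 N) := (hμ.mul continuous_id).continuousOn
      obtain ⟨s, hs, hs2⟩ := intermediate_value_Icc hN.2 hcont (show ‖w‖ ∈ Icc (μ 0 * 0) (μ N * N)
        from ⟨by simpa using h0, hN.1⟩)
      have hs3 : (μ s : ℂ) ≠ 0 := by exact_mod_cast (hpos _ hs.1).ne'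
      refine ⟨w / (μ s : ℂ), ?_⟩
      have h4 : ‖w / (μ s : ℂ)‖ = s := by
        rw [norm_div, Complex.norm_real, Real.norm_of_nonneg (hpos _ hs.1).le, ← hs2]
        simp only
        rw [mul_div_assoc, mul_comm, div_mul_cancel₀ _ (hpos _ hs.1).ne']
      show (μ ‖w / (μ s : ℂ)‖ : ℂ) * (w / (μ s : ℂ)) = w
      rw [h4]
      field_simp
  · rw [← Metric.cobounded_eq_cocompact, ← comap_norm_atTop, tendsto_comap_iff]
    have : (norm ∘ fun z : ℂ => (μ ‖z‖ : ℂ) * z) = (fun s => μ s * s) ∘ norm := by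
      funext z
      exact hn z
    rw [this]
    exact htop.comp tendsto_comap

/-- squeezing a large ball in a small one, fixing a neighbourhood of `0` -/
theorem exists_squeeze {r R : ℝ} (hr : 0 < r) (hR : r < R) :
    ∃ ρ : ℂ ≃ₜ ℂ, (∀ z, ‖z‖ ≤ r / 2 → ρ z = z) ∧ ∀ z, ‖z‖ < R → ‖ρ z‖ < r := by
  set a : ℝ := r / 2 with ha
  have ha0 : 0 < a := by positivity
  have haR : 0 < R - a := by rw [ha]; linarith
  set l : ℝ := a / (R - a) with hl
  have hl0 : 0 < l := by positivity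
  have hl1 : l < 1 := by
    rw [hl, div_lt_one haR, ha]; linarith
  have hform : ∀ s : ℝ, 0 ≤ s → (l + (1 - l) * a / max s a) * s = l * s + (1 - l) * min s a := by
    intro s hs
    have h1 : 0 < max s a := lt_max_of_lt_right ha0
    have h2 : min s a * max s a = s * a := min_mul_max s a
    field_simp
    linear_combination (-(1 - l)) * h2
  obtain ⟨κ, hκ⟩ : ∃ κ : ℂ ≃ₜ ℂ, ∀ z, κ z = ((l + (1 - l) * a / max ‖z‖ a : ℝ) : ℂ) * z := by
    apply exists_radial (fun s => l + (1 - l) * a / max s a)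
    · apply continuous_const.add
      apply continuous_const.div (continuous_id.max continuous_const)
      intro s
      exact (lt_max_of_lt_right ha0).ne'
    · intro s _
      have h1 : 0 < max s a := lt_max_of_lt_right ha0
      have : 0 ≤ 1 - l := by linarith
      positivity
    · intro s hs t ht hst
      simp only
      rw [hform s hs, hform t ht]
      have h1 : min s a ≤ min t a := min_le_min_right a hst.le
      have h2 : l * s < l * t := by gcongr
      have h3 : (1 - l) * min s a ≤ (1 - l) * min t a := by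
        apply mul_le_mul_of_nonneg_left h1; linarith
      linarith
    · apply tendsto_atTop_mono' _ _ (tendsto_id.const_mul_atTop hl0)
      filter_upwards [eventually_ge_atTop 0] with s hs
      rw [hform s hs]
      have h3 : 0 ≤ (1 - l) * min s a := mul_nonneg (by linarith) (le_min hs ha0.le)
      simpa using h3
  have hn : ∀ z : ℂ, ‖κ z‖ = l * ‖z‖ + (1 - l) * min ‖z‖ a := by
    intro z
    rw [← hform _ (norm_nonneg z), hκ, norm_mul, Complex.norm_real, Real.norm_of_nonneg]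
    have h1 : 0 < max ‖z‖ a := lt_max_of_lt_right ha0
    have : 0 ≤ 1 - l := by linarith
    positivity
  refine ⟨κ, ?_, ?_⟩
  · intro z hz
    rw [hκ]
    rw [max_eq_right hz, mul_div_assoc, div_self ha0.ne']
    push_cast
    ring
  · intro z hz
    rw [hn]
    have h1 : min ‖z‖ a ≤ a := min_le_right _ _
    have h2 : l * (R - a) = a := by rw [hl]; field_simp
    have h3 : l * ‖z‖ < l * R := by gcongr
    have h4 : (1 - l) * min ‖z‖ a ≤ (1 - l) * a := by
      apply mul_le_mul_of_nonneg_left h1; linarith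
    have : r = 2 * a := by rw [ha]; ring
    rw [this]
    nlinarith

theorem Ext.small {f : ℂ → ℂ} (hf : Ext f) {r : ℝ} (hr : 0 < r) :
    ∃ κ : ℂ ≃ₜ ℂ, (∀ᶠ z in 𝓝 (0 : ℂ), κ z = f z) ∧ ∀ z, r ≤ ‖z‖ → κ z = z := by
  obtain ⟨f0, κ, h1, R, hR⟩ := hf
  obtain ⟨ρ, h2, h3⟩ := exists_squeeze (r := r) (R := max R (r + 1)) hr
    (lt_max_of_lt_right (by linarith))
  refine ⟨(ρ.symm.trans κ).trans ρ, ?_, ?_⟩
  · have hc : Tendsto κ (𝓝 0) (𝓝 0) := by
      have := κ.continuous.tendsto 0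
      rwa [h1.self_of_nhds, f0] at this
    have h4 : ∀ᶠ z in 𝓝 (0 : ℂ), ‖z‖ ≤ r / 2 := by
      filter_upwards [closedBall_mem_nhds (0 : ℂ) (half_pos hr)] with z hz
      simpa using hz
    filter_upwards [h4, hc.eventually h4, h1] with z hz hz' hz''
    have h5 : ρ.symm z = z := by
      rw [Homeomorph.symm_apply_eq, h2 z hz]
    rw [Homeomorph.trans_apply, Homeomorph.trans_apply, h5, h2 _ hz', hz'']
  · intro z hz
    have h5 : max R (r + 1) ≤ ‖ρ.symm z‖ := by
      by_contra hcon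
      push Not at hcon
      have := h3 _ hcon
      rw [Homeomorph.apply_symm_apply] at this
      linarith
    rw [Homeomorph.trans_apply, Homeomorph.trans_apply, hR _ ((le_max_left _ _).trans h5),
      Homeomorph.apply_symm_apply]

/-- radial shrinking of the unit disc with controlled support -/
theorem exists_shrink {ε δ : ℝ} (hε : 0 < ε) (hε1 : ε < 1) (hδ : 0 < δ) :
    ∃ s : ℂ ≃ₜ ℂ, (∀ z, ‖z‖ ≤ 1 → s z = ε * z) ∧ ∀ z, 1 + δ ≤ ‖z‖ → s z = z := by
  set h : ℝ → ℝ := fun s => (1 + δ) / δ * (min (max s 1) (1 + δ) - 1) + max (s - (1 + δ)) 0 with hh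
  have hh0 : ∀ s, s ≤ 1 → h s = 0 := by
    intro s hs
    simp only [hh]
    rw [max_eq_right hs, min_eq_left (by linarith), max_eq_right (by linarith)]
    ring
  have hh1 : ∀ s, 1 + δ ≤ s → h s = s := by
    intro s hs
    simp only [hh]
    rw [max_eq_left (by linarith : (1 : ℝ) ≤ s), min_eq_right hs, max_eq_left (by linarith)]
    field_simp
    ring
  have hhc : Continuous h := by
    simp only [hh]
    fun_prop
  have hhm : Monotone h := by
    intro s t hst
    simp only [hh]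
    have h1 : min (max s 1) (1 + δ) ≤ min (max t 1) (1 + δ) :=
      min_le_min_right _ (max_le_max_right _ hst)
    have h2 : max (s - (1 + δ)) 0 ≤ max (t - (1 + δ)) 0 := max_le_max_right _ (by linarith)
    have h3 : 0 < (1 + δ) / δ := by positivity
    have h4 := mul_le_mul_of_nonneg_left (sub_le_sub_right h1 1) h3.le
    linarith
  have hhn : ∀ s, 0 ≤ h s := by
    intro s
    rcases le_total s 1 with hs | hs
    · rw [hh0 s hs]
    · rw [← hh0 1 le_rfl]; exact hhm hs
  have hform : ∀ s : ℝ, 0 ≤ s → (ε + (1 - ε) * h s / max s 1) * s = ε * s + (1 - ε) * h s := by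
    intro s hs
    rcases le_total s 1 with h1 | h1
    · rw [hh0 s h1]; ring
    · rw [max_eq_left h1]
      have : s ≠ 0 := by positivity
      field_simp
  obtain ⟨κ, hκ⟩ : ∃ κ : ℂ ≃ₜ ℂ, ∀ z, κ z =
      ((ε + (1 - ε) * h ‖z‖ / max ‖z‖ 1 : ℝ) : ℂ) * z := by
    apply exists_radial (fun s => ε + (1 - ε) * h s / max s 1)
    · apply continuous_const.add
      apply (continuous_const.mul hhc).div (continuous_id.max continuous_const)
      intro s
      exact (lt_max_of_lt_right one_pos).ne'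
    · intro s _
      have h1 : 0 < max s 1 := lt_max_of_lt_right one_pos
      have h2 : 0 ≤ 1 - ε := by linarith
      have h3 := hhn s
      positivity
    · intro s hs t ht hst
      simp only
      rw [hform s hs, hform t ht]
      have h2 : ε * s < ε * t := by gcongr
      have h3 : (1 - ε) * h s ≤ (1 - ε) * h t := by
        apply mul_le_mul_of_nonneg_left (hhm hst.le); linarith
      linarith
    · apply tendsto_atTop_mono' _ _ (tendsto_id.const_mul_atTop hε)
      filter_upwards [eventually_ge_atTop 0] with s hs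
      rw [hform s hs]
      have h3 : 0 ≤ (1 - ε) * h s := mul_nonneg (by linarith) (hhn s)
      simpa using h3
  refine ⟨κ, ?_, ?_⟩
  · intro z hz
    rw [hκ]
    rw [hh0 _ hz]
    simp
  · intro z hz
    rw [hκ]
    have h1 : (1 : ℝ) ≤ ‖z‖ := by linarith
    have h2 : ‖z‖ ≠ 0 := by positivity
    rw [hh1 _ hz, max_eq_left h1, mul_div_assoc, div_self h2]
    push_cast
    ring

end Pool.Agent.H871R2.Sph
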