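import Mathlib
import Pool.Agent.H871R2.Sph.Perturb
import Pool.Agent.H871R2.Sph.Cara3

set_option autoImplicit false
open Complex Set Filter Metric Topology
open scoped NNReal ENNReal Real ComplexConjugate

namespace Pool.Agent.H871R2.Sph

/-- radial retraction onto the closed unit disc -/
noncomputable def ret (z : ℂ) : ℂ := ((max 1 ‖z‖)⁻¹ : ℝ) * z

theorem ret_continuous : Continuous ret := by
  unfold ret
  apply Continuous.mul _ continuous_id
  apply Complex.continuous_ofReal.comp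
  apply Continuous.inv₀ (continuous_const.max continuous_norm)
  intro z
  exact (lt_max_of_lt_left one_pos).ne'

theorem ret_norm (z : ℂ) : ‖ret z‖ ≤ 1 := by
  have h : 0 < max 1 ‖z‖ := lt_max_of_lt_left one_pos
  rw [ret, norm_mul, Complex.norm_real, Real.norm_of_nonneg (by positivity), inv_mul_le_one₀ h]
  exact le_max_right _ _

theorem ret_of_le {z : ℂ} (hz : ‖z‖ ≤ 1) : ret z = z := by
  rw [ret, max_eq_left hz]; simp

theorem ret_of_ge {z : ℂ} (hz : 1 ≤ ‖z‖) : ‖ret z‖ = 1 := by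
  have h : ‖z‖ ≠ 0 := by positivity
  rw [ret, max_eq_right hz, norm_mul, Complex.norm_real, Real.norm_of_nonneg (by positivity),
    inv_mul_cancel₀ h]

theorem exists_log {q : ℂ → ℂ} (hq : ContinuousOn q (closedBall 0 1))
    (h0 : ∀ z ∈ closedBall (0 : ℂ) 1, q z ≠ 0) :
    ∃ l : ℂ → ℂ, Continuous l ∧ ∀ z ∈ closedBall (0 : ℂ) 1, exp (l z) = q z := by
  have hr : ∀ z, ret z ∈ closedBall (0 : ℂ) 1 := fun z => by simpa using ret_norm z
  have hU : IsSimplyConnected (univ : Set ℂ) := by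
    have : ContractibleSpace (univ : Set ℂ) := convex_univ.contractibleSpace ⟨0, mem_univ _⟩
    exact SimplyConnectedSpace.ofContractible _
  obtain ⟨l, hl, he⟩ := Complex.exists_continuousOn_eqOn_exp_comp hU isOpen_univ
    (g := fun z => q (ret z)) ((hq.comp_continuous ret_continuous hr).continuousOn)
    (by rintro ⟨z, _, hz⟩; exact h0 _ (hr z) hz)
  refine ⟨l, continuousOn_univ.1 hl, fun z hz => ?_⟩
  have := he (mem_univ z)
  simp only [Function.comp_apply] at this
  rw [this, ret_of_le (by simpa using hz)]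

/-- the cut-off in the radial direction -/
noncomputable def eta (s : ℝ) : ℝ := max 0 (min 1 (2 - s))

theorem eta_continuous : Continuous eta := by unfold eta; fun_prop

theorem eta_nonneg (s : ℝ) : 0 ≤ eta s := le_max_left _ _

theorem eta_le_one (s : ℝ) : eta s ≤ 1 := max_le zero_le_one (min_le_left _ _)

theorem eta_one : eta 1 = 1 := by unfold eta; norm_num

theorem eta_two {s : ℝ} (hs : 2 ≤ s) : eta s = 0 := by
  rw [eta, max_eq_left]
  exact (min_le_right _ _).trans (by linarith)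

/-- extension of a homeomorphism of the closed disc whose boundary map is a twist -/
theorem exists_twist {Ψ : ℂ → ℂ} (hc : ContinuousOn Ψ (closedBall 0 1))
    (hbij : BijOn Ψ (closedBall 0 1) (closedBall 0 1))
    (hb : ∀ z ∈ ball (0 : ℂ) 1, Ψ z ∈ ball (0 : ℂ) 1)
    {δ : ℂ → ℝ} (hδ : ContinuousOn δ (sphere 0 1))
    (hbd : ∀ z, ‖z‖ = 1 → Ψ z = z * exp (δ z * I)) :
    ∃ κ : ℂ ≃ₜ ℂ, (∀ z, ‖z‖ ≤ 1 → κ z = Ψ z) ∧ ∀ z, 2 ≤ ‖z‖ → κ z = z := by
  classical
  have hE : ∀ θ : ℝ, ‖exp (θ * I)‖ = 1 := fun θ => norm_exp_ofReal_mul_I θ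
  have hEs : ∀ θ : ℝ, exp (θ * I) ∈ sphere (0 : ℂ) 1 := fun θ => by simp [hE]
  set D : ℝ → ℝ := fun θ => δ (exp (θ * I)) with hD
  have hDc : Continuous D := hδ.comp_continuous (by fun_prop) hEs
  have hper : ∀ (θ : ℝ) (n : ℤ), exp (((θ + n * (2 * π) : ℝ) : ℂ) * I) = exp (θ * I) := by
    intro θ n
    rw [Complex.exp_eq_exp_iff_exists_int]
    exact ⟨n, by push_cast; ring⟩
  have hDp : ∀ (θ : ℝ) (n : ℤ), D (θ + n * (2 * π)) = D θ := by
    intro θ n
    simp only [hD]
    rw [hper]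
  have hΨ : ∀ θ : ℝ, Ψ (exp (θ * I)) = exp (((θ + D θ : ℝ) : ℂ) * I) := by
    intro θ
    rw [hbd _ (hE θ), ← Complex.exp_add]
    congr 1
    simp only [hD]
    push_cast
    ring
  have hLc : Continuous fun θ => θ + D θ := continuous_id.add hDc
  have hLi : Function.Injective fun θ => θ + D θ := by
    intro θ θ' h
    simp only at h
    have h1 : Ψ (exp (θ * I)) = Ψ (exp (θ' * I)) := by rw [hΨ, hΨ, h]
    have h2 := hbij.injOn (sphere_subset_closedBall (hEs θ)) (sphere_subset_closedBall (hEs θ')) h1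
    have h3 : D θ = D θ' := by simp only [hD]; rw [h2]
    linarith
  have hLm : StrictMono fun θ => θ + D θ := by
    rcases hLc.strictMono_of_inj hLi with h | h
    · exact h
    · exfalso
      have h1 := h (show (0 : ℝ) < 2 * π by positivity)
      simp only at h1
      have h2 := hDp 0 1
      rw [Int.cast_one, one_mul, zero_add] at h2
      rw [h2] at h1
      have := Real.pi_pos
      linarith
  have hLη : ∀ s : ℝ, StrictMono fun θ => θ + eta s * D θ := by
    intro s θ θ' h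
    have h1 := hLm h
    simp only at h1 ⊢
    have h2 := eta_nonneg s
    have h3 := eta_le_one s
    rcases h3.lt_or_eq with h4 | h4
    · nlinarith [mul_pos (sub_pos.2 h4) (sub_pos.2 h), mul_nonneg h2 (sub_pos.2 h1).le]
    · rw [h4]; linarith
  obtain ⟨C, hC⟩ : ∃ C : ℝ, ∀ θ, |D θ| ≤ C := by
    obtain ⟨C, hC⟩ := (isCompact_sphere (0 : ℂ) 1).exists_bound_of_continuousOn hδ
    exact ⟨C, fun θ => hC _ (hEs θ)⟩
  have hLs : ∀ s φ : ℝ, ∃ θ : ℝ, θ + eta s * D θ = φ := by
    intro s φ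
    have h1 : ∀ θ, |eta s * D θ| ≤ C := by
      intro θ
      rw [abs_mul, abs_of_nonneg (eta_nonneg s)]
      have := hC θ
      have h2 := abs_nonneg (D θ)
      nlinarith [eta_le_one s, eta_nonneg s]
    have hC0 : 0 ≤ C := (abs_nonneg _).trans (h1 0)
    have h2 : ContinuousOn (fun θ => θ + eta s * D θ) (Icc (φ - C) (φ + C)) := by
      apply Continuous.continuousOn
      exact continuous_id.add (continuous_const.mul hDc)
    obtain ⟨θ, _, hθ⟩ := intermediate_value_Icc (by linarith) h2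
      (show φ ∈ Icc _ _ from ⟨by have := (abs_le.1 (h1 (φ - C))).2; linarith,
        by have := (abs_le.1 (h1 (φ + C))).1; linarith⟩)
    exact ⟨θ, hθ⟩
  -- the outer formula
  set G : ℂ → ℂ := fun z => z * exp ((eta ‖z‖ * δ (ret z) : ℝ) * I) with hG
  have hGn : ∀ z, ‖G z‖ = ‖z‖ := by
    intro z
    simp only [hG]
    rw [norm_mul, norm_exp_ofReal_mul_I, mul_one]
  have hGc : ContinuousOn G {z | 1 ≤ ‖z‖} := by
    simp only [hG]
    have h1 : ContinuousOn (fun z => δ (ret z)) {z | 1 ≤ ‖z‖} := by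
      apply hδ.comp ret_continuous.continuousOn
      intro z hz
      simpa using ret_of_ge hz
    have h2 : ContinuousOn (fun z : ℂ => eta ‖z‖) {z | 1 ≤ ‖z‖} :=
      (eta_continuous.comp continuous_norm).continuousOn
    have h3 : ContinuousOn (fun z : ℂ => ((eta ‖z‖ * δ (ret z) : ℝ) : ℂ)) {z | 1 ≤ ‖z‖} :=
      Complex.continuous_ofReal.comp_continuousOn (h2.mul h1)
    exact continuousOn_id.mul (Complex.continuous_exp.comp_continuousOn
      (h3.mul continuousOn_const))
  have hG1 : ∀ z, ‖z‖ = 1 → G z = Ψ z := by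
    intro z hz
    simp only [hG]
    rw [hz, eta_one, one_mul, ret_of_le hz.le, hbd z hz]
  have hret : ∀ (r : ℝ) (θ : ℝ), 1 ≤ r → ret (r * exp (θ * I)) = exp (θ * I) ∧
      ‖(r : ℂ) * exp (θ * I)‖ = r := by
    intro r θ hr
    have h1 : ‖(r : ℂ) * exp (θ * I)‖ = r := by
      rw [norm_mul, hE, mul_one, Complex.norm_real, Real.norm_of_nonneg (by linarith)]
    refine ⟨?_, h1⟩
    rw [ret, h1, max_eq_right hr, ← mul_assoc, ← Complex.ofReal_mul,
      inv_mul_cancel₀ (by positivity), Complex.ofReal_one, one_mul]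
  have hGp : ∀ (r : ℝ) (θ : ℝ), 1 ≤ r →
      G (r * exp (θ * I)) = r * exp (((θ + eta r * D θ : ℝ) : ℂ) * I) := by
    intro r θ hr
    obtain ⟨h1, h2⟩ := hret r θ hr
    simp only [hG, hD]
    rw [h1, h2, mul_assoc, ← Complex.exp_add]
    congr 2
    push_cast
    ring
  set Φ : ℂ → ℂ := fun z => if ‖z‖ ≤ 1 then Ψ z else G z with hΦ
  have hΦ1 : ∀ z, ‖z‖ ≤ 1 → Φ z = Ψ z := fun z hz => by simp only [hΦ]; rw [if_pos hz]
  have hΦ2 : ∀ z, 1 ≤ ‖z‖ → Φ z = G z := by
    intro z hz
    rcases hz.lt_or_eq with h | h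
    · simp only [hΦ]; rw [if_neg (not_le.2 h)]
    · rw [hΦ1 z h.symm.le, hG1 z h.symm]
  have hΦc : Continuous Φ := by
    apply continuous_if_le continuous_norm continuous_const
    · apply hc.mono
      intro z hz
      simpa using hz
    · exact hGc
    · intro z hz
      exact (hG1 z hz).symm
  have hΦn1 : ∀ z, ‖z‖ < 1 → ‖Φ z‖ < 1 := by
    intro z hz
    rw [hΦ1 z hz.le]
    simpa using hb z (by simpa using hz)
  have hΦn2 : ∀ z, 1 ≤ ‖z‖ → ‖Φ z‖ = ‖z‖ := by
    intro z hz
    rw [hΦ2 z hz, hGn]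
  suffices hsuff : Function.Bijective Φ ∧ Tendsto Φ (cocompact ℂ) (cocompact ℂ) by
    obtain ⟨κ, hκ⟩ := homeo_of_proper Φ hΦc hsuff.1 hsuff.2
    refine ⟨κ, fun z hz => by rw [hκ, hΦ1 z hz], fun z hz => ?_⟩
    rw [hκ, hΦ2 z (by linarith)]
    simp only [hG]
    rw [eta_two hz]
    simp
  refine ⟨⟨?_, ?_⟩, ?_⟩
  · intro z w hzw
    rcases lt_or_ge ‖z‖ 1 with h1 | h1 <;> rcases lt_or_ge ‖w‖ 1 with h2 | h2
    · rw [hΦ1 z h1.le, hΦ1 w h2.le] at hzw
      exact hbij.injOn (by simpa using h1.le) (by simpa using h2.le) hzw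
    · exfalso
      have h3 := hΦn1 z h1
      rw [hzw, hΦn2 w h2] at h3
      linarith
    · exfalso
      have h3 := hΦn1 w h2
      rw [← hzw, hΦn2 z h1] at h3
      linarith
    · have h3 : ‖z‖ = ‖w‖ := by rw [← hΦn2 z h1, ← hΦn2 w h2, hzw]
      have h4 := hGp ‖z‖ (arg z) h1
      have h5 := hGp ‖w‖ (arg w) h2
      rw [norm_mul_exp_arg_mul_I] at h4 h5
      rw [hΦ2 z h1, hΦ2 w h2, h4, h5, h3] at hzw
      have h6 : (‖w‖ : ℂ) ≠ 0 := by
        have : ‖w‖ ≠ 0 := by positivity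
        exact_mod_cast this
      have h7 := mul_left_cancel₀ h6 hzw
      rw [Complex.exp_eq_exp_iff_exists_int] at h7
      obtain ⟨n, hn⟩ := h7
      have h8 : arg z + eta ‖w‖ * D (arg z) = (arg w + n * (2 * π)) +
          eta ‖w‖ * D (arg w + n * (2 * π)) := by
        rw [hDp]
        have h9 : ((arg z + eta ‖w‖ * D (arg z) : ℝ) : ℂ) * I =
            ((arg w + n * (2 * π) + eta ‖w‖ * D (arg w) : ℝ) : ℂ) * I := by
          rw [hn]; push_cast; ring
        exact_mod_cast mul_right_cancel₀ I_ne_zero h9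
      have h9 := (hLη ‖w‖).injective h8
      rw [← norm_mul_exp_arg_mul_I z, ← norm_mul_exp_arg_mul_I w, h3, h9, hper]
  · intro w
    rcases le_or_gt ‖w‖ 1 with h1 | h1
    · obtain ⟨z, hz, hzw⟩ := hbij.surjOn (show w ∈ closedBall (0 : ℂ) 1 by simpa using h1)
      exact ⟨z, by rw [hΦ1 z (by simpa using hz), hzw]⟩
    · obtain ⟨θ, hθ⟩ := hLs ‖w‖ (arg w)
      refine ⟨‖w‖ * exp (θ * I), ?_⟩
      rw [hΦ2 _ (by rw [(hret ‖w‖ θ h1.le).2]; exact h1.le), hGp ‖w‖ θ h1.le, hθ,
        norm_mul_exp_arg_mul_I]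
  · rw [← Metric.cobounded_eq_cocompact, ← comap_norm_atTop, tendsto_comap_iff]
    have h1 : Tendsto (norm : ℂ → ℝ) (comap norm atTop) atTop := tendsto_comap
    refine h1.congr' ?_
    filter_upwards [h1.eventually_ge_atTop 1] with z hz
    rw [Function.comp_apply, hΦn2 z hz]

/-- an embedding of the closed disc which is close to the identity on the unit circle has an
extendable germ -/
theorem Emb.ext {g : ℂ → ℂ} (hg : Emb g) (hnear : ∀ z, ‖z‖ = 1 → ‖g z - z‖ < 1) : Ext g := by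
  obtain ⟨f, Ψ, hfd, hf', hf0, hΨc, hΨb, hΨin, hΨbd, hΨ0, heq⟩ := hg.caratheodory
  set F : ℂ → ℂ := fun z => g (Ψ z) with hF
  have hFc : ContinuousOn F (closedBall 0 1) := hg.cont.comp hΨc hΨb.mapsTo
  have hFi : InjOn F (closedBall 0 1) := hg.inj.comp hΨb.injOn hΨb.mapsTo
  have h0b : (0 : ℂ) ∈ ball (0 : ℂ) 1 := mem_ball_self one_pos
  have hF0 : F 0 = 0 := by simp only [hF]; rw [hΨ0, hg.zero]
  -- the quotient
  set q : ℂ → ℂ := dslope F 0 with hq
  have hFder : HasDerivAt F (deriv f 0) 0 := by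
    have h1 : HasDerivAt f (deriv f 0) 0 :=
      (hfd.differentiableAt (isOpen_ball.mem_nhds h0b)).hasDerivAt
    apply h1.congr_of_eventuallyEq
    filter_upwards [isOpen_ball.mem_nhds h0b] with z hz
    exact heq z hz
  have hq0 : q 0 = deriv f 0 := by simp only [hq]; rw [dslope_same, hFder.deriv]
  have hqz : ∀ z, z ≠ 0 → q z = F z / z := by
    intro z hz
    simp only [hq]
    rw [dslope_of_ne _ hz, slope_def_field, hF0, sub_zero, sub_zero]
  have hqc : ContinuousOn q (closedBall 0 1) := by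
    rw [hq, continuousOn_dslope (closedBall_mem_nhds (0 : ℂ) one_pos)]
    exact ⟨hFc, hFder.differentiableAt⟩
  have hqn : ∀ z ∈ closedBall (0 : ℂ) 1, q z ≠ 0 := by
    intro z hz
    by_cases h : z = 0
    · rw [h, hq0]; exact hf'
    · rw [hqz z h]
      apply div_ne_zero _ h
      intro h1
      rw [← hF0] at h1
      exact h (hFi hz (ball_subset_closedBall h0b) h1)
  obtain ⟨l, hl, hle⟩ := exists_log hqc hqn
  have hFl : ∀ z, ‖z‖ ≤ 1 → F z = z * exp (l z) := by
    intro z hz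
    by_cases h : z = 0
    · rw [h, hF0, zero_mul]
    · rw [hle z (by simpa using hz), hqz z h]
      field_simp
  -- the logarithm of `g z / z` on the circle
  set m : ℂ → ℂ := fun z => log (g z / z) with hm
  have hsl : ∀ z : ℂ, ‖z‖ = 1 → g z / z ∈ slitPlane ∧ z ≠ 0 := by
    intro z hz
    have hz0 : z ≠ 0 := by intro h; rw [h, norm_zero] at hz; exact zero_ne_one hz
    refine ⟨?_, hz0⟩
    have h1 : ‖g z / z - 1‖ < 1 := by
      have : g z / z - 1 = (g z - z) / z := by field_simp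
      rw [this, norm_div, hz, div_one]
      exact hnear z hz
    left
    have h2 := Complex.abs_re_le_norm (g z / z - 1)
    have h3 := (abs_lt.1 (h2.trans_lt h1)).1
    rw [sub_re, one_re] at h3
    linarith
  have hmc : ContinuousOn m (sphere 0 1) := by
    simp only [hm]
    apply ContinuousOn.clog
    · apply (hg.cont.mono sphere_subset_closedBall).div continuousOn_id
      intro z hz
      exact (hsl z (by simpa using hz)).2
    · intro z hz
      exact (hsl z (by simpa using hz)).1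
  have hgm : ∀ z : ℂ, ‖z‖ = 1 → g z = z * exp (m z) := by
    intro z hz
    obtain ⟨h1, h2⟩ := hsl z hz
    simp only [hm]
    rw [Complex.exp_log (slitPlane_ne_zero h1)]
    field_simp
  -- the twist
  have hδ : ContinuousOn (fun z => (l z - m (Ψ z)).im) (sphere 0 1) := by
    apply Complex.continuous_im.comp_continuousOn
    apply hl.continuousOn.sub
    apply hmc.comp (hΨc.mono sphere_subset_closedBall)
    intro z hz
    simpa using hΨbd z (by simpa using hz)
  obtain ⟨κ, hκ1, hκ2⟩ := exists_twist hΨc hΨb hΨin hδ (by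
    intro z hz
    have h1 : z * exp (l z) = Ψ z * exp (m (Ψ z)) := by
      rw [← hFl z hz.le, ← hgm _ (hΨbd z hz)]
    have h2 : Ψ z = z * exp (l z - m (Ψ z)) := by
      rw [Complex.exp_sub, mul_div_assoc', h1, mul_div_assoc, div_self (Complex.exp_ne_zero _),
        mul_one]
    have h3 : Real.exp (l z - m (Ψ z)).re = 1 := by
      have h4 := congrArg norm h2
      rw [hΨbd z hz, norm_mul, hz, one_mul, Complex.norm_exp] at h4
      exact h4.symm
    have h4 : (l z - m (Ψ z)).re = 0 := by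
      rwa [Real.exp_eq_one_iff] at h3
    have h5 : l z - m (Ψ z) = ((l z - m (Ψ z)).im : ℂ) * I := by
      apply Complex.ext
      · rw [h4]; simp
      · simp
    rw [← h5]
    exact h2)
  have hκ0 : κ.symm 0 = 0 := by
    rw [Homeomorph.symm_apply_eq, hκ1 0 (by simp), hΨ0]
  have hE1 : Ext κ.symm := by
    refine ⟨hκ0, κ.symm, Eventually.of_forall fun z => rfl, 2, fun z hz => ?_⟩
    rw [Homeomorph.symm_apply_eq, hκ2 z hz]
  have hE2 : Ext f := by
    apply Ext.of_deriv hf0 hf'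
    have h1 : AnalyticAt ℂ f 0 := hfd.analyticAt (isOpen_ball.mem_nhds h0b)
    exact h1.hasStrictDerivAt
  refine (hE2.comp hE1).congr ?_
  have h1 : Tendsto κ.symm (𝓝 0) (𝓝 0) := by
    have := κ.symm.continuous.tendsto 0
    rwa [hκ0] at this
  filter_upwards [h1.eventually (isOpen_ball.mem_nhds h0b)] with w hw
  rw [← heq _ hw, ← hκ1 _ (by simpa using hw.le), Homeomorph.apply_symm_apply]

end Pool.Agent.H871R2.Sph
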