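import Mathlib
import Pool.Agent.H871R2.Sph.Twist

set_option autoImplicit false
open Complex Set Filter Metric Topology OnePoint
open scoped Real ComplexConjugate

namespace Pool.Agent.H871R2.Sph

/-- the inversion of the sphere -/
noncomputable def iotaFun (x : OnePoint ℂ) : OnePoint ℂ :=
  x.elim ((0 : ℂ) : OnePoint ℂ) (fun z => if z = 0 then ∞ else ((z⁻¹ : ℂ) : OnePoint ℂ))

theorem iotaFun_inf : iotaFun ∞ = ((0 : ℂ) : OnePoint ℂ) := rfl

theorem iotaFun_zero : iotaFun ((0 : ℂ) : OnePoint ℂ) = ∞ := by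
  simp [iotaFun]

theorem iotaFun_coe {z : ℂ} (hz : z ≠ 0) : iotaFun (z : OnePoint ℂ) = ((z⁻¹ : ℂ) : OnePoint ℂ) := by
  simp [iotaFun, hz]

theorem iotaFun_iotaFun (x : OnePoint ℂ) : iotaFun (iotaFun x) = x := by
  induction x using OnePoint.rec with
  | infty => rw [iotaFun_inf, iotaFun_zero]
  | coe z =>
    by_cases hz : z = 0
    · rw [hz, iotaFun_zero, iotaFun_inf]
    · rw [iotaFun_coe hz, iotaFun_coe (inv_ne_zero hz), inv_inv]

theorem tendsto_coe_cobounded : Tendsto ((↑) : ℂ → OnePoint ℂ) (Bornology.cobounded ℂ) (𝓝 ∞) := by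
  have h := OnePoint.tendsto_coe_infty (X := ℂ)
  rwa [Filter.coclosedCompact_eq_cocompact, ← Metric.cobounded_eq_cocompact] at h

theorem iotaFun_continuous : Continuous iotaFun := by
  rw [continuous_iff_continuousAt]
  intro x
  induction x using OnePoint.rec with
  | infty =>
    rw [OnePoint.continuousAt_infty', iotaFun_inf, Filter.coclosedCompact_eq_cocompact,
      ← Metric.cobounded_eq_cocompact]
    have h1 : Tendsto (fun z : ℂ => z⁻¹) (Bornology.cobounded ℂ) (𝓝 0) :=
      tendsto_inv₀_cobounded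
    have h2 : Tendsto (fun z : ℂ => ((z⁻¹ : ℂ) : OnePoint ℂ)) (Bornology.cobounded ℂ)
        (𝓝 ((0 : ℂ) : OnePoint ℂ)) := (OnePoint.continuous_coe.tendsto 0).comp h1
    refine h2.congr' ?_
    have h3 : ∀ᶠ z : ℂ in Bornology.cobounded ℂ, z ≠ 0 := by
      have h4 : Tendsto (norm : ℂ → ℝ) (Bornology.cobounded ℂ) atTop :=
        tendsto_norm_cobounded_atTop
      filter_upwards [h4.eventually_gt_atTop 0] with z hz
      exact norm_pos_iff.1 hz
    filter_upwards [h3] with z hz
    simp only [Function.comp_apply]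
    rw [iotaFun_coe hz]
  | coe z =>
    rw [OnePoint.continuousAt_coe]
    by_cases hz : z = 0
    · rw [hz]
      show Tendsto (iotaFun ∘ OnePoint.some) (𝓝 0) (𝓝 (iotaFun ((0 : ℂ) : OnePoint ℂ)))
      rw [iotaFun_zero, ← nhdsNE_sup_pure (0 : ℂ), tendsto_sup]
      constructor
      · have h1 := tendsto_coe_cobounded.comp (Filter.tendsto_inv₀_nhdsNE_zero (α := ℂ))
        refine h1.congr' ?_
        filter_upwards [self_mem_nhdsWithin] with w hw
        simp only [Function.comp_apply]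
        rw [iotaFun_coe hw]
      · rw [tendsto_pure_left]
        intro s hs
        have := mem_of_mem_nhds hs
        simp only [Function.comp_apply]
        rw [iotaFun_zero]
        exact this
    · have h1 : Tendsto (fun w : ℂ => ((w⁻¹ : ℂ) : OnePoint ℂ)) (𝓝 z)
          (𝓝 ((z⁻¹ : ℂ) : OnePoint ℂ)) :=
        (OnePoint.continuous_coe.tendsto _).comp (tendsto_inv₀ hz)
      show Tendsto (iotaFun ∘ OnePoint.some) (𝓝 z) (𝓝 (iotaFun (z : OnePoint ℂ)))
      rw [iotaFun_coe hz]
      refine h1.congr' ?_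
      filter_upwards [isOpen_ne.mem_nhds hz] with w hw
      simp only [Function.comp_apply]
      rw [iotaFun_coe hw]

noncomputable def iota : OnePoint ℂ ≃ₜ OnePoint ℂ where
  toFun := iotaFun
  invFun := iotaFun
  left_inv := iotaFun_iotaFun
  right_inv := iotaFun_iotaFun
  continuous_toFun := iotaFun_continuous
  continuous_invFun := iotaFun_continuous

theorem iota_inf : iota ∞ = ((0 : ℂ) : OnePoint ℂ) := iotaFun_inf
theorem iota_zero : iota ((0 : ℂ) : OnePoint ℂ) = ∞ := iotaFun_zero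
theorem iota_coe {z : ℂ} (hz : z ≠ 0) : iota (z : OnePoint ℂ) = ((z⁻¹ : ℂ) : OnePoint ℂ) :=
  iotaFun_coe hz
theorem iota_iota (x : OnePoint ℂ) : iota (iota x) = x := iotaFun_iotaFun x
theorem iota_symm (x : OnePoint ℂ) : iota.symm x = iota x := rfl
theorem iota_mul : iota * iota = 1 := by
  ext x
  exact iota_iota x
theorem iota_inv : iota⁻¹ = iota := rfl

/-- the extension of a homeomorphism of the plane to the sphere -/
noncomputable def lift (κ : ℂ ≃ₜ ℂ) : OnePoint ℂ ≃ₜ OnePoint ℂ := κ.onePointCongr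

@[simp] theorem lift_coe (κ : ℂ ≃ₜ ℂ) (z : ℂ) :
    lift κ (z : OnePoint ℂ) = ((κ z : ℂ) : OnePoint ℂ) := rfl

@[simp] theorem lift_inf (κ : ℂ ≃ₜ ℂ) : lift κ ∞ = ∞ := rfl

@[simp] theorem lift_symm_coe (κ : ℂ ≃ₜ ℂ) (z : ℂ) :
    (lift κ).symm (z : OnePoint ℂ) = ((κ.symm z : ℂ) : OnePoint ℂ) := rfl

@[simp] theorem lift_symm_inf (κ : ℂ ≃ₜ ℂ) : (lift κ).symm ∞ = ∞ := rfl

/-- a homeomorphism taking `x` to `0` -/
noncomputable def loc (x : OnePoint ℂ) : OnePoint ℂ ≃ₜ OnePoint ℂ :=
  x.elim iota (fun z => lift (Homeomorph.subRight z))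

theorem loc_inf : loc ∞ = iota := rfl

theorem loc_coe (a z : ℂ) : loc (a : OnePoint ℂ) (z : OnePoint ℂ) = ((z - a : ℂ) : OnePoint ℂ) := rfl

theorem loc_coe_inf (a : ℂ) : loc (a : OnePoint ℂ) ∞ = ∞ := rfl

theorem loc_coe_symm (a z : ℂ) :
    (loc (a : OnePoint ℂ)).symm (z : OnePoint ℂ) = ((z + a : ℂ) : OnePoint ℂ) := by
  rw [Homeomorph.symm_apply_eq, loc_coe, add_sub_cancel_right]

theorem loc_zero (x : OnePoint ℂ) : loc ((0 : ℂ) : OnePoint ℂ) x = x := by
  induction x using OnePoint.rec with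
  | infty => rfl
  | coe z => rw [loc_coe, sub_zero]

theorem loc_self (x : OnePoint ℂ) : loc x x = ((0 : ℂ) : OnePoint ℂ) := by
  induction x using OnePoint.rec with
  | infty => exact iota_inf
  | coe z => rw [loc_coe, sub_self]

/-- in the coordinates given by `loc`, the germ of `g` at `x` extends to a compactly supported
homeomorphism of the plane -/
def Good (g : OnePoint ℂ ≃ₜ OnePoint ℂ) (x : OnePoint ℂ) : Prop :=
  ∃ κ : ℂ ≃ₜ ℂ, κ 0 = 0 ∧ (∃ R : ℝ, ∀ z, R ≤ ‖z‖ → κ z = z) ∧
    ∀ᶠ y in 𝓝 x, loc (g x) (g y) = lift κ (loc x y)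

theorem Good.comp {g h : OnePoint ℂ ≃ₜ OnePoint ℂ} {x : OnePoint ℂ} (hg : Good g x)
    (hh : Good h (g x)) : Good (h * g) x := by
  obtain ⟨κ, h1, ⟨R, h2⟩, h3⟩ := hg
  obtain ⟨κ', h1', ⟨R', h2'⟩, h3'⟩ := hh
  refine ⟨κ.trans κ', by rw [Homeomorph.trans_apply, h1, h1'], ⟨max R R', fun z hz => ?_⟩, ?_⟩
  · rw [Homeomorph.trans_apply, h2 z ((le_max_left _ _).trans hz),
      h2' z ((le_max_right _ _).trans hz)]
  · filter_upwards [(g.continuous.tendsto x).eventually h3', h3] with y hy hy'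
    rw [Homeomorph.mul_apply, Homeomorph.mul_apply, hy, hy']
    generalize loc x y = u
    induction u using OnePoint.rec with
    | infty => rfl
    | coe z => rfl

theorem Good.inv {g : OnePoint ℂ ≃ₜ OnePoint ℂ} {x : OnePoint ℂ} (hg : Good g x) :
    Good g⁻¹ (g x) := by
  obtain ⟨κ, h1, ⟨R, h2⟩, h3⟩ := hg
  refine ⟨κ.symm, by rw [Homeomorph.symm_apply_eq, h1], ⟨R, fun z hz => ?_⟩, ?_⟩
  · rw [Homeomorph.symm_apply_eq, h2 z hz]
  · have h4 : Tendsto g.symm (𝓝 (g x)) (𝓝 x) := by
      have := g.symm.continuous.tendsto (g x)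
      rwa [Homeomorph.symm_apply_apply] at this
    filter_upwards [h4.eventually h3] with y hy
    rw [Homeomorph.apply_symm_apply] at hy
    rw [Homeomorph.inv_apply, Homeomorph.inv_apply, Homeomorph.symm_apply_apply, hy]
    generalize loc x (g.symm y) = u
    induction u using OnePoint.rec with
    | infty => rfl
    | coe z => rw [lift_coe, lift_coe, Homeomorph.symm_apply_apply]

theorem Good.one (x : OnePoint ℂ) : Good 1 x := by
  refine ⟨Homeomorph.refl ℂ, rfl, ⟨0, fun _ _ => rfl⟩, Eventually.of_forall fun y => ?_⟩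
  rw [Homeomorph.one_apply, Homeomorph.one_apply]
  generalize loc x y = u
  induction u using OnePoint.rec with
  | infty => rfl
  | coe z => rfl

theorem good_of_ext {g : OnePoint ℂ ≃ₜ OnePoint ℂ} {x : OnePoint ℂ} {f : ℂ → ℂ} (hf : Ext f)
    (h : ∀ᶠ z : ℂ in 𝓝 0, loc (g x) (g ((loc x).symm (z : OnePoint ℂ))) =
      ((f z : ℂ) : OnePoint ℂ)) : Good g x := by
  obtain ⟨f0, κ, h1, R, h2⟩ := hf
  refine ⟨κ, by rw [h1.self_of_nhds, f0], ⟨R, h2⟩, ?_⟩
  have h3 : ∀ᶠ u in 𝓝 ((0 : ℂ) : OnePoint ℂ), loc (g x) (g ((loc x).symm u)) = lift κ u := by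
    rw [OnePoint.nhds_coe_eq, eventually_map]
    filter_upwards [h, h1] with z hz hz'
    rw [hz, lift_coe, hz']
  have h4 : Tendsto (loc x) (𝓝 x) (𝓝 ((0 : ℂ) : OnePoint ℂ)) := by
    have := (loc x).continuous.tendsto x
    rwa [loc_self] at this
  filter_upwards [h4.eventually h3] with y hy
  rwa [Homeomorph.symm_apply_apply] at hy

/-- every germ of `g` is good -/
def AllGood (g : OnePoint ℂ ≃ₜ OnePoint ℂ) : Prop := ∀ x, Good g x

theorem AllGood.mul {g h : OnePoint ℂ ≃ₜ OnePoint ℂ} (hg : AllGood g) (hh : AllGood h) :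
    AllGood (g * h) := fun x => (hh x).comp (hg _)

theorem AllGood.inv {g : OnePoint ℂ ≃ₜ OnePoint ℂ} (hg : AllGood g) : AllGood g⁻¹ := by
  intro x
  have := (hg (g.symm x)).inv
  rwa [Homeomorph.apply_symm_apply] at this

theorem AllGood.one : AllGood 1 := Good.one

theorem allGood_iota : AllGood iota := by
  intro x
  induction x using OnePoint.rec with
  | infty =>
    refine good_of_ext Ext.id (Eventually.of_forall fun z => ?_)
    rw [iota_inf, loc_zero, loc_inf, iota_symm, iota_iota]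
  | coe x =>
    by_cases hx : x = 0
    · rw [hx]
      refine good_of_ext Ext.id (Eventually.of_forall fun z => ?_)
      rw [iota_zero, loc_inf, iota_iota, loc_coe_symm, add_zero]
    · apply good_of_ext (f := fun z => -z / (x * (x + z)))
      · apply Ext.of_deriv (c := -1 / (x * x)) (by simp)
        · exact div_ne_zero (by norm_num) (mul_ne_zero hx hx)
        · have h1 : HasStrictDerivAt (fun z : ℂ => -z) (-1) 0 := (hasStrictDerivAt_id (0 : ℂ)).neg
          have h2 : HasStrictDerivAt (fun z : ℂ => x * (x + z)) (x * 1) 0 :=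
            ((hasStrictDerivAt_id (0 : ℂ)).const_add x).const_mul x
          have h3 := h1.fun_div h2 (by simp [hx])
          have e : ((-1 * (x * (x + 0)) - -0 * (x * 1)) / (x * (x + 0)) ^ 2 : ℂ) =
              -1 / (x * x) := by
            rw [add_zero]
            field_simp
            ring
          rw [e] at h3
          exact h3
      · have h1 : ∀ᶠ z : ℂ in 𝓝 0, z + x ≠ 0 := by
          have : ContinuousAt (fun z : ℂ => z + x) 0 := by fun_prop
          exact this.eventually_ne (by simpa using hx)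
        filter_upwards [h1] with z hz
        rw [iota_coe hx, loc_coe_symm, iota_coe hz, loc_coe]
        congr 1
        rw [add_comm] at hz
        rw [add_comm z x]
        field_simp
        ring

theorem good_lift {κ : ℂ ≃ₜ ℂ} {a : ℂ} (h : Ext (fun z => κ (z + a) - κ a)) :
    Good (lift κ) (a : OnePoint ℂ) := by
  refine good_of_ext h (Eventually.of_forall fun z => ?_)
  rw [lift_coe, loc_coe_symm, lift_coe, loc_coe]

theorem good_lift_inf {κ : ℂ ≃ₜ ℂ} (h : ∃ R : ℝ, ∀ z, R ≤ ‖z‖ → κ z = z) :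
    Good (lift κ) ∞ := by
  obtain ⟨R, hR⟩ := h
  refine good_of_ext Ext.id ?_
  have h1 : ∀ᶠ y in 𝓝 (∞ : OnePoint ℂ), lift κ y = y := by
    rw [OnePoint.nhds_infty_eq, eventually_sup, eventually_map, Filter.coclosedCompact_eq_cocompact,
      ← Metric.cobounded_eq_cocompact]
    refine ⟨?_, ?_⟩
    · have h2 : Tendsto (norm : ℂ → ℝ) (Bornology.cobounded ℂ) atTop := tendsto_norm_cobounded_atTop
      filter_upwards [h2.eventually_ge_atTop R] with z hz
      rw [lift_coe, hR z hz]
    · simp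
  have h2 : Tendsto (fun z : ℂ => iota (z : OnePoint ℂ)) (𝓝 0) (𝓝 ∞) := by
    have := (iota.continuous.comp OnePoint.continuous_coe).tendsto 0
    rwa [Function.comp_apply, iota_zero] at this
  filter_upwards [h2.eventually h1] with z hz
  rw [lift_inf, loc_inf, iota_symm, hz, iota_iota]

/-- multiplication by a nonzero constant -/
noncomputable def mu (c : ℂ) (hc : c ≠ 0) : OnePoint ℂ ≃ₜ OnePoint ℂ :=
  lift (Homeomorph.mulLeft₀ c hc)

theorem mu_coe (c : ℂ) (hc : c ≠ 0) (z : ℂ) :
    mu c hc (z : OnePoint ℂ) = ((c * z : ℂ) : OnePoint ℂ) := rfl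

theorem mu_inf (c : ℂ) (hc : c ≠ 0) : mu c hc ∞ = ∞ := rfl

theorem allGood_mu (c : ℂ) (hc : c ≠ 0) : AllGood (mu c hc) := by
  intro x
  induction x using OnePoint.rec with
  | infty =>
    apply good_of_ext (Ext.mul (inv_ne_zero hc))
    refine Eventually.of_forall fun z => ?_
    rw [mu_inf, loc_inf, iota_symm]
    by_cases hz : z = 0
    · rw [hz, iota_zero, mu_inf, iota_inf, mul_zero]
    · rw [iota_coe hz, mu_coe, iota_coe (mul_ne_zero hc (inv_ne_zero hz)), mul_inv, inv_inv]
  | coe x =>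
    apply good_lift
    refine (Ext.mul hc).congr (Eventually.of_forall fun z => ?_)
    simp only [Homeomorph.coe_mulLeft₀]
    ring

/-- translation -/
noncomputable def tau (a : ℂ) : OnePoint ℂ ≃ₜ OnePoint ℂ := lift (Homeomorph.addRight a)

theorem tau_coe (a z : ℂ) : tau a (z : OnePoint ℂ) = ((z + a : ℂ) : OnePoint ℂ) := rfl

theorem tau_inf (a : ℂ) : tau a ∞ = ∞ := rfl

theorem allGood_tau (a : ℂ) : AllGood (tau a) := by
  intro x
  induction x using OnePoint.rec with
  | infty =>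
    apply good_of_ext (f := fun z => z / (1 + a * z))
    · apply Ext.of_deriv (c := 1) (by simp) one_ne_zero
      have h1 : HasStrictDerivAt (fun z : ℂ => z) 1 0 := hasStrictDerivAt_id (0 : ℂ)
      have h2 : HasStrictDerivAt (fun z : ℂ => 1 + a * z) (a * 1) 0 :=
        ((hasStrictDerivAt_id (0 : ℂ)).const_mul a).const_add 1
      have h3 := h1.fun_div h2 (by simp)
      have e : ((1 * (1 + a * 0) - 0 * (a * 1)) / (1 + a * 0) ^ 2 : ℂ) = 1 := by norm_num
      rw [e] at h3
      exact h3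
    · have h1 : ∀ᶠ z : ℂ in 𝓝 0, 1 + a * z ≠ 0 := by
        have : ContinuousAt (fun z : ℂ => 1 + a * z) 0 := by fun_prop
        exact this.eventually_ne (by simp)
      filter_upwards [h1] with z hz
      rw [tau_inf, loc_inf, iota_symm]
      by_cases hz0 : z = 0
      · rw [hz0, iota_zero, tau_inf, iota_inf, zero_div]
      · have h2 : z⁻¹ + a ≠ 0 := by
          intro h
          apply hz
          have : 1 + a * z = (z⁻¹ + a) * z := by field_simp
          rw [this, h, zero_mul]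
        rw [iota_coe hz0, tau_coe, iota_coe h2]
        congr 1
        rw [inv_eq_one_div, div_eq_div_iff h2 hz]
        field_simp
  | coe x =>
    apply good_lift
    refine Ext.id.congr (Eventually.of_forall fun z => ?_)
    simp only [Homeomorph.coe_addRight]
    ring

end Pool.Agent.H871R2.Sph
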