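import Mathlib
import Pool.Agent.H871R2.Sph.Sphere

set_option autoImplicit false
open Complex Set Filter Metric Topology OnePoint
open scoped Real ComplexConjugate

namespace Pool.Agent.H871R2.Sph

/-- close to the identity on the disc of radius `2` -/
def Near (g : OnePoint ℂ ≃ₜ OnePoint ℂ) : Prop :=
  ∀ z : ℂ, ‖z‖ ≤ 2 → ∃ w : ℂ, g (z : OnePoint ℂ) = (w : OnePoint ℂ) ∧ ‖w - z‖ < 1 / 2

theorem Near.good {g : OnePoint ℂ ≃ₜ OnePoint ℂ} (h : Near g) {x : ℂ} (hx : ‖x‖ ≤ 1) :
    Good g (x : OnePoint ℂ) := by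
  choose! w hw1 hw2 using h
  have hsub : ∀ z : ℂ, ‖z‖ ≤ 1 → ‖z + x‖ ≤ 2 := by
    intro z hz
    have := norm_add_le z x
    linarith
  have hx2 : ‖x‖ ≤ 2 := by linarith
  have hwc : ContinuousOn w (closedBall 0 2) := by
    rw [OnePoint.isOpenEmbedding_coe.isInducing.continuousOn_iff]
    have h1 : ContinuousOn (fun z : ℂ => g (z : OnePoint ℂ)) (closedBall 0 2) :=
      (g.continuous.comp OnePoint.continuous_coe).continuousOn
    apply h1.congr
    intro z hz
    exact (hw1 z (by simpa using hz)).symm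
  have hE : Emb (fun z => w (z + x) - w x) := by
    refine ⟨?_, ?_, ?_, ?_⟩
    · apply ContinuousOn.sub _ continuousOn_const
      apply hwc.comp (by fun_prop)
      intro z hz
      have := hsub z (by simpa using hz)
      simpa using this
    · intro z hz z' hz' hzz
      have h1 : w (z + x) = w (z' + x) := by
        simp only at hzz
        exact sub_left_injective hzz
      have h2 : g ((z + x : ℂ) : OnePoint ℂ) = g ((z' + x : ℂ) : OnePoint ℂ) := by
        rw [hw1 _ (hsub z (by simpa using hz)), hw1 _ (hsub z' (by simpa using hz')), h1]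
      have h3 := OnePoint.coe_injective (g.injective h2)
      exact add_right_cancel h3
    · have h1 : (fun z => w (z + x) - w x) '' ball 0 1 =
          (fun y : ℂ => ((y + w x : ℂ) : OnePoint ℂ)) ⁻¹' (g '' (((↑) : ℂ → OnePoint ℂ) '' ball x 1))
          := by
        ext y
        constructor
        · rintro ⟨z, hz, rfl⟩
          refine ⟨((z + x : ℂ) : OnePoint ℂ), ⟨z + x, by simpa using hz, rfl⟩, ?_⟩
          rw [hw1 _ (hsub z (by simpa using (ball_subset_closedBall hz)))]
          simp
        · rintro ⟨_, ⟨v, hv, rfl⟩, hvy⟩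
          have hv' : ‖v - x‖ < 1 := by simpa [dist_eq_norm] using hv
          refine ⟨v - x, by simpa using hv', ?_⟩
          have h2 := hsub (v - x) hv'.le
          rw [sub_add_cancel] at h2
          rw [hw1 v h2] at hvy
          have h3 := OnePoint.coe_injective hvy
          simp only [sub_add_cancel]
          rw [h3]
          ring
      rw [h1]
      apply IsOpen.preimage
      · exact OnePoint.continuous_coe.comp (by fun_prop)
      · exact g.isOpenMap _ (OnePoint.isOpenMap_coe _ isOpen_ball)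
    · simp
  apply good_of_ext (hE.ext ?_)
  · filter_upwards [closedBall_mem_nhds (0 : ℂ) one_pos] with z hz
    rw [hw1 x hx2, loc_coe_symm, hw1 _ (hsub z (by simpa using hz)), loc_coe]
  · intro z hz
    have h1 := hw2 (z + x) (hsub z hz.le)
    have h2 := hw2 x hx2
    have h3 : w (z + x) - w x - z = (w (z + x) - (z + x)) - (w x - x) := by ring
    rw [h3]
    refine (norm_sub_le _ _).trans_lt ?_
    linarith

theorem near_allGood {g : OnePoint ℂ ≃ₜ OnePoint ℂ} (h1 : Near g)
    (h2 : Near (iota * g * iota)) : AllGood g := by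
  intro x
  by_cases hx : ∃ a : ℂ, ‖a‖ ≤ 1 ∧ x = (a : OnePoint ℂ)
  · obtain ⟨a, ha, rfl⟩ := hx
    exact h1.good ha
  · obtain ⟨b, hb, hxb⟩ : ∃ b : ℂ, ‖b‖ ≤ 1 ∧ iota x = (b : OnePoint ℂ) := by
      induction x using OnePoint.rec with
      | infty => exact ⟨0, by simp, iota_inf⟩
      | coe z =>
        have hz : 1 < ‖z‖ := by
          by_contra hcon
          push Not at hcon
          exact hx ⟨z, hcon, rfl⟩
        have hz0 : z ≠ 0 := by
          intro h0
          rw [h0, norm_zero] at hz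
          linarith
        refine ⟨z⁻¹, ?_, iota_coe hz0⟩
        rw [norm_inv]
        exact inv_le_one_of_one_le₀ hz.le
    have h3 : Good ((iota * g * iota) * iota) x := by
      apply (allGood_iota x).comp
      rw [hxb]
      exact h2.good hb
    have h4 := h3.comp (allGood_iota _)
    have h5 : iota * ((iota * g * iota) * iota) = g := by
      rw [mul_assoc, mul_assoc, iota_mul, ← mul_assoc, ← mul_assoc, iota_mul, one_mul, mul_one]
    rwa [h5] at h4

theorem eventually_near {T : Type*} [TopologicalSpace T] {Γ : T → (OnePoint ℂ ≃ₜ OnePoint ℂ)}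
    (hΓ : Continuous fun p : T × OnePoint ℂ => Γ p.1 p.2) {t₀ : T} (h : ∀ x, Γ t₀ x = x) :
    ∀ᶠ t in 𝓝 t₀, Near (Γ t) := by
  have h1 : ∀ᶠ t in 𝓝 t₀, ∀ z ∈ closedBall (0 : ℂ) 2,
      ∃ w : ℂ, Γ t (z : OnePoint ℂ) = (w : OnePoint ℂ) ∧ ‖w - z‖ < 1 / 2 := by
    apply (isCompact_closedBall (0 : ℂ) 2).eventually_forall_of_forall_eventually
    intro z₀ _
    have hF : Continuous fun p : T × ℂ => Γ p.1 (p.2 : OnePoint ℂ) :=
      hΓ.comp (continuous_fst.prodMk (OnePoint.continuous_coe.comp continuous_snd))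
    have h2 := hF.tendsto (t₀, z₀)
    simp only [h] at h2
    have h3 : ((↑) : ℂ → OnePoint ℂ) '' ball z₀ (1 / 4) ∈ 𝓝 (z₀ : OnePoint ℂ) :=
      (OnePoint.isOpenMap_coe _ isOpen_ball).mem_nhds ⟨z₀, mem_ball_self (by norm_num), rfl⟩
    have h4 : ∀ᶠ p : T × ℂ in 𝓝 (t₀, z₀), p.2 ∈ ball z₀ (1 / 4) :=
      continuous_snd.tendsto (t₀, z₀) (ball_mem_nhds z₀ (by norm_num))
    filter_upwards [h2 h3, h4] with p hp hp'
    obtain ⟨w, hw, hw'⟩ := hp
    refine ⟨w, hw'.symm, ?_⟩
    have e1 : ‖w - z₀‖ < 1 / 4 := by simpa [dist_eq_norm] using hw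
    have e2 : ‖z₀ - p.2‖ < 1 / 4 := by
      rw [norm_sub_rev]
      simpa [dist_eq_norm] using hp'
    have e3 : w - p.2 = (w - z₀) + (z₀ - p.2) := by ring
    rw [e3]
    refine (norm_add_le _ _).trans_lt ?_
    linarith
  filter_upwards [h1] with t ht z hz
  exact ht z (by simpa using hz)

theorem eventually_allGood {T : Type*} [TopologicalSpace T] {Γ : T → (OnePoint ℂ ≃ₜ OnePoint ℂ)}
    (hΓ : Continuous fun p : T × OnePoint ℂ => Γ p.1 p.2) {t₀ : T} (h : ∀ x, Γ t₀ x = x) :
    ∀ᶠ t in 𝓝 t₀, AllGood (Γ t) := by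
  have h1 := eventually_near hΓ h
  have h2 : ∀ᶠ t in 𝓝 t₀, Near (iota * Γ t * iota) := by
    apply eventually_near
    · simp only [Homeomorph.mul_apply]
      exact iota.continuous.comp (hΓ.comp (continuous_fst.prodMk
        (iota.continuous.comp continuous_snd)))
    · intro x
      rw [Homeomorph.mul_apply, Homeomorph.mul_apply, h, iota_iota]
  filter_upwards [h1, h2] with t ht ht'
  exact near_allGood ht ht'

/-- all germs of a homeomorphism isotopic to the identity are good -/
theorem allGood_of_isotopy {γ : unitInterval → (OnePoint ℂ ≃ₜ OnePoint ℂ)}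
    (hγ : Continuous fun p : unitInterval × OnePoint ℂ => γ p.1 p.2) (h0 : AllGood (γ 0)) :
    ∀ t, AllGood (γ t) := by
  have key : ∀ t₀, ∀ᶠ t in 𝓝 t₀, AllGood (γ t * (γ t₀)⁻¹) := by
    intro t₀
    apply eventually_allGood
    · simp only [Homeomorph.mul_apply, Homeomorph.inv_apply]
      exact hγ.comp (continuous_fst.prodMk ((γ t₀).symm.continuous.comp continuous_snd))
    · intro x
      rw [Homeomorph.mul_apply, Homeomorph.inv_apply, Homeomorph.apply_symm_apply]
  have hclopen : IsClopen {t | AllGood (γ t)} := by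
    constructor
    · rw [← isOpen_compl_iff, isOpen_iff_eventually]
      intro t₀ ht₀
      filter_upwards [key t₀] with t ht ht'
      apply ht₀
      have h1 := ht.inv.mul ht'
      rw [mul_inv_rev, inv_inv, inv_mul_cancel_right] at h1
      exact h1
    · rw [isOpen_iff_eventually]
      intro t₀ ht₀
      filter_upwards [key t₀] with t ht
      have h1 := ht.mul ht₀
      rw [inv_mul_cancel_right] at h1
      exact h1
  have huniv := hclopen.eq_univ ⟨0, h0⟩
  intro t
  have : t ∈ {t | AllGood (γ t)} := by rw [huniv]; exact mem_univ t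
  exact this

end Pool.Agent.H871R2.Sph
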