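import Mathlib
import Pool.Agent.H871R2.Sph.NearId

set_option autoImplicit false
open Complex Set Filter Metric Topology OnePoint
open scoped Real ComplexConjugate

namespace Pool.Agent.H871R2.Sph

/-- the Alexander isotopy -/
noncomputable def alex (κ : ℂ ≃ₜ ℂ) (t : ℝ) : ℂ ≃ₜ ℂ :=
  if h : (t : ℂ) = 0 then Homeomorph.refl ℂ else
    Homeomorph.mulLeft₀ (t : ℂ) h * κ * (Homeomorph.mulLeft₀ (t : ℂ) h)⁻¹

theorem alex_zero (κ : ℂ ≃ₜ ℂ) (z : ℂ) : alex κ 0 z = z := by
  rw [alex, dif_pos (by simp)]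
  rfl

theorem alex_apply (κ : ℂ ≃ₜ ℂ) {t : ℝ} (ht : t ≠ 0) (z : ℂ) :
    alex κ t z = t * κ ((t : ℂ)⁻¹ * z) := by
  rw [alex, dif_neg (by exact_mod_cast ht), Homeomorph.mul_apply, Homeomorph.mul_apply,
    Homeomorph.inv_apply]
  rfl

theorem alex_one (κ : ℂ ≃ₜ ℂ) (z : ℂ) : alex κ 1 z = κ z := by
  rw [alex_apply κ one_ne_zero]
  simp

theorem alex_far {κ : ℂ ≃ₜ ℂ} {R : ℝ} (h : ∀ z, R ≤ ‖z‖ → κ z = z) {t : ℝ} (ht0 : 0 ≤ t)
    (ht1 : t ≤ 1) {z : ℂ} (hz : R ≤ ‖z‖) : alex κ t z = z := by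
  rcases ht0.eq_or_lt with h0 | h0
  · rw [← h0, alex_zero]
  · have hc : (t : ℂ) ≠ 0 := by exact_mod_cast h0.ne'
    rw [alex_apply κ h0.ne', h, mul_inv_cancel_left₀ hc]
    rw [norm_mul, norm_inv, Complex.norm_real, Real.norm_of_nonneg ht0]
    have h1 : 1 ≤ t⁻¹ := (one_le_inv₀ h0).2 ht1
    nlinarith [norm_nonneg z]

theorem alex_continuousAt {κ : ℂ ≃ₜ ℂ} {R : ℝ} (h : ∀ z, R ≤ ‖z‖ → κ z = z)
    (t₀ : unitInterval) (z₀ : ℂ) :
    ContinuousAt (fun p : unitInterval × ℂ => alex κ p.1 p.2) (t₀, z₀) := by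
  by_cases ht : (t₀ : ℝ) = 0
  · obtain ⟨C, hC⟩ := (isCompact_closedBall (0 : ℂ) R).exists_bound_of_continuousOn
      (f := fun z => κ z - z) (κ.continuous.sub continuous_id).continuousOn
    have hC' : ∀ z, ‖κ z - z‖ ≤ max C 0 := by
      intro z
      rcases le_or_gt R ‖z‖ with h1 | h1
      · rw [h z h1, sub_self, norm_zero]
        exact le_max_right _ _
      · exact (hC z (by simpa using h1.le)).trans (le_max_left _ _)
    have hbound : ∀ (t : unitInterval) (z : ℂ), ‖alex κ t z - z‖ ≤ t * max C 0 := by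
      intro t z
      rcases t.2.1.eq_or_lt with h0 | h0
      · rw [← h0, alex_zero, sub_self, norm_zero, zero_mul]
      · have hc : ((t : ℝ) : ℂ) ≠ 0 := by exact_mod_cast h0.ne'
        have h1 : alex κ t z - z = t * (κ ((t : ℂ)⁻¹ * z) - (t : ℂ)⁻¹ * z) := by
          rw [alex_apply κ h0.ne', mul_sub, mul_inv_cancel_left₀ hc]
        rw [h1, norm_mul, Complex.norm_real, Real.norm_of_nonneg h0.le]
        have := hC' ((t : ℂ)⁻¹ * z)
        gcongr
    rw [ContinuousAt, tendsto_iff_norm_sub_tendsto_zero]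
    simp only
    rw [ht, alex_zero]
    have h1 : Tendsto (fun p : unitInterval × ℂ => (p.1 : ℝ) * max C 0 + ‖p.2 - z₀‖)
        (𝓝 (t₀, z₀)) (𝓝 0) := by
      have h2 : Continuous fun p : unitInterval × ℂ => (p.1 : ℝ) * max C 0 + ‖p.2 - z₀‖ := by
        fun_prop
      have h3 := h2.tendsto (t₀, z₀)
      simp only [ht, zero_mul, sub_self, norm_zero, add_zero] at h3
      exact h3
    apply squeeze_zero (fun p => norm_nonneg _) _ h1
    intro p
    have h2 : alex κ p.1 p.2 - z₀ = (alex κ p.1 p.2 - p.2) + (p.2 - z₀) := by ring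
    rw [h2]
    refine (norm_add_le _ _).trans ?_
    have := hbound p.1 p.2
    gcongr
  · have hc : ((t₀ : ℝ) : ℂ) ≠ 0 := by exact_mod_cast ht
    have h1 : ContinuousAt (fun p : unitInterval × ℂ => ((p.1 : ℝ) : ℂ)) (t₀, z₀) := by
      apply Continuous.continuousAt
      fun_prop
    have h2 : ContinuousAt (fun p : unitInterval × ℂ =>
        ((p.1 : ℝ) : ℂ) * κ (((p.1 : ℝ) : ℂ)⁻¹ * p.2)) (t₀, z₀) := by
      apply h1.mul
      apply ContinuousAt.comp (g := κ) κ.continuous.continuousAt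
      exact (h1.inv₀ hc).mul continuous_snd.continuousAt
    apply h2.congr
    have h3 : ∀ᶠ p : unitInterval × ℂ in 𝓝 (t₀, z₀), (p.1 : ℝ) ≠ 0 := by
      have h4 : ContinuousAt (fun p : unitInterval × ℂ => (p.1 : ℝ)) (t₀, z₀) := by
        apply Continuous.continuousAt
        fun_prop
      exact h4.eventually_ne ht
    filter_upwards [h3] with p hp
    exact (alex_apply κ hp p.2).symm

theorem alex_joint {κ : ℂ ≃ₜ ℂ} (h : ∃ R : ℝ, ∀ z, R ≤ ‖z‖ → κ z = z) :
    Continuous fun p : unitInterval × OnePoint ℂ => lift (alex κ p.1) p.2 := by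
  obtain ⟨R, hR⟩ := h
  rw [continuous_iff_continuousAt]
  rintro ⟨t₀, x₀⟩
  induction x₀ using OnePoint.rec with
  | infty =>
    have h1 : ∀ᶠ y in 𝓝 (∞ : OnePoint ℂ), ∀ t : unitInterval, lift (alex κ t) y = y := by
      rw [OnePoint.nhds_infty_eq, eventually_sup, eventually_map,
        Filter.coclosedCompact_eq_cocompact, ← Metric.cobounded_eq_cocompact]
      refine ⟨?_, ?_⟩
      · have h2 : Tendsto (norm : ℂ → ℝ) (Bornology.cobounded ℂ) atTop :=
          tendsto_norm_cobounded_atTop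
        filter_upwards [h2.eventually_ge_atTop R] with z hz t
        rw [lift_coe, alex_far hR t.2.1 t.2.2 hz]
      · simp
    have h2 : ∀ᶠ p : unitInterval × OnePoint ℂ in 𝓝 (t₀, ∞), p.2 = lift (alex κ p.1) p.2 := by
      filter_upwards [(continuous_snd.tendsto (t₀, (∞ : OnePoint ℂ))).eventually h1] with p hp
      exact (hp p.1).symm
    exact (continuous_snd.continuousAt).congr h2
  | coe z₀ =>
    have h1 : IsOpenEmbedding (Prod.map (id : unitInterval → unitInterval)
        ((↑) : ℂ → OnePoint ℂ)) := IsOpenEmbedding.id.prodMap OnePoint.isOpenEmbedding_coe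
    have h2 := (h1.continuousAt_iff (g := fun p : unitInterval × OnePoint ℂ =>
      lift (alex κ p.1) p.2) (x := (t₀, z₀))).1
    apply h2
    exact ContinuousAt.comp (g := ((↑) : ℂ → OnePoint ℂ)) OnePoint.continuous_coe.continuousAt
      (alex_continuousAt hR t₀ z₀)

/-- compactly supported homeomorphisms of the plane have good germs everywhere -/
theorem allGood_lift {κ : ℂ ≃ₜ ℂ} (h : ∃ R : ℝ, ∀ z, R ≤ ‖z‖ → κ z = z) : AllGood (lift κ) := by
  have h1 := allGood_of_isotopy (γ := fun t => lift (alex κ t)) (alex_joint h) (by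
    have : lift (alex κ (0 : unitInterval)) = 1 := by
      ext x
      induction x using OnePoint.rec with
      | infty => rfl
      | coe z => rw [lift_coe]; simp [alex_zero]
    rw [this]
    exact AllGood.one) 1
  have h2 : lift (alex κ (1 : unitInterval)) = lift κ := by
    ext x
    induction x using OnePoint.rec with
    | infty => rfl
    | coe z => rw [lift_coe]; simp [alex_one]
  rwa [h2] at h1

theorem allGood_loc (x : OnePoint ℂ) : AllGood (loc x) := by
  induction x using OnePoint.rec with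
  | infty => exact allGood_iota
  | coe a =>
    have h : loc (a : OnePoint ℂ) = tau (-a) := by
      ext y
      induction y using OnePoint.rec with
      | infty => rfl
      | coe z => rw [loc_coe, tau_coe, sub_eq_add_neg]
    rw [h]
    exact allGood_tau _

end Pool.Agent.H871R2.Sph
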