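import Mathlib
import Pool.Agent.H871R2.Sph.Alex

set_option autoImplicit false
open Complex Set Filter Metric Topology OnePoint
open scoped Real ComplexConjugate

namespace Pool.Agent.H871R2.Sph

/-- `u` is the identity outside `U` -/
def SuppIn (U : Set ℂ) (u : OnePoint ℂ ≃ₜ OnePoint ℂ) : Prop :=
  ∀ x, x ∉ ((↑) : ℂ → OnePoint ℂ) '' U → u x = x

theorem SuppIn.mul {U : Set ℂ} {u v : OnePoint ℂ ≃ₜ OnePoint ℂ} (hu : SuppIn U u)
    (hv : SuppIn U v) : SuppIn U (u * v) := by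
  intro x hx
  rw [Homeomorph.mul_apply, hv x hx, hu x hx]

theorem SuppIn.inv {U : Set ℂ} {u : OnePoint ℂ ≃ₜ OnePoint ℂ} (hu : SuppIn U u) :
    SuppIn U u⁻¹ := by
  intro x hx
  rw [Homeomorph.inv_apply, Homeomorph.symm_apply_eq, hu x hx]

theorem SuppIn.mono {U V : Set ℂ} {u : OnePoint ℂ ≃ₜ OnePoint ℂ} (hu : SuppIn U u) (h : U ⊆ V) :
    SuppIn V u := fun x hx => hu x fun hx' => hx (image_mono h hx')

theorem SuppIn.one {U : Set ℂ} : SuppIn U 1 := fun _ _ => rfl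

theorem exists_mover {a v : ℂ} {δ : ℝ} (hδ : 0 < δ) (hv : ‖v‖ < δ / 4) :
    ∃ κ : ℂ ≃ₜ ℂ, κ a = a + v ∧ (∀ z, 2 * δ ≤ ‖z - a‖ → κ z = z) ∧ AllGood (lift κ) := by
  have hk : δ⁻¹ * ‖v‖ < 1 / 4 := by
    rw [inv_mul_lt_iff₀ hδ]
    linarith
  set k : NNReal := ⟨δ⁻¹ * ‖v‖, by positivity⟩ with hkdef
  have hkc : (k : ℝ) = δ⁻¹ * ‖v‖ := rfl
  have hlip : LipschitzWith k (fun z => (cut δ (z - a) : ℂ) * v) := by
    apply LipschitzWith.of_dist_le_mul
    intro x y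
    rw [dist_eq_norm, dist_eq_norm, ← sub_mul, norm_mul, ← Complex.ofReal_sub, Complex.norm_real,
      Real.norm_eq_abs, hkc]
    have h1 := cut_lip hδ (x - a) (y - a)
    rw [sub_sub_sub_cancel_right] at h1
    calc |cut δ (x - a) - cut δ (y - a)| * ‖v‖ ≤ (δ⁻¹ * ‖x - y‖) * ‖v‖ := by gcongr
      _ = δ⁻¹ * ‖v‖ * ‖x - y‖ := by ring
  obtain ⟨κ, hκ⟩ := exists_perturb _ k (by
    rw [← NNReal.coe_lt_coe, hkc]; push_cast; linarith) hlip
  have hfar : ∀ z, 2 * δ ≤ ‖z - a‖ → κ z = z := by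
    intro z hz
    rw [hκ, cut_eq_zero hδ hz, Complex.ofReal_zero, zero_mul, add_zero]
  refine ⟨κ, ?_, hfar, ?_⟩
  · rw [hκ, sub_self, cut_eq_one hδ (by simpa using hδ.le), Complex.ofReal_one, one_mul]
  · intro x
    induction x using OnePoint.rec with
    | infty =>
      apply good_lift_inf
      refine ⟨2 * δ + ‖a‖, fun z hz => hfar z ?_⟩
      have := norm_sub_norm_le z a
      linarith
    | coe b =>
      apply good_lift
      have h0 : κ (0 + b) - κ b = 0 := by rw [zero_add, sub_self]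
      refine ⟨h0, ?_⟩
      have h1 : LipschitzOnWith k (fun z => κ (z + b) - κ b - z) (closedBall 0 (2 * 1)) := by
        apply LipschitzOnWith.of_dist_le_mul
        intro x _ y _
        have h2 := hlip.dist_le_mul (x + b) (y + b)
        rw [dist_eq_norm, dist_eq_norm, add_sub_add_right_eq_sub] at h2
        rw [dist_eq_norm, dist_eq_norm]
        have h3 : κ (x + b) - κ b - x - (κ (y + b) - κ b - y) =
            (cut δ (x + b - a) : ℂ) * v - (cut δ (y + b - a) : ℂ) * v := by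
          rw [hκ (x + b), hκ (y + b)]
          ring
        rw [h3]
        exact h2
      have h2 := cut_mul_lip one_pos (h := fun z => κ (z + b) - κ b - z) (by simp) h1
      obtain ⟨κ', hκ'⟩ := exists_perturb _ _ (by
        rw [← NNReal.coe_lt_coe]; push_cast; rw [hkc]; linarith) h2
      refine ⟨κ', ?_, 2 * 1, ?_⟩
      · filter_upwards [closedBall_mem_nhds (0 : ℂ) one_pos] with z hz
        rw [mem_closedBall, dist_zero_right] at hz
        rw [hκ', cut_eq_one one_pos hz, Complex.ofReal_one, one_mul]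
        ring
      · intro z hz
        rw [hκ', cut_eq_zero one_pos hz, Complex.ofReal_zero, zero_mul, add_zero]

theorem exists_move {U : Set ℂ} (hU : IsOpen U) (hc : IsPreconnected U) {x y : ℂ} (hx : x ∈ U)
    (hy : y ∈ U) : ∃ w : OnePoint ℂ ≃ₜ OnePoint ℂ, AllGood w ∧ SuppIn U w ∧
      w (x : OnePoint ℂ) = (y : OnePoint ℂ) := by
  apply hc.induction₂ (fun x y : ℂ => ∃ w : OnePoint ℂ ≃ₜ OnePoint ℂ, AllGood w ∧ SuppIn U w ∧
      w (x : OnePoint ℂ) = (y : OnePoint ℂ)) _ _ _ hx hy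
  · intro x hx
    obtain ⟨r, hr, hrU⟩ := Metric.isOpen_iff.1 hU x hx
    apply eventually_nhdsWithin_of_eventually_nhds
    filter_upwards [ball_mem_nhds x (show (0 : ℝ) < r / 8 by positivity)] with y hy
    have hyx : ‖y - x‖ < (r / 2) / 4 := by
      rw [mem_ball, dist_eq_norm] at hy
      linarith
    obtain ⟨κ, h1, h2, h3⟩ := exists_mover (a := x) (half_pos hr) hyx
    refine ⟨lift κ, h3, ?_, ?_⟩
    · intro z hz
      induction z using OnePoint.rec with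
      | infty => rfl
      | coe z =>
        rw [lift_coe, h2]
        by_contra hcon
        push Not at hcon
        apply hz
        refine ⟨z, hrU ?_, rfl⟩
        rw [mem_ball, dist_eq_norm]
        linarith
    · rw [lift_coe, h1, add_sub_cancel]
  · rintro x y z _ _ _ ⟨w, h1, h2, h3⟩ ⟨w', h1', h2', h3'⟩
    exact ⟨w' * w, h1'.mul h1, h2'.mul h2, by rw [Homeomorph.mul_apply, h3, h3']⟩
  · rintro x y _ _ ⟨w, h1, h2, h3⟩
    refine ⟨w⁻¹, h1.inv, h2.inv, ?_⟩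
    rw [Homeomorph.inv_apply, Homeomorph.symm_apply_eq, h3]

theorem extend_germ {U : Set ℂ} (hU : IsOpen U) (hc : IsPreconnected U)
    {g g' : OnePoint ℂ ≃ₜ OnePoint ℂ} (hg : AllGood g) (hg' : AllGood g')
    (h1 : g ((0 : ℂ) : OnePoint ℂ) ∈ ((↑) : ℂ → OnePoint ℂ) '' U)
    (h2 : g' ((0 : ℂ) : OnePoint ℂ) ∈ ((↑) : ℂ → OnePoint ℂ) '' U) :
    ∃ v : OnePoint ℂ ≃ₜ OnePoint ℂ, AllGood v ∧ SuppIn U v ∧
      ∀ᶠ z : ℂ in 𝓝 0, v (g (z : OnePoint ℂ)) = g' (z : OnePoint ℂ) := by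
  obtain ⟨x, hx, hgx⟩ := h1
  obtain ⟨x', hx', hgx'⟩ := h2
  obtain ⟨w, hw1, hw2, hw3⟩ := exists_move hU hc hx hx'
  set f : OnePoint ℂ ≃ₜ OnePoint ℂ := g' * (w * g)⁻¹ with hf
  have hfG : AllGood f := hg'.mul (hw1.mul hg).inv
  have hfx : f (x' : OnePoint ℂ) = (x' : OnePoint ℂ) := by
    have h3 : (w * g) ((0 : ℂ) : OnePoint ℂ) = (x' : OnePoint ℂ) := by
      rw [Homeomorph.mul_apply, ← hgx, hw3]
    have h3' : (w * g).symm (x' : OnePoint ℂ) = ((0 : ℂ) : OnePoint ℂ) := by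
      rw [Homeomorph.symm_apply_eq, h3]
    rw [hf, Homeomorph.mul_apply, Homeomorph.inv_apply, h3', hgx']
  obtain ⟨κ, k1, k2, k3⟩ := hfG (x' : OnePoint ℂ)
  rw [hfx] at k3
  obtain ⟨r, hr, hrU⟩ := Metric.isOpen_iff.1 hU x' hx'
  obtain ⟨κ', k4, k5⟩ := Ext.small (f := κ) ⟨k1, κ, Eventually.of_forall fun _ => rfl, k2⟩ hr
  set ρ : OnePoint ℂ ≃ₜ OnePoint ℂ :=
    (loc (x' : OnePoint ℂ))⁻¹ * lift κ' * loc (x' : OnePoint ℂ) with hρ
  have hρU : SuppIn U ρ := by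
    intro y hy
    rw [hρ, Homeomorph.mul_apply, Homeomorph.mul_apply, Homeomorph.inv_apply,
      Homeomorph.symm_apply_eq]
    induction y using OnePoint.rec with
    | infty => rw [loc_coe_inf, lift_inf]
    | coe b =>
      rw [loc_coe, lift_coe, k5]
      by_contra hcon
      push Not at hcon
      apply hy
      refine ⟨b, hrU ?_, rfl⟩
      rw [mem_ball, dist_eq_norm]
      exact hcon
  have hρG : AllGood ρ := by
    have hk : AllGood (lift κ') := allGood_lift ⟨r, k5⟩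
    exact ((allGood_loc _).inv.mul hk).mul (allGood_loc _)
  refine ⟨ρ * w, hρG.mul hw1, hρU.mul hw2, ?_⟩
  have h4 : ∀ᶠ y in 𝓝 (x' : OnePoint ℂ), ρ y = f y := by
    have h5 : ∀ᶠ u in 𝓝 ((0 : ℂ) : OnePoint ℂ), lift κ' u = lift κ u := by
      rw [OnePoint.nhds_coe_eq, eventually_map]
      filter_upwards [k4] with z hz
      rw [lift_coe, lift_coe, hz]
    have h6 : Tendsto (loc (x' : OnePoint ℂ)) (𝓝 (x' : OnePoint ℂ)) (𝓝 ((0 : ℂ) : OnePoint ℂ)) := by
      have := (loc (x' : OnePoint ℂ)).continuous.tendsto (x' : OnePoint ℂ)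
      rwa [loc_self] at this
    filter_upwards [h6.eventually h5, k3] with y hy hy'
    rw [hρ, Homeomorph.mul_apply, Homeomorph.mul_apply, Homeomorph.inv_apply,
      Homeomorph.symm_apply_eq, hy, hy']
  have h7 : Tendsto (fun z : ℂ => w (g (z : OnePoint ℂ))) (𝓝 0) (𝓝 (x' : OnePoint ℂ)) := by
    have := (w.continuous.comp (g.continuous.comp OnePoint.continuous_coe)).tendsto (0 : ℂ)
    rwa [Function.comp_apply, Function.comp_apply, ← hgx, hw3] at this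
  filter_upwards [h7.eventually h4] with z hz
  rw [Homeomorph.mul_apply, hz, hf, Homeomorph.mul_apply, Homeomorph.inv_apply]
  congr 1
  rw [Homeomorph.symm_apply_eq, Homeomorph.mul_apply]

theorem exists_shrink_img {U : Set ℂ} (hU : IsOpen U) {g : OnePoint ℂ ≃ₜ OnePoint ℂ}
    (hg : AllGood g)
    (h1 : ∀ z : ℂ, ‖z‖ ≤ 1 → g (z : OnePoint ℂ) ∈ ((↑) : ℂ → OnePoint ℂ) '' U) {ε : ℝ}
    (hε : 0 < ε) (hε1 : ε < 1) : ∃ σ : OnePoint ℂ ≃ₜ OnePoint ℂ, AllGood σ ∧ SuppIn U σ ∧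
      ∀ z : ℂ, ‖z‖ ≤ 1 → σ (g (z : OnePoint ℂ)) = g ((ε * z : ℂ) : OnePoint ℂ) := by
  have hV : IsOpen ((fun z : ℂ => g (z : OnePoint ℂ)) ⁻¹' (((↑) : ℂ → OnePoint ℂ) '' U)) :=
    (OnePoint.isOpenMap_coe _ hU).preimage (g.continuous.comp OnePoint.continuous_coe)
  obtain ⟨δ, hδ, hδV⟩ := (isCompact_closedBall (0 : ℂ) 1).exists_thickening_subset_open hV
    (fun z hz => h1 z (by simpa using hz))
  rw [thickening_closedBall hδ zero_le_one] at hδV
  obtain ⟨s, hs1, hs2⟩ := exists_shrink hε hε1 hδ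
  refine ⟨g * lift s * g⁻¹, (hg.mul (allGood_lift ⟨1 + δ, hs2⟩)).mul hg.inv, ?_, ?_⟩
  · intro y hy
    rw [Homeomorph.mul_apply, Homeomorph.mul_apply, Homeomorph.inv_apply]
    have h2 : lift s (g.symm y) = g.symm y := by
      generalize hu : g.symm y = u
      induction u using OnePoint.rec with
      | infty => rfl
      | coe b =>
        rw [lift_coe, hs2]
        by_contra hcon
        push Not at hcon
        apply hy
        rw [Homeomorph.symm_apply_eq] at hu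
        rw [hu]
        exact hδV (show b ∈ ball (0 : ℂ) (δ + 1) by simpa [add_comm] using hcon)
    rw [h2, Homeomorph.apply_symm_apply]
  · intro z hz
    rw [Homeomorph.mul_apply, Homeomorph.mul_apply, Homeomorph.inv_apply,
      Homeomorph.symm_apply_apply, lift_coe, hs1 z hz]

/-- extension of a map between embedded discs -/
theorem extend {U : Set ℂ} (hU : IsOpen U) (hc : IsPreconnected U)
    {g g' : OnePoint ℂ ≃ₜ OnePoint ℂ} (hg : AllGood g) (hg' : AllGood g')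
    (h1 : ∀ z : ℂ, ‖z‖ ≤ 1 → g (z : OnePoint ℂ) ∈ ((↑) : ℂ → OnePoint ℂ) '' U)
    (h2 : ∀ z : ℂ, ‖z‖ ≤ 1 → g' (z : OnePoint ℂ) ∈ ((↑) : ℂ → OnePoint ℂ) '' U) :
    ∃ u : OnePoint ℂ ≃ₜ OnePoint ℂ, AllGood u ∧ SuppIn U u ∧
      ∀ z : ℂ, ‖z‖ ≤ 1 → u (g (z : OnePoint ℂ)) = g' (z : OnePoint ℂ) := by
  obtain ⟨v, hvG, hv1, hv2⟩ := extend_germ hU hc hg hg' (h1 0 (by simp)) (h2 0 (by simp))
  obtain ⟨r, hr, hrv⟩ := Metric.eventually_nhds_iff_ball.1 hv2
  set ε : ℝ := min (r / 2) (1 / 2) with hε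
  have hε0 : 0 < ε := by positivity
  have hε1 : ε < 1 := (min_le_right _ _).trans_lt (by norm_num)
  obtain ⟨σ, s0, s1, s2⟩ := exists_shrink_img hU hg h1 hε0 hε1
  obtain ⟨σ', s0', s1', s2'⟩ := exists_shrink_img hU hg' h2 hε0 hε1
  refine ⟨σ'⁻¹ * v * σ, (s0'.inv.mul hvG).mul s0, (s1'.inv.mul hv1).mul s1, ?_⟩
  intro z hz
  rw [Homeomorph.mul_apply, Homeomorph.mul_apply, Homeomorph.inv_apply, Homeomorph.symm_apply_eq,
    s2 z hz, s2' z hz]
  apply hrv
  rw [mem_ball, dist_zero_right, norm_mul, Complex.norm_real, Real.norm_of_nonneg hε0.le]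
  have h3 : ε ≤ r / 2 := min_le_left _ _
  nlinarith [norm_nonneg z]

end Pool.Agent.H871R2.Sph
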