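import Mathlib

set_option autoImplicit false
open Set Filter Topology

namespace Pool.Agent.H871R2.Sph

variable {X : Type*} [TopologicalSpace X]

/-- two homeomorphisms with a common attracting basin `O` -/
structure LoxData (L m : X ≃ₜ X) (O : Set X) (q p : X) : Prop where
  opn : IsOpen O
  qO : q ∉ O
  pO : p ∉ O
  Lq : L q = q
  mp : m p = p
  eq : ∀ x ∈ O, L x = m x
  inv : ∀ x ∈ O, L x ∈ O
  Lex : ∀ x, x ≠ q → ∃ n : ℕ, (L ^ n) x ∈ O
  mex : ∀ x, x ≠ p → ∃ n : ℕ, (m ^ n) x ∈ O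

variable {L m : X ≃ₜ X} {O : Set X} {q p : X}

theorem LoxData.symm (h : LoxData L m O q p) : LoxData m L O p q :=
  ⟨h.opn, h.pO, h.qO, h.mp, h.Lq, fun x hx => (h.eq x hx).symm,
    fun x hx => by rw [← h.eq x hx]; exact h.inv x hx, h.mex, h.Lex⟩

open Classical in
/-- the conjugating map -/
noncomputable def loxMap (L m : X ≃ₜ X) (O : Set X) (p : X) (x : X) : X :=
  if h : ∃ n : ℕ, (L ^ n) x ∈ O then ((m ^ Nat.find h)⁻¹ : X ≃ₜ X) ((L ^ Nat.find h) x) else p

theorem LoxData.pow_q (h : LoxData L m O q p) (n : ℕ) : (L ^ n) q = q := by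
  induction n with
  | zero => rfl
  | succ n ih => rw [pow_succ', Homeomorph.mul_apply, ih, h.Lq]

theorem LoxData.map_q (h : LoxData L m O q p) : loxMap L m O p q = p := by
  rw [loxMap, dif_neg]
  rintro ⟨n, hn⟩
  rw [h.pow_q] at hn
  exact h.qO hn

theorem LoxData.pow_add (h : LoxData L m O q p) {x : X} (hx : x ∈ O) (i : ℕ) :
    (L ^ i) x = (m ^ i) x ∧ (L ^ i) x ∈ O := by
  induction i with
  | zero => exact ⟨rfl, hx⟩
  | succ i ih =>
    rw [pow_succ', pow_succ', Homeomorph.mul_apply, Homeomorph.mul_apply, ← ih.1, h.eq _ ih.2]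
    refine ⟨rfl, ?_⟩
    rw [← h.eq _ ih.2]
    exact h.inv _ ih.2

theorem LoxData.step (h : LoxData L m O q p) {x : X} {n : ℕ} (hn : (L ^ n) x ∈ O) (i : ℕ) :
    ((m ^ (n + i))⁻¹ : X ≃ₜ X) ((L ^ (n + i)) x) = ((m ^ n)⁻¹ : X ≃ₜ X) ((L ^ n) x) := by
  have h1 : (L ^ (n + i)) x = (m ^ i) ((L ^ n) x) := by
    rw [add_comm, _root_.pow_add, Homeomorph.mul_apply, (h.pow_add hn i).1]
  rw [h1, Homeomorph.inv_apply, Homeomorph.symm_apply_eq, add_comm, _root_.pow_add,
    Homeomorph.mul_apply, Homeomorph.inv_apply, Homeomorph.apply_symm_apply]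

theorem LoxData.map_eq (h : LoxData L m O q p) {x : X} {n : ℕ} (hn : (L ^ n) x ∈ O) :
    loxMap L m O p x = ((m ^ n)⁻¹ : X ≃ₜ X) ((L ^ n) x) := by
  classical
  have hex : ∃ n : ℕ, (L ^ n) x ∈ O := ⟨n, hn⟩
  rw [loxMap, dif_pos hex]
  obtain ⟨i, hi⟩ := Nat.exists_eq_add_of_le (Nat.find_min' hex hn)
  rw [hi, h.step (Nat.find_spec hex)]

theorem LoxData.map_map (h : LoxData L m O q p) (x : X) :
    loxMap m L O q (loxMap L m O p x) = x := by
  by_cases hx : x = q
  · rw [hx, h.map_q, h.symm.map_q]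
  · obtain ⟨n, hn⟩ := h.Lex x hx
    have h1 := h.map_eq hn
    have h2 : (m ^ n) (loxMap L m O p x) = (L ^ n) x := by
      rw [h1, Homeomorph.inv_apply, Homeomorph.apply_symm_apply]
    have h3 : (m ^ n) (loxMap L m O p x) ∈ O := by rw [h2]; exact hn
    rw [h.symm.map_eq h3, h2, Homeomorph.inv_apply, Homeomorph.symm_apply_apply]

theorem LoxData.continuousAt (h : LoxData L m O q p) {x : X} (hx : x ≠ q) :
    ContinuousAt (loxMap L m O p) x := by
  obtain ⟨n, hn⟩ := h.Lex x hx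
  have h1 : ContinuousAt (fun x => ((m ^ n)⁻¹ : X ≃ₜ X) ((L ^ n) x)) x :=
    (((m ^ n)⁻¹ : X ≃ₜ X).continuous.comp (L ^ n).continuous).continuousAt
  apply h1.congr
  have h2 : (L ^ n) ⁻¹' O ∈ 𝓝 x := (h.opn.preimage (L ^ n).continuous).mem_nhds hn
  filter_upwards [h2] with y hy
  exact (h.map_eq hy).symm

theorem LoxData.continuous [CompactSpace X] [T2Space X] (h : LoxData L m O q p) : Continuous (loxMap L m O p) := by
  rw [continuous_iff_continuousAt]
  intro x
  by_cases hx : x = q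
  · rw [hx, ContinuousAt, h.map_q, tendsto_def]
    intro V hV
    obtain ⟨W, hWV, hW, hpW⟩ := mem_nhds_iff.1 hV
    have hK : IsCompact (loxMap m L O q '' Wᶜ) := by
      apply hW.isClosed_compl.isCompact.image_of_continuousOn
      intro y hy
      apply ContinuousAt.continuousWithinAt
      apply h.symm.continuousAt
      rintro rfl
      exact hy hpW
    have hq : q ∉ loxMap m L O q '' Wᶜ := by
      rintro ⟨y, hy, hyq⟩
      apply hy
      have h1 := h.symm.map_map y
      rw [hyq, h.map_q] at h1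
      rw [← h1]
      exact hpW
    filter_upwards [hK.isClosed.isOpen_compl.mem_nhds hq] with x hx
    apply hWV
    by_contra hcon
    exact hx ⟨_, hcon, h.map_map x⟩
  · exact h.continuousAt hx

theorem LoxData.exists_conj [CompactSpace X] [T2Space X] (h : LoxData L m O q p) : ∃ k : X ≃ₜ X, ∀ x, k (L x) = m (k x) := by
  refine ⟨{ toFun := loxMap L m O p
            invFun := loxMap m L O q
            left_inv := h.map_map
            right_inv := h.symm.map_map
            continuous_toFun := h.continuous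
            continuous_invFun := h.symm.continuous }, ?_⟩
  intro x
  show loxMap L m O p (L x) = m (loxMap L m O p x)
  by_cases hx : x = q
  · rw [hx, h.Lq, h.map_q, h.mp]
  · obtain ⟨n, hn⟩ := h.Lex x hx
    have h1 : (L ^ n) (L x) = L ((L ^ n) x) := by
      rw [← Homeomorph.mul_apply, ← Homeomorph.mul_apply, ← pow_succ, ← pow_succ']
    have h2 : (L ^ n) (L x) ∈ O := by rw [h1]; exact h.inv _ hn
    have h3 : ∀ y, (m ^ n) (m y) = m ((m ^ n) y) := by
      intro y
      rw [← Homeomorph.mul_apply, ← Homeomorph.mul_apply, ← pow_succ, ← pow_succ']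
    rw [h.map_eq h2, h.map_eq hn, h1, h.eq _ hn, Homeomorph.inv_apply, Homeomorph.symm_apply_eq,
      Homeomorph.inv_apply, h3, Homeomorph.apply_symm_apply]

theorem LoxData.conj [CompactSpace X] [T2Space X] (h : LoxData L m O q p) : ∃ k : X ≃ₜ X, L = k * m * k⁻¹ := by
  obtain ⟨k, hk⟩ := h.exists_conj
  refine ⟨k⁻¹, ?_⟩
  ext x
  rw [inv_inv, Homeomorph.mul_apply, Homeomorph.mul_apply, Homeomorph.inv_apply,
    Homeomorph.eq_symm_apply, hk]

end Pool.Agent.H871R2.Sph
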