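import Mathlib
import Pool.Agent.H871R2.Sph.Extend
import Pool.Agent.H871R2.Sph.Lox

set_option autoImplicit false
open Complex Set Filter Metric Topology OnePoint
open scoped Real ComplexConjugate

namespace Pool.Agent.H871R2.Sph

/-- the open unit disc -/
def oD : Set (OnePoint ℂ) := ((↑) : ℂ → OnePoint ℂ) '' ball 0 1

/-- the closed unit disc -/
def cD : Set (OnePoint ℂ) := ((↑) : ℂ → OnePoint ℂ) '' closedBall 0 1

theorem mem_oD {z : ℂ} : (z : OnePoint ℂ) ∈ oD ↔ ‖z‖ < 1 := by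
  rw [oD, OnePoint.coe_injective.mem_set_image, mem_ball, dist_zero_right]

theorem mem_cD {z : ℂ} : (z : OnePoint ℂ) ∈ cD ↔ ‖z‖ ≤ 1 := by
  rw [cD, OnePoint.coe_injective.mem_set_image, mem_closedBall, dist_zero_right]

theorem inf_oD : ∞ ∉ oD := OnePoint.infty_notMem_image_coe

theorem inf_cD : ∞ ∉ cD := OnePoint.infty_notMem_image_coe

theorem oD_sub : oD ⊆ cD := image_mono ball_subset_closedBall

theorem isOpen_oD : IsOpen oD := OnePoint.isOpenMap_coe _ isOpen_ball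

theorem exists_R {U : Set (OnePoint ℂ)} (hU : U ∈ 𝓝 (∞ : OnePoint ℂ)) :
    ∃ R : ℝ, 0 < R ∧ ∞ ∈ U ∧ ∀ z : ℂ, R ≤ ‖z‖ → (z : OnePoint ℂ) ∈ U := by
  have h1 := tendsto_coe_cobounded hU
  rw [mem_map] at h1
  obtain ⟨r, -, hr⟩ := (Metric.hasBasis_cobounded_compl_closedBall (0 : ℂ)).mem_iff.1 h1
  refine ⟨max r 0 + 1, by positivity, mem_of_mem_nhds hU, fun z hz => ?_⟩
  apply hr
  rw [mem_compl_iff, mem_closedBall, dist_zero_right, not_le]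
  have := le_max_left r 0
  linarith

theorem sep {X : Type*} [TopologicalSpace X] [T2Space X] {f g : X → X} {x : X}
    (hf : ContinuousAt f x) (hg : ContinuousAt g x) (h : f x ≠ g x) :
    ∃ U ∈ 𝓝 x, ∀ y ∈ U, ∀ z ∈ U, f y ≠ g z := by
  obtain ⟨V, W, hV, hW, hfV, hgW, hd⟩ := t2_separation h
  refine ⟨f ⁻¹' V ∩ g ⁻¹' W, inter_mem (hf (hV.mem_nhds hfV)) (hg (hW.mem_nhds hgW)), ?_⟩
  rintro y ⟨hy, _⟩ z ⟨_, hz⟩ hyz
  exact disjoint_left.1 hd hy (by rw [hyz]; exact hz)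

theorem normA {A : OnePoint ℂ ≃ₜ OnePoint ℂ} {p : OnePoint ℂ} (hp : A p ≠ p) :
    ∃ φ : OnePoint ℂ ≃ₜ OnePoint ℂ, AllGood φ ∧ (∀ x, x ∉ oD → (φ * A * φ⁻¹) x ∈ oD) ∧
      (A (A p) ≠ p → ∀ x, x ∉ oD → (φ * A * φ⁻¹) ((φ * A * φ⁻¹) x) ∈ oD) := by
  set φ₀ : OnePoint ℂ ≃ₜ OnePoint ℂ := iota * loc p with hφ₀
  have hφp : φ₀ p = ∞ := by rw [hφ₀, Homeomorph.mul_apply, loc_self, iota_zero]
  have hφi : φ₀.symm ∞ = p := by rw [Homeomorph.symm_apply_eq, hφp]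
  set A' : OnePoint ℂ ≃ₜ OnePoint ℂ := φ₀ * A * φ₀⁻¹ with hA'
  have hA'x : ∀ x, A' x = φ₀ (A (φ₀.symm x)) := fun x => rfl
  have h1 : A' ∞ ≠ ∞ := by
    rw [hA'x, hφi]
    intro h
    rw [← hφp] at h
    exact hp (φ₀.injective h)
  obtain ⟨U, hU, hU2⟩ := sep (g := fun x => x) A'.continuous.continuousAt continuousAt_id h1
  obtain ⟨U', hU', hU2'⟩ : ∃ U' ∈ 𝓝 (∞ : OnePoint ℂ), A (A p) ≠ p →
      ∀ y ∈ U', ∀ z ∈ U', A' (A' y) ≠ z := by
    by_cases h : A (A p) ≠ p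
    · have h2 : A' (A' ∞) ≠ ∞ := by
        rw [hA'x, hA'x, hφi, Homeomorph.symm_apply_apply]
        intro h'
        rw [← hφp] at h'
        exact h (φ₀.injective h')
      obtain ⟨U', hU', hU2'⟩ := sep (f := fun x => A' (A' x)) (g := fun x => x)
        (A'.continuous.comp A'.continuous).continuousAt continuousAt_id h2
      exact ⟨U', hU', fun _ => hU2'⟩
    · exact ⟨univ, univ_mem, fun h' => absurd h' h⟩
  obtain ⟨R, hR, hinf, hfar⟩ := exists_R (inter_mem hU hU')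
  have hRc : (R : ℂ) ≠ 0 := by exact_mod_cast hR.ne'
  have hc : ((R : ℂ)⁻¹) ≠ 0 := inv_ne_zero hRc
  set m : OnePoint ℂ ≃ₜ OnePoint ℂ := mu (R : ℂ)⁻¹ hc with hm
  have hms : ∀ x, x ∉ oD → m.symm x ∈ U ∩ U' := by
    intro x hx
    induction x using OnePoint.rec with
    | infty =>
      have : m.symm ∞ = ∞ := by rw [Homeomorph.symm_apply_eq, hm, mu_inf]
      rw [this]; exact hinf
    | coe z =>
      have : m.symm (z : OnePoint ℂ) = ((R * z : ℂ) : OnePoint ℂ) := by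
        rw [Homeomorph.symm_apply_eq, hm, mu_coe, inv_mul_cancel_left₀ hRc]
      rw [this]
      apply hfar
      rw [mem_oD, not_lt] at hx
      rw [norm_mul, Complex.norm_real, Real.norm_of_nonneg hR.le]
      nlinarith
  refine ⟨m * φ₀, (allGood_mu _ _).mul (allGood_iota.mul (allGood_loc p)), ?_, ?_⟩
  · intro x hx
    have e1 : (m * φ₀ * A * (m * φ₀)⁻¹) x = m (A' (m.symm x)) := rfl
    rw [e1]
    by_contra hcon
    have h2 := hms _ hcon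
    rw [Homeomorph.symm_apply_apply] at h2
    exact hU2 _ (hms x hx).1 _ h2.1 rfl
  · intro hne x hx
    have e1 : (m * φ₀ * A * (m * φ₀)⁻¹) ((m * φ₀ * A * (m * φ₀)⁻¹) x) =
        m (A' (m.symm (m (A' (m.symm x))))) := rfl
    rw [e1, Homeomorph.symm_apply_apply]
    by_contra hcon
    have h2 := hms _ hcon
    rw [Homeomorph.symm_apply_apply] at h2
    exact hU2' hne _ (hms x hx).2 _ h2.2 rfl

theorem normB {B : OnePoint ℂ ≃ₜ OnePoint ℂ} {p : OnePoint ℂ} (hp : B p ≠ p) :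
    ∃ ψ : OnePoint ℂ ≃ₜ OnePoint ℂ, AllGood ψ ∧ (∀ x, x ∈ cD → (ψ * B * ψ⁻¹) x ∉ cD) ∧
      (ψ * B * ψ⁻¹) ((1 / 2 : ℂ) : OnePoint ℂ) = ∞ := by
  set φ₁ : OnePoint ℂ ≃ₜ OnePoint ℂ := iota * loc (B p) with hφ₁
  have h1 : φ₁ (B p) = ∞ := by rw [hφ₁, Homeomorph.mul_apply, loc_self, iota_zero]
  have h2 : φ₁ p ≠ ∞ := by
    intro h
    rw [← h1] at h
    exact hp (φ₁.injective h).symm
  obtain ⟨a, ha⟩ := OnePoint.ne_infty_iff_exists.1 h2
  set φ : OnePoint ℂ ≃ₜ OnePoint ℂ := tau (-a) * φ₁ with hφ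
  have h3 : φ p = ((0 : ℂ) : OnePoint ℂ) := by
    rw [hφ, Homeomorph.mul_apply, ← ha, tau_coe, add_neg_cancel]
  have h4 : φ (B p) = ∞ := by rw [hφ, Homeomorph.mul_apply, h1, tau_inf]
  have h5 : φ.symm ((0 : ℂ) : OnePoint ℂ) = p := by rw [Homeomorph.symm_apply_eq, h3]
  set B' : OnePoint ℂ ≃ₜ OnePoint ℂ := φ * B * φ⁻¹ with hB'
  have hB'x : ∀ x, B' x = φ (B (φ.symm x)) := fun x => rfl
  have h6 : B' ((0 : ℂ) : OnePoint ℂ) = ∞ := by rw [hB'x, h5, h4]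
  obtain ⟨U, hU, hU2⟩ := sep (f := B') (g := fun x => x) (x := ((0 : ℂ) : OnePoint ℂ))
    B'.continuous.continuousAt continuousAt_id (by rw [h6]; exact OnePoint.infty_ne_coe _)
  rw [OnePoint.nhds_coe_eq, mem_map, Metric.mem_nhds_iff] at hU
  obtain ⟨r, hr, hrU⟩ := hU
  have hrc : (r : ℂ) ≠ 0 := by exact_mod_cast hr.ne'
  have hc : (4 / r : ℂ) ≠ 0 := div_ne_zero (by norm_num) hrc
  set m : OnePoint ℂ ≃ₜ OnePoint ℂ := tau (1 / 2) * mu (4 / r : ℂ) hc with hm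
  have hmz : ∀ z : ℂ, m.symm (z : OnePoint ℂ) = ((r / 4 * (z - 1 / 2) : ℂ) : OnePoint ℂ) := by
    intro z
    rw [Homeomorph.symm_apply_eq, hm, Homeomorph.mul_apply, mu_coe, tau_coe]
    congr 1
    field_simp
    ring
  have hms : ∀ x, x ∈ cD → m.symm x ∈ U := by
    rintro _ ⟨z, hz, rfl⟩
    rw [hmz]
    apply hrU
    rw [mem_closedBall, dist_zero_right] at hz
    rw [mem_ball, dist_zero_right, norm_mul, norm_div, Complex.norm_real,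
      Real.norm_of_nonneg hr.le]
    have e1 : ‖z - 1 / 2‖ ≤ 1 + 1 / 2 := by
      refine (norm_sub_le _ _).trans ?_
      have : ‖(1 / 2 : ℂ)‖ = 1 / 2 := by norm_num
      rw [this]
      linarith
    have e2 : ‖(4 : ℂ)‖ = 4 := by norm_num
    rw [e2]
    have e3 : r / 4 * ‖z - 1 / 2‖ ≤ r / 4 * (1 + 1 / 2) := by gcongr
    linarith
  refine ⟨m * φ, ((allGood_tau _).mul (allGood_mu _ _)).mul
    ((allGood_tau _).mul (allGood_iota.mul (allGood_loc _))), ?_, ?_⟩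
  · intro x hx
    have e1 : (m * φ * B * (m * φ)⁻¹) x = m (B' (m.symm x)) := rfl
    rw [e1]
    intro hcon
    have h7 := hms _ hcon
    rw [Homeomorph.symm_apply_apply] at h7
    exact hU2 _ (hms x hx) _ h7 rfl
  · have e1 : (m * φ * B * (m * φ)⁻¹) ((1 / 2 : ℂ) : OnePoint ℂ) =
        m (B' (m.symm ((1 / 2 : ℂ) : OnePoint ℂ))) := rfl
    rw [e1, hmz, sub_self, mul_zero, h6, hm, Homeomorph.mul_apply, mu_inf, tau_inf]

theorem exists_M {B : OnePoint ℂ ≃ₜ OnePoint ℂ} (hB2 : B ((1 / 2 : ℂ) : OnePoint ℂ) = ∞) :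
    ∃ M₀ : ℝ, 2 ≤ M₀ ∧ ∀ M, M₀ ≤ M → (∀ z : ℂ, M ≤ ‖z‖ → (z : OnePoint ℂ) ∈ B '' oD) ∧
      ∀ z : ℂ, ‖z‖ ≤ M⁻¹ → ∃ w : ℂ, B (z : OnePoint ℂ) = (w : OnePoint ℂ) ∧ ‖w‖ < M := by
  have h1 : B '' oD ∈ 𝓝 (∞ : OnePoint ℂ) := by
    apply (B.isOpenMap _ isOpen_oD).mem_nhds
    refine ⟨_, ?_, hB2⟩
    rw [mem_oD]
    norm_num
  obtain ⟨R, hR, -, hfar⟩ := exists_R h1
  have h2 : B ((0 : ℂ) : OnePoint ℂ) ≠ ∞ := by
    intro h
    rw [← hB2] at h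
    have := OnePoint.coe_injective (B.injective h)
    norm_num at this
  obtain ⟨b, hb⟩ := OnePoint.ne_infty_iff_exists.1 h2
  have h3 : (fun z : ℂ => B (z : OnePoint ℂ)) ⁻¹' (((↑) : ℂ → OnePoint ℂ) '' ball 0 (‖b‖ + 1)) ∈
      𝓝 (0 : ℂ) := by
    apply ((OnePoint.isOpenMap_coe _ isOpen_ball).preimage
      (B.continuous.comp OnePoint.continuous_coe)).mem_nhds
    exact ⟨b, by simp, hb⟩
  obtain ⟨r, hr, hrU⟩ := Metric.mem_nhds_iff.1 h3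
  refine ⟨max (max R (2 / r)) (max (‖b‖ + 1) 2), (le_max_right _ _).trans (le_max_right _ _), ?_⟩
  intro M hM
  have hM1 : R ≤ M := ((le_max_left _ _).trans (le_max_left _ _)).trans hM
  have hM2 : 2 / r ≤ M := ((le_max_right _ _).trans (le_max_left _ _)).trans hM
  have hM3 : ‖b‖ + 1 ≤ M := ((le_max_left _ _).trans (le_max_right _ _)).trans hM
  have hM4 : 2 ≤ M := ((le_max_right _ _).trans (le_max_right _ _)).trans hM
  refine ⟨fun z hz => hfar z (hM1.trans hz), fun z hz => ?_⟩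
  have h4 : M⁻¹ < r := by
    have h5 : 2 ≤ M * r := by rwa [div_le_iff₀ hr] at hM2
    rw [inv_lt_iff_one_lt_mul₀ (by linarith)]
    linarith
  obtain ⟨w, hw, hw'⟩ := hrU (show z ∈ ball (0 : ℂ) r by
    rw [mem_ball, dist_zero_right]; linarith)
  refine ⟨w, hw'.symm, ?_⟩
  rw [mem_ball, dist_zero_right] at hw
  linarith

end Pool.Agent.H871R2.Sph
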