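import Mathlib
import Pool.Agent.H871R2.Sph.Norm

set_option autoImplicit false
open Complex Set Filter Metric Topology OnePoint
open scoped Real ComplexConjugate

namespace Pool.Agent.H871R2.Sph

/-- the situation after normalisation and correction -/
structure Setup (X B u m : OnePoint ℂ ≃ₜ OnePoint ℂ) : Prop where
  X1 : ∀ x, x ∉ oD → X x ∈ oD
  B1 : ∀ x, x ∈ cD → B x ∉ cD
  u1 : ∀ x, x ∉ oD → u x = x
  u2 : ∀ x, x ∈ cD → u (X (B x)) = B.symm (m (B x))

variable {X B u m : OnePoint ℂ ≃ₜ OnePoint ℂ}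

theorem Setup.B1' (h : Setup X B u m) {x : OnePoint ℂ} (hx : x ∈ cD) : B x ∉ oD :=
  fun h' => h.B1 x hx (oD_sub h')

theorem Setup.usymm (h : Setup X B u m) {x : OnePoint ℂ} (hx : x ∉ oD) : u.symm x = x := by
  rw [Homeomorph.symm_apply_eq, h.u1 x hx]

theorem Setup.u_in (h : Setup X B u m) {x : OnePoint ℂ} (hx : x ∈ oD) : u x ∈ oD := by
  by_contra hcon
  have h1 := h.u1 _ hcon
  have h2 := u.injective h1
  rw [h2] at hcon
  exact hcon hx

theorem Setup.eq (h : Setup X B u m) {x : OnePoint ℂ} (hx : x ∈ B '' oD) :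
    (B * (u * X * u⁻¹)) x = m x := by
  obtain ⟨z, hz, rfl⟩ := hx
  show B (u (X (u.symm (B z)))) = m (B z)
  rw [h.usymm (h.B1' (oD_sub hz)), h.u2 z (oD_sub hz), Homeomorph.apply_symm_apply]

theorem Setup.out (h : Setup X B u m) {x : OnePoint ℂ} (hx : x ∉ oD) :
    (B * (u * X * u⁻¹)) x ∈ B '' oD := by
  refine ⟨u (X (u.symm x)), ?_, rfl⟩
  rw [h.usymm hx]
  exact h.u_in (h.X1 x hx)

theorem Setup.O_out (h : Setup X B u m) {x : OnePoint ℂ} (hx : x ∈ B '' oD) : x ∉ oD := by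
  obtain ⟨z, hz, rfl⟩ := hx
  exact h.B1' (oD_sub hz)

/-- the common part of the two cases -/
theorem Setup.conj (h : Setup X B u m) {q : OnePoint ℂ} (hq : q ∈ cD)
    (hLq : (B * (u * X * u⁻¹)) q = q) (hm0 : m ((0 : ℂ) : OnePoint ℂ) = ((0 : ℂ) : OnePoint ℂ))
    (hmex : ∀ x, x ≠ ((0 : ℂ) : OnePoint ℂ) → ∃ n : ℕ, (m ^ n) x ∈ B '' oD)
    (hstay : ∀ x : ℕ → OnePoint ℂ, (∀ n, x n ∈ oD) → (∀ n, (B * (u * X * u⁻¹)) (x n) = x (n + 1)) →
      x 0 = q) : ∃ k : OnePoint ℂ ≃ₜ OnePoint ℂ, B * (u * X * u⁻¹) = k * m * k⁻¹ := by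
  have h0 : ((0 : ℂ) : OnePoint ℂ) ∈ oD := by rw [mem_oD, norm_zero]; exact one_pos
  have hdata : LoxData (B * (u * X * u⁻¹)) m (B '' oD) q ((0 : ℂ) : OnePoint ℂ) := by
    refine ⟨B.isOpenMap _ isOpen_oD, ?_, fun h' => h.O_out h' h0, hLq, hm0, fun x hx => h.eq hx,
      fun x hx => h.out (h.O_out hx), ?_, hmex⟩
    · rintro ⟨z, hz, hzq⟩
      exact h.B1 z (oD_sub hz) (by rw [hzq]; exact hq)
    · intro x hx
      by_contra hcon
      push Not at hcon
      apply hx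
      have hpow : ∀ n : ℕ, (B * (u * X * u⁻¹)) (((B * (u * X * u⁻¹)) ^ n) x) =
          ((B * (u * X * u⁻¹)) ^ (n + 1)) x := by
        intro n
        rw [pow_succ' (B * (u * X * u⁻¹)) n, Homeomorph.mul_apply (B * (u * X * u⁻¹))]
      refine hstay (fun n => ((B * (u * X * u⁻¹)) ^ n) x) (fun n => ?_) hpow
      by_contra h1
      have h2 := h.out h1
      rw [hpow] at h2
      exact hcon _ h2
  exact hdata.conj

/-- powers of a homothety -/
theorem mu_pow {M : ℝ} (hM : (M : ℂ) ≠ 0) (n : ℕ) (z : ℂ) :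
    (mu (M : ℂ) hM ^ n) (z : OnePoint ℂ) = (((M : ℂ) ^ n * z : ℂ) : OnePoint ℂ) := by
  induction n with
  | zero => simp
  | succ n ih =>
    rw [pow_succ' (mu (M : ℂ) hM) n, Homeomorph.mul_apply, ih, mu_coe]
    congr 1
    ring

theorem mu_exit {B : OnePoint ℂ ≃ₜ OnePoint ℂ} (hB2 : B ((1 / 2 : ℂ) : OnePoint ℂ) = ∞) {M : ℝ}
    (hM2 : 2 ≤ M) (hM : (M : ℂ) ≠ 0) (hfar : ∀ z : ℂ, M ≤ ‖z‖ → (z : OnePoint ℂ) ∈ B '' oD)
    {x : OnePoint ℂ} (hx : x ≠ ((0 : ℂ) : OnePoint ℂ)) : ∃ n : ℕ, (mu (M : ℂ) hM ^ n) x ∈ B '' oD := by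
  induction x using OnePoint.rec with
  | infty =>
    refine ⟨0, _, ?_, hB2⟩
    rw [mem_oD]; norm_num
  | coe z =>
    have hz : z ≠ 0 := fun h => hx (by rw [h])
    have hz' : 0 < ‖z‖ := norm_pos_iff.2 hz
    obtain ⟨n, hn⟩ := pow_unbounded_of_one_lt (M / ‖z‖) (show 1 < M by linarith)
    refine ⟨n, ?_⟩
    rw [mu_pow]
    apply hfar
    rw [norm_mul, norm_pow, Complex.norm_real, Real.norm_of_nonneg (by linarith)]
    rw [div_lt_iff₀ hz'] at hn
    exact hn.le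

theorem geom_contra {a M : ℝ} (ha : 0 < a) (hM : 2 ≤ M) (h : ∀ n : ℕ, M ^ n * a < 1) : False := by
  obtain ⟨n, hn⟩ := pow_unbounded_of_one_lt (1 / a) (show 1 < M by linarith)
  rw [div_lt_iff₀ ha] at hn
  exact lt_asymm hn (h n)

/-- the annulus -/
theorem annulus_preconnected {a : ℝ} (ha : 0 < a) :
    IsPreconnected {z : ℂ | a < ‖z‖ ∧ ‖z‖ < 1} := by
  have h1 : {z : ℂ | a < ‖z‖ ∧ ‖z‖ < 1} =
      (fun p : ℝ × ℝ => (p.1 : ℂ) * exp (p.2 * I)) '' (Ioo a 1 ×ˢ univ) := by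
    ext z
    constructor
    · intro hz
      exact ⟨(‖z‖, arg z), ⟨hz, mem_univ _⟩, norm_mul_exp_arg_mul_I z⟩
    · rintro ⟨⟨r, θ⟩, ⟨hr, -⟩, rfl⟩
      simp only [mem_Ioo] at hr
      simp only [mem_ofPred_eq]
      rw [norm_mul, norm_exp_ofReal_mul_I, mul_one, Complex.norm_real,
        Real.norm_of_nonneg (by linarith [hr.1])]
      exact hr
  rw [h1]
  apply IsPreconnected.image
  · exact isPreconnected_Ioo.prod isPreconnected_univ
  · apply Continuous.continuousOn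
    fun_prop

theorem isOpen_annulus (a : ℝ) : IsOpen {z : ℂ | a < ‖z‖ ∧ ‖z‖ < 1} :=
  (isOpen_lt continuous_const continuous_norm).inter (isOpen_lt continuous_norm continuous_const)

/-- the second case: involutions -/
theorem key_inv {X B : OnePoint ℂ ≃ₜ OnePoint ℂ} (hX : AllGood X) (hB : AllGood B)
    (hX1 : ∀ x, x ∉ oD → X x ∈ oD) (hB1 : ∀ x, x ∈ cD → B x ∉ cD)
    (hB2 : B ((1 / 2 : ℂ) : OnePoint ℂ) = ∞) (hXX : X * X = 1) (hBB : B * B = 1) :
    ∃ M₀ : ℝ, ∀ (M : ℝ) (hM : (M : ℂ) ≠ 0), M₀ ≤ M →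
      ∃ u k : OnePoint ℂ ≃ₜ OnePoint ℂ, B * (u * X * u⁻¹) = k * mu (M : ℂ) hM * k⁻¹ := by
  obtain ⟨M₀, hM₀, hcond⟩ := exists_M hB2
  refine ⟨M₀, fun M hM hMM => ?_⟩
  obtain ⟨hfar, hnear⟩ := hcond M hMM
  have hM2 : 2 ≤ M := hM₀.trans hMM
  set m : OnePoint ℂ ≃ₜ OnePoint ℂ := mu (M : ℂ) hM with hm
  have hBo : ∀ x, x ∈ cD → B x ∉ oD := fun x hx h' => hB1 x hx (oD_sub h')
  have hmB : ∀ x, x ∈ cD → m (B x) ∈ B '' oD := by
    intro x hx
    have h1 := hB1 x hx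
    generalize B x = y at h1
    induction y using OnePoint.rec with
    | infty =>
      rw [hm, mu_inf]
      exact ⟨_, by rw [mem_oD]; norm_num, hB2⟩
    | coe z =>
      rw [hm, mu_coe]
      apply hfar
      rw [mem_cD, not_le] at h1
      rw [norm_mul, Complex.norm_real, Real.norm_of_nonneg (by linarith)]
      nlinarith
  have hmB' : ∀ x, x ∈ cD → B.symm (m (B x)) ∈ oD := by
    intro x hx
    obtain ⟨y, hy, hy2⟩ := hmB x hx
    rw [← hy2, Homeomorph.symm_apply_apply]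
    exact hy
  obtain ⟨u, -, hu1, hu2⟩ := extend (U := ball (0 : ℂ) 1) isOpen_ball
    (convex_ball (0 : ℂ) 1).isPreconnected (g := X * B) (g' := B⁻¹ * m * B)
    (hX.mul hB) ((hB.inv.mul (allGood_mu _ hM)).mul hB)
    (fun z hz => hX1 _ (hBo _ (mem_cD.2 hz))) (fun z hz => hmB' _ (mem_cD.2 hz))
  have hS : Setup X B u m := by
    refine ⟨hX1, hB1, hu1, ?_⟩
    rintro _ ⟨z, hz, rfl⟩
    exact hu2 z (by simpa using hz)
  have hXs : X.symm = X := by
    have : X⁻¹ = X := inv_eq_of_mul_eq_one_right hXX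
    exact this
  have hBs : B.symm = B := by
    have : B⁻¹ = B := inv_eq_of_mul_eq_one_right hBB
    exact this
  -- the inverse of `L` on the disc
  have hinv : ∀ x, x ∈ cD → (B * (u * X * u⁻¹)) (B.symm (m (B x))) = x := by
    intro x hx
    rw [← hS.u2 x hx]
    have h1 : X (B x) = X (u.symm (B x)) := by rw [hS.usymm (hS.B1' hx)]
    show B (u (X (u.symm (u (X (B x)))))) = x
    have hX2 : ∀ y, X (X y) = y := by
      intro y
      rw [← Homeomorph.mul_apply, hXX, Homeomorph.one_apply]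
    have hB3 : ∀ y, B (B y) = y := by
      intro y
      rw [← Homeomorph.mul_apply, hBB, Homeomorph.one_apply]
    rw [Homeomorph.symm_apply_apply, hX2, hS.u1 _ (hS.B1' hx), hB3]
  have hhalf : ((1 / 2 : ℂ) : OnePoint ℂ) ∈ oD := by rw [mem_oD]; norm_num
  have hm0 : m ((0 : ℂ) : OnePoint ℂ) = ((0 : ℂ) : OnePoint ℂ) := by rw [hm, mu_coe, mul_zero]
  obtain ⟨k, hk⟩ := hS.conj (q := ((1 / 2 : ℂ) : OnePoint ℂ)) (oD_sub hhalf) (by
    have h1 := hinv _ (oD_sub hhalf)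
    have h2 : B.symm (m (B ((1 / 2 : ℂ) : OnePoint ℂ))) = ((1 / 2 : ℂ) : OnePoint ℂ) := by
      rw [Homeomorph.symm_apply_eq, hB2, hm, mu_inf]
    rwa [h2] at h1) hm0 (fun x hx => mu_exit hB2 hM2 hM hfar hx) (by
    intro x hx hstep
    by_contra hne
    -- `B (x n) = m (B (x (n+1)))`
    have h1 : ∀ n, B (x n) = m (B (x (n + 1))) := by
      intro n
      have h2 := hinv _ (oD_sub (hx (n + 1)))
      have h3 : (B * (u * X * u⁻¹)) (B.symm (m (B (x (n + 1))))) = (B * (u * X * u⁻¹)) (x n) := by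
        rw [h2, hstep]
      have h4 := (B * (u * X * u⁻¹)).injective h3
      rw [← h4, Homeomorph.apply_symm_apply]
    have h2 : ∀ n, ∃ w : ℂ, B (x n) = (w : OnePoint ℂ) ∧ 1 < ‖w‖ := by
      intro n
      have h3 : B (x n) ≠ ∞ := by
        induction n with
        | zero =>
          intro h4
          rw [← hB2] at h4
          exact hne (B.injective h4)
        | succ n ih =>
          intro h4
          apply ih
          rw [h1 n, h4, hm, mu_inf]
      obtain ⟨w, hw⟩ := OnePoint.ne_infty_iff_exists.1 h3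
      refine ⟨w, hw.symm, ?_⟩
      have h4 := hB1 _ (oD_sub (hx n))
      rw [← hw, mem_cD, not_le] at h4
      exact h4
    choose w hw1 hw2 using h2
    have h3 : ∀ n, w n = M * w (n + 1) := by
      intro n
      have h4 := h1 n
      rw [hw1, hw1, hm, mu_coe] at h4
      exact OnePoint.coe_injective h4
    have h4 : ∀ n, ‖w 0‖ = M ^ n * ‖w n‖ := by
      intro n
      induction n with
      | zero => simp
      | succ n ih =>
        rw [ih, h3 n, norm_mul, Complex.norm_real, Real.norm_of_nonneg (by linarith)]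
        ring
    have hw0 : 0 < ‖w 0‖ := by linarith [hw2 0]
    apply geom_contra (a := 1 / ‖w 0‖) (by positivity) hM2
    intro n
    have h5 := hw2 n
    have h6 := h4 n
    have h7 : 0 < M ^ n := by positivity
    rw [mul_one_div, div_lt_one hw0, h6]
    nlinarith)
  exact ⟨u, k, hk⟩

/-- the first case -/
theorem key_gen {X B : OnePoint ℂ ≃ₜ OnePoint ℂ} (hX : AllGood X) (hB : AllGood B)
    (hX1 : ∀ x, x ∉ oD → X x ∈ oD) (hB1 : ∀ x, x ∈ cD → B x ∉ cD)
    (hB2 : B ((1 / 2 : ℂ) : OnePoint ℂ) = ∞) (hX2 : ∀ x, x ∉ oD → X (X x) ∈ oD) :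
    ∃ M₀ : ℝ, ∀ (M : ℝ) (hM : (M : ℂ) ≠ 0), M₀ ≤ M →
      ∃ u k : OnePoint ℂ ≃ₜ OnePoint ℂ, B * (u * X * u⁻¹) = k * mu (M : ℂ) hM * k⁻¹ := by
  obtain ⟨M₀, hM₀, hcond⟩ := exists_M hB2
  refine ⟨M₀, fun M hM hMM => ?_⟩
  obtain ⟨hfar, hnear⟩ := hcond M hMM
  have hM2 : 2 ≤ M := hM₀.trans hMM
  have hM0 : 0 < M := by linarith
  have hMi : 0 < M⁻¹ := inv_pos.2 hM0
  have hMi1 : M⁻¹ < 1 := inv_lt_one_of_one_lt₀ (by linarith)
  have hMic : ((M : ℂ)⁻¹) ≠ 0 := inv_ne_zero hM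
  set m : OnePoint ℂ ≃ₜ OnePoint ℂ := mu (M : ℂ) hM with hm
  have hBo : ∀ x, x ∈ cD → B x ∉ oD := fun x hx h' => hB1 x hx (oD_sub h')
  have hBs : ∀ x, x ∈ cD → B.symm x ∉ cD := by
    intro x hx h'
    have := hB1 _ h'
    rw [Homeomorph.apply_symm_apply] at this
    exact this hx
  have hXs : ∀ x, x ∉ oD → X.symm x ∈ oD := by
    intro x hx
    by_contra hcon
    have := hX1 _ hcon
    rw [Homeomorph.apply_symm_apply] at this
    exact hx this
  have hmB0 : ∀ x, x ∈ cD → (∀ w : ℂ, m (B x) = (w : OnePoint ℂ) → M ≤ ‖w‖) := by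
    intro x hx w hw
    have h1 := hB1 x hx
    generalize B x = y at h1 hw
    induction y using OnePoint.rec with
    | infty =>
      rw [hm, mu_inf] at hw
      exact absurd hw (OnePoint.infty_ne_coe _)
    | coe z =>
      rw [hm, mu_coe] at hw
      rw [← OnePoint.coe_injective hw]
      rw [mem_cD, not_le] at h1
      rw [norm_mul, Complex.norm_real, Real.norm_of_nonneg hM0.le]
      nlinarith
  have hmB : ∀ x, x ∈ cD → m (B x) ∈ B '' oD := by
    intro x hx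
    have h1 := hmB0 x hx
    generalize m (B x) = y at h1
    induction y using OnePoint.rec with
    | infty => exact ⟨_, by rw [mem_oD]; norm_num, hB2⟩
    | coe z => exact hfar z (h1 z rfl)
  have hmB' : ∀ x, x ∈ cD → B.symm (m (B x)) ∈ oD := by
    intro x hx
    obtain ⟨y, hy, hy2⟩ := hmB x hx
    rw [← hy2, Homeomorph.symm_apply_apply]
    exact hy
  -- first correction
  obtain ⟨u₁, hu0, hu1, hu2⟩ := extend (U := ball (0 : ℂ) 1) isOpen_ball
    (convex_ball (0 : ℂ) 1).isPreconnected (g := X⁻¹ * B⁻¹) (g' := mu (M : ℂ)⁻¹ hMic)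
    (hX.inv.mul hB.inv) (allGood_mu _ hMic)
    (fun z hz => hXs _ fun h' => hBs _ (mem_cD.2 hz) (oD_sub h'))
    (fun z hz => by
      rw [mu_coe]
      refine ⟨_, ?_, rfl⟩
      rw [mem_ball, dist_zero_right, norm_mul, norm_inv, Complex.norm_real,
        Real.norm_of_nonneg hM0.le]
      nlinarith [norm_nonneg z])
  have hu2' : ∀ z : ℂ, ‖z‖ ≤ 1 → u₁ (X.symm (B.symm (z : OnePoint ℂ))) =
      (((M : ℂ)⁻¹ * z : ℂ) : OnePoint ℂ) := fun z hz => hu2 z hz
  have hu1in : ∀ x, x ∈ oD → u₁ x ∈ oD := by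
    intro x hx
    by_contra hcon
    have h2 := u₁.injective (hu1 _ hcon)
    rw [h2] at hcon
    exact hcon hx
  -- the second correction
  have hann : ∀ x : OnePoint ℂ, x ∈ oD → (∀ w : ℂ, x = (w : OnePoint ℂ) → M⁻¹ < ‖w‖) →
      x ∈ ((↑) : ℂ → OnePoint ℂ) '' {z : ℂ | M⁻¹ < ‖z‖ ∧ ‖z‖ < 1} := by
    rintro _ ⟨w, hw, rfl⟩ h1
    exact ⟨w, ⟨h1 w rfl, by simpa using hw⟩, rfl⟩
  obtain ⟨u₂, -, hv1, hv2⟩ := extend (U := {z : ℂ | M⁻¹ < ‖z‖ ∧ ‖z‖ < 1}) (isOpen_annulus _)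
    (annulus_preconnected hMi) (g := u₁ * X * B) (g' := B⁻¹ * m * B)
    ((hu0.mul hX).mul hB) ((hB.inv.mul (allGood_mu _ hM)).mul hB)
    (fun z hz => by
      have hz' := mem_cD.2 hz
      apply hann _ (hu1in _ (hX1 _ (hBo _ hz')))
      intro w hw
      by_contra hcon
      push Not at hcon
      have h1 : ‖(M : ℂ) * w‖ ≤ 1 := by
        rw [norm_mul, Complex.norm_real, Real.norm_of_nonneg hM0.le]
        have := mul_le_mul_of_nonneg_left hcon hM0.le
        rwa [mul_inv_cancel₀ hM0.ne'] at this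
      have h2 := hu2' _ h1
      rw [inv_mul_cancel_left₀ hM] at h2
      have h3 : u₁ (X (B (z : OnePoint ℂ))) = (w : OnePoint ℂ) := hw
      have h4 := u₁.injective (h3.trans h2.symm)
      -- `X (X (B z)) = B.symm (M w)`
      have h5 : X (X (B (z : OnePoint ℂ))) = B.symm (((M : ℂ) * w : ℂ) : OnePoint ℂ) := by
        rw [h4, Homeomorph.apply_symm_apply]
      have h6 := hX2 _ (hBo _ hz')
      rw [h5] at h6
      exact hBs _ (mem_cD.2 h1) (oD_sub h6))
    (fun z hz => by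
      have hz' := mem_cD.2 hz
      apply hann _ (hmB' _ hz')
      intro w hw
      by_contra hcon
      push Not at hcon
      obtain ⟨y, hy, hy2⟩ := hnear w hcon
      have h1 : B.symm (m (B (z : OnePoint ℂ))) = (w : OnePoint ℂ) := hw
      rw [Homeomorph.symm_apply_eq, hy] at h1
      have := hmB0 _ hz' _ h1
      linarith)
  set u : OnePoint ℂ ≃ₜ OnePoint ℂ := u₂ * u₁ with hu
  have hS : Setup X B u m := by
    refine ⟨hX1, hB1, ?_, ?_⟩
    · intro x hx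
      rw [hu, Homeomorph.mul_apply, hu1 x hx]
      apply hv1
      rintro ⟨w, hw, rfl⟩
      exact hx (mem_oD.2 hw.2)
    · rintro _ ⟨z, hz, rfl⟩
      exact hv2 z (by simpa using hz)
  have hinv : ∀ z : ℂ, ‖z‖ ≤ 1 →
      (B * (u * X * u⁻¹)) (((M : ℂ)⁻¹ * z : ℂ) : OnePoint ℂ) = (z : OnePoint ℂ) := by
    intro z hz
    have h1 : u (X.symm (B.symm (z : OnePoint ℂ))) = (((M : ℂ)⁻¹ * z : ℂ) : OnePoint ℂ) := by
      rw [hu, Homeomorph.mul_apply, hu2' z hz]
      apply hv1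
      rintro ⟨w, hw, hw2⟩
      have h2 := OnePoint.coe_injective hw2
      have h3 := hw.1
      rw [h2, norm_mul, norm_inv, Complex.norm_real, Real.norm_of_nonneg hM0.le] at h3
      nlinarith
    rw [← h1]
    show B (u (X (u.symm (u (X.symm (B.symm (z : OnePoint ℂ))))))) = (z : OnePoint ℂ)
    rw [Homeomorph.symm_apply_apply, Homeomorph.apply_symm_apply, hS.u1,
      Homeomorph.apply_symm_apply]
    exact fun h' => hBs _ (mem_cD.2 hz) (oD_sub h')
  have hm0 : m ((0 : ℂ) : OnePoint ℂ) = ((0 : ℂ) : OnePoint ℂ) := by rw [hm, mu_coe, mul_zero]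
  have h0 : ((0 : ℂ) : OnePoint ℂ) ∈ cD := by rw [mem_cD, norm_zero]; exact zero_le_one
  obtain ⟨k, hk⟩ := hS.conj (q := ((0 : ℂ) : OnePoint ℂ)) h0 (by
    have h1 := hinv 0 (by simp)
    rwa [mul_zero] at h1) hm0 (fun x hx => mu_exit hB2 hM2 hM hfar hx) (by
    intro x hx hstep
    by_contra hne
    choose w hw1 hw2 using hx
    have h1 : ∀ n, w (n + 1) = M * w n := by
      intro n
      have h2 := hinv (w (n + 1)) (by simpa using (ball_subset_closedBall (hw1 (n + 1))))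
      have h3 : (B * (u * X * u⁻¹)) (((M : ℂ)⁻¹ * w (n + 1) : ℂ) : OnePoint ℂ) =
          (B * (u * X * u⁻¹)) (w n : OnePoint ℂ) := by
        rw [h2, hw2 n, hstep n, hw2 (n + 1)]
      have h4 := OnePoint.coe_injective ((B * (u * X * u⁻¹)).injective h3)
      rw [← h4, mul_inv_cancel_left₀ hM]
    have h2 : ∀ n, ‖w n‖ = M ^ n * ‖w 0‖ := by
      intro n
      induction n with
      | zero => simp
      | succ n ih =>
        rw [h1 n, norm_mul, ih, Complex.norm_real, Real.norm_of_nonneg hM0.le]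
        ring
    have h3 : 0 < ‖w 0‖ := by
      rw [norm_pos_iff]
      intro h4
      apply hne
      rw [← hw2 0, h4]
    apply geom_contra h3 hM2
    intro n
    rw [← h2 n]
    simpa using hw1 n)
  exact ⟨u, k, hk⟩

end Pool.Agent.H871R2.Sph
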