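import Mathlib
import Pool.Agent.H871R2.Sph.Norm

set_option autoImplicit false
open Complex Set Filter Metric Topology OnePoint
open scoped Real ComplexConjugate

namespace Pool.Agent.H871R2.Sph

/-- the radial contraction -/
theorem exists_beta : ∃ β : ℂ ≃ₜ ℂ, (∀ z, 1 ≤ ‖z‖ → β z = z) ∧
    (∀ z, ‖β z‖ = (1 + min ‖z‖ 1) / 2 * ‖z‖) := by
  obtain ⟨κ, hκ⟩ := exists_radial (fun s => (1 + min s 1) / 2) (by fun_prop)
    (fun s hs => by
      have : 0 ≤ min s 1 := le_min hs zero_le_one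
      positivity)
    (by
      intro s hs t ht hst
      have h0 : (0 : ℝ) ≤ s := hs
      have h1 : 0 ≤ min s 1 := le_min h0 zero_le_one
      have h2 : min s 1 ≤ min t 1 := min_le_min_right 1 hst.le
      simp only
      nlinarith)
    (by
      apply tendsto_atTop_mono' _ _ (tendsto_id.const_mul_atTop (show (0 : ℝ) < 1 / 2 by norm_num))
      filter_upwards [eventually_ge_atTop 0] with s hs
      have h1 : 0 ≤ min s 1 := le_min hs zero_le_one
      simp only [id]
      nlinarith)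
  refine ⟨κ, fun z hz => ?_, fun z => ?_⟩
  · rw [hκ, min_eq_right hz]
    norm_num
  · rw [hκ, norm_mul, Complex.norm_real, Real.norm_of_nonneg]
    have : 0 ≤ min ‖z‖ 1 := le_min (norm_nonneg z) zero_le_one
    positivity

theorem beta_lt {β : ℂ ≃ₜ ℂ} (h : ∀ z, ‖β z‖ = (1 + min ‖z‖ 1) / 2 * ‖z‖) {z : ℂ} (hz : z ≠ 0)
    (hz1 : ‖z‖ < 1) : ‖β z‖ < ‖z‖ := by
  have h1 : 0 < ‖z‖ := norm_pos_iff.2 hz
  rw [h, min_eq_left hz1.le]
  nlinarith

theorem beta_le {β : ℂ ≃ₜ ℂ} (h : ∀ z, ‖β z‖ = (1 + min ‖z‖ 1) / 2 * ‖z‖) (z : ℂ) :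
    ‖β z‖ ≤ ‖z‖ := by
  have h1 : 0 ≤ ‖z‖ := norm_nonneg z
  have h2 : min ‖z‖ 1 ≤ 1 := min_le_right _ _
  rw [h]
  nlinarith

/-- iterates in the disc tend to `0` -/
theorem beta_tendsto {β : ℂ ≃ₜ ℂ} (h : ∀ z, ‖β z‖ = (1 + min ‖z‖ 1) / 2 * ‖z‖) {z : ℂ}
    (hz : ‖z‖ < 1) : Tendsto (fun n : ℕ => (β ^ n) z) atTop (𝓝 0) := by
  have h0 : ∀ n : ℕ, ‖(β ^ n) z‖ ≤ ‖z‖ := by
    intro n
    induction n with
    | zero => exact le_rfl
    | succ n ih =>
      rw [pow_succ', Homeomorph.mul_apply]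
      exact (beta_le h _).trans ih
  have h1 : ∀ n : ℕ, ‖(β ^ n) z‖ ≤ ((1 + ‖z‖) / 2) ^ n * ‖z‖ := by
    intro n
    induction n with
    | zero => simp
    | succ n ih =>
      rw [pow_succ', Homeomorph.mul_apply, h, min_eq_left ((h0 n).trans hz.le)]
      have h2 := h0 n
      have h3 := norm_nonneg ((β ^ n) z)
      calc (1 + ‖(β ^ n) z‖) / 2 * ‖(β ^ n) z‖
          ≤ (1 + ‖z‖) / 2 * (((1 + ‖z‖) / 2) ^ n * ‖z‖) := by gcongr
        _ = ((1 + ‖z‖) / 2) ^ (n + 1) * ‖z‖ := by ring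
  have h2 : Tendsto (fun n : ℕ => ((1 + ‖z‖) / 2) ^ n * ‖z‖) atTop (𝓝 0) := by
    have h3 := tendsto_pow_atTop_nhds_zero_of_lt_one (r := (1 + ‖z‖) / 2) (by positivity)
      (by linarith)
    simpa using h3.mul_const ‖z‖
  exact squeeze_zero_norm h1 h2

theorem lift_pow (β : ℂ ≃ₜ ℂ) (n : ℕ) (z : ℂ) :
    (lift β ^ n) (z : OnePoint ℂ) = (((β ^ n) z : ℂ) : OnePoint ℂ) := by
  induction n with
  | zero => rfl
  | succ n ih =>
    rw [pow_succ' (lift β) n, pow_succ' β n, Homeomorph.mul_apply, Homeomorph.mul_apply, ih,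
      lift_coe]

/-- the radial map is not conjugate to its inverse -/
theorem beta_not_reversible {β : ℂ ≃ₜ ℂ} (h1 : ∀ z, 1 ≤ ‖z‖ → β z = z)
    (h : ∀ z, ‖β z‖ = (1 + min ‖z‖ 1) / 2 * ‖z‖) (a : OnePoint ℂ ≃ₜ OnePoint ℂ)
    (ha : ∀ x, a (lift β x) = (lift β).symm (a x)) : False := by
  -- `a 0 = 0`
  have hfix : ∀ x ∈ oD, lift β x = x → x = ((0 : ℂ) : OnePoint ℂ) := by
    rintro _ ⟨z, hz, rfl⟩ hx
    rw [lift_coe] at hx
    by_contra hne
    have hz0 : z ≠ 0 := fun h0 => hne (by rw [h0])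
    have h2 := beta_lt h hz0 (by simpa using hz)
    rw [OnePoint.coe_injective hx] at h2
    exact lt_irrefl _ h2
  have h00 : ((0 : ℂ) : OnePoint ℂ) ∈ oD := by rw [mem_oD, norm_zero]; exact one_pos
  have hβ0 : lift β ((0 : ℂ) : OnePoint ℂ) = ((0 : ℂ) : OnePoint ℂ) := by
    rw [lift_coe]
    congr 1
    have := h 0
    rw [norm_zero, mul_zero] at this
    exact norm_eq_zero.1 this
  have hfixa : ∀ x, lift β (a x) = a x → lift β x = x := by
    intro x hx
    apply a.injective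
    rw [ha, Homeomorph.symm_apply_eq, hx]
  have hfixa' : ∀ x, lift β x = x → lift β (a x) = a x := by
    intro x hx
    have h2 := ha x
    rw [hx] at h2
    rw [Homeomorph.eq_symm_apply] at h2
    exact h2
  have ha0 : a ((0 : ℂ) : OnePoint ℂ) = ((0 : ℂ) : OnePoint ℂ) := by
    by_contra hne
    have hy : a ((0 : ℂ) : OnePoint ℂ) ∉ oD := fun h' => hne (hfix _ h' (hfixa' _ hβ0))
    have hV : a '' oD ∈ 𝓝 (a ((0 : ℂ) : OnePoint ℂ)) :=
      (a.isOpenMap _ isOpen_oD).mem_nhds ⟨_, h00, rfl⟩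
    -- another fixed point in `a '' oD`
    obtain ⟨y', hy', hne', hfy⟩ : ∃ y' ∈ a '' oD, y' ≠ a ((0 : ℂ) : OnePoint ℂ) ∧
        lift β y' = y' := by
      generalize a ((0 : ℂ) : OnePoint ℂ) = y at hy hV
      induction y using OnePoint.rec with
      | infty =>
        obtain ⟨R, hR, -, hfar⟩ := exists_R hV
        have hn : ‖((max R 1 : ℝ) : ℂ)‖ = max R 1 := by
          rw [Complex.norm_real, Real.norm_of_nonneg (by positivity)]
        refine ⟨((max R 1 : ℝ) : ℂ), hfar _ ?_, OnePoint.coe_ne_infty _, ?_⟩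
        · rw [hn]; exact le_max_left _ _
        · rw [lift_coe, h1 _ (by rw [hn]; exact le_max_right _ _)]
      | coe y =>
        rw [mem_oD, not_lt] at hy
        rw [OnePoint.nhds_coe_eq, mem_map, Metric.mem_nhds_iff] at hV
        obtain ⟨r, hr, hrV⟩ := hV
        have hy0 : 0 < ‖y‖ := by linarith
        set ε : ℝ := r / (2 * ‖y‖) with hε
        have hε0 : 0 < ε := by positivity
        have hd : ((1 + ε : ℝ) : ℂ) * y - y = (ε : ℂ) * y := by push_cast; ring
        have hεy : ε * ‖y‖ = r / 2 := by rw [hε]; field_simp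
        refine ⟨((((1 + ε : ℝ) : ℂ) * y : ℂ) : OnePoint ℂ), hrV ?_, ?_, ?_⟩
        · rw [mem_ball, dist_eq_norm, hd, norm_mul, Complex.norm_real,
            Real.norm_of_nonneg hε0.le, hεy]
          linarith
        · intro h'
          have h2 := OnePoint.coe_injective h'
          rw [← sub_eq_zero, hd] at h2
          have h3 : ‖(ε : ℂ) * y‖ = r / 2 := by
            rw [norm_mul, Complex.norm_real, Real.norm_of_nonneg hε0.le, hεy]
          rw [h2, norm_zero] at h3
          linarith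
        · rw [lift_coe, h1]
          rw [norm_mul, Complex.norm_real, Real.norm_of_nonneg (by positivity)]
          nlinarith
    obtain ⟨x', hx', rfl⟩ := hy'
    apply hne'
    rw [hfix x' hx' (hfixa x' hfy)]
  -- choose a small point
  have hopen : IsOpen ((fun z : ℂ => a (z : OnePoint ℂ)) ⁻¹' oD ∩ ball 0 1) :=
    (isOpen_oD.preimage (a.continuous.comp OnePoint.continuous_coe)).inter isOpen_ball
  obtain ⟨r, hr, hrU⟩ := Metric.isOpen_iff.1 hopen 0
    ⟨by rw [mem_preimage, ha0]; exact h00, mem_ball_self one_pos⟩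
  have hn2 : ‖((r / 2 : ℝ) : ℂ)‖ = r / 2 := by
    rw [Complex.norm_real, Real.norm_of_nonneg (by positivity)]
  obtain ⟨hx1, hx2⟩ := hrU (show ((r / 2 : ℝ) : ℂ) ∈ ball (0 : ℂ) r by
    rw [mem_ball, dist_zero_right, hn2]; linarith)
  set x : ℂ := ((r / 2 : ℝ) : ℂ) with hx
  have hx0 : x ≠ 0 := by
    intro h0
    rw [h0, norm_zero] at hn2
    linarith
  obtain ⟨w, hw, hwx⟩ := hx1
  have hwx' : a (x : OnePoint ℂ) = (w : OnePoint ℂ) := hwx.symm
  have hw0 : w ≠ 0 := by
    intro h0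
    rw [h0, ← ha0] at hwx'
    exact hx0 (OnePoint.coe_injective (a.injective hwx'))
  have hpow : ∀ n : ℕ, ∃ v : ℂ, a (((β ^ n) x : ℂ) : OnePoint ℂ) = (v : OnePoint ℂ) ∧
      ‖w‖ ≤ ‖v‖ := by
    intro n
    induction n with
    | zero => exact ⟨w, hwx', le_rfl⟩
    | succ n ih =>
      obtain ⟨v, hv, hv2⟩ := ih
      refine ⟨β.symm v, ?_, ?_⟩
      · rw [pow_succ' β n, Homeomorph.mul_apply, ← lift_coe, ha, hv, lift_symm_coe]
      · have h2 := beta_le h (β.symm v)
        rw [Homeomorph.apply_symm_apply] at h2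
        exact hv2.trans h2
  have hlim : Tendsto (fun n : ℕ => a (((β ^ n) x : ℂ) : OnePoint ℂ)) atTop
      (𝓝 ((0 : ℂ) : OnePoint ℂ)) := by
    have h2 := beta_tendsto h (z := x) (by simpa using hx2)
    have h3 := (a.continuous.comp OnePoint.continuous_coe).tendsto (0 : ℂ)
    rw [Function.comp_apply, ha0] at h3
    exact h3.comp h2
  have hnb : ((↑) : ℂ → OnePoint ℂ) '' ball 0 ‖w‖ ∈ 𝓝 ((0 : ℂ) : OnePoint ℂ) :=
    (OnePoint.isOpenMap_coe _ isOpen_ball).mem_nhds
      ⟨0, mem_ball_self (norm_pos_iff.2 hw0), rfl⟩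
  obtain ⟨n, v', hv', hv''⟩ := (hlim.eventually hnb).exists
  obtain ⟨v, hv, hv2⟩ := hpow n
  have h4 : v' = v := OnePoint.coe_injective (hv''.trans hv)
  rw [mem_ball, dist_zero_right, h4] at hv'
  linarith

/-- the rotation by a half turn -/
noncomputable def half : OnePoint ℂ ≃ₜ OnePoint ℂ := mu (-1) (by norm_num)

theorem half_half : half * half = 1 := by
  ext x
  induction x using OnePoint.rec with
  | infty => rfl
  | coe z =>
    rw [Homeomorph.mul_apply, half, mu_coe, mu_coe, Homeomorph.one_apply]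
    simp

theorem half_ne : half ≠ 1 := by
  intro h
  have h1 : half ((1 : ℂ) : OnePoint ℂ) = ((1 : ℂ) : OnePoint ℂ) := by rw [h]; rfl
  rw [half, mu_coe] at h1
  have := OnePoint.coe_injective h1
  norm_num at this

/-- rotations -/
noncomputable def rot (t : ℝ) : OnePoint ℂ ≃ₜ OnePoint ℂ :=
  mu (exp (t * π * I)) (Complex.exp_ne_zero _)

theorem rot_zero : rot 0 = 1 := by
  ext x
  induction x using OnePoint.rec with
  | infty => rfl
  | coe z => rw [rot, mu_coe, Homeomorph.one_apply]; simp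

theorem rot_one : rot 1 = half := by
  ext x
  induction x using OnePoint.rec with
  | infty => rfl
  | coe z => rw [rot, half, mu_coe, mu_coe]; simp

theorem rot_joint : Continuous fun p : unitInterval × OnePoint ℂ => rot p.1 p.2 := by
  rw [continuous_iff_continuousAt]
  rintro ⟨t₀, x₀⟩
  have hn : ∀ t : ℝ, ‖exp (t * π * I)‖ = 1 := by
    intro t
    have := norm_exp_ofReal_mul_I (t * π)
    push_cast at this
    exact this
  induction x₀ using OnePoint.rec with
  | infty =>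
    rw [ContinuousAt, rot, mu_inf]
    intro U hU
    obtain ⟨R, hR, hinf, hfar⟩ := exists_R hU
    have h1 : ∀ᶠ y in 𝓝 (∞ : OnePoint ℂ), ∀ t : unitInterval, rot t y ∈ U := by
      rw [OnePoint.nhds_infty_eq, eventually_sup, eventually_map,
        Filter.coclosedCompact_eq_cocompact, ← Metric.cobounded_eq_cocompact]
      refine ⟨?_, ?_⟩
      · have h2 : Tendsto (norm : ℂ → ℝ) (Bornology.cobounded ℂ) atTop :=
          tendsto_norm_cobounded_atTop
        filter_upwards [h2.eventually_ge_atTop R] with z hz t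
        rw [rot, mu_coe]
        apply hfar
        rw [norm_mul, hn, one_mul]
        exact hz
      · simp only [eventually_pure]
        intro t
        rw [rot, mu_inf]
        exact hinf
    rw [mem_map]
    filter_upwards [(continuous_snd.tendsto (t₀, (∞ : OnePoint ℂ))).eventually h1] with p hp
    exact hp p.1
  | coe z₀ =>
    have h1 : IsOpenEmbedding (Prod.map (id : unitInterval → unitInterval)
        ((↑) : ℂ → OnePoint ℂ)) := IsOpenEmbedding.id.prodMap OnePoint.isOpenEmbedding_coe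
    have h2 := (h1.continuousAt_iff (g := fun p : unitInterval × OnePoint ℂ =>
      rot p.1 p.2) (x := (t₀, z₀))).1
    apply h2
    apply Continuous.continuousAt
    have h3 : Continuous fun p : unitInterval × ℂ => exp (((p.1 : ℝ) : ℂ) * π * I) * p.2 := by
      fun_prop
    exact OnePoint.continuous_coe.comp h3

end Pool.Agent.H871R2.Sph
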