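import Mathlib
import Pool.Agent.H871R2.Sph.KL

set_option autoImplicit false
open Complex Set Filter Metric Topology OnePoint
open scoped Real ComplexConjugate

namespace Pool.Agent.H871R2.Sph

/-- the conclusion of the key lemma -/
def HasLox (A B : OnePoint ℂ ≃ₜ OnePoint ℂ) : Prop :=
  ∃ M₀ : ℝ, ∀ (M : ℝ) (hM : (M : ℂ) ≠ 0), M₀ ≤ M →
    ∃ h k : OnePoint ℂ ≃ₜ OnePoint ℂ, B * (h * A * h⁻¹) = k * mu (M : ℂ) hM * k⁻¹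

theorem HasLox.of_conj {A B φ ψ : OnePoint ℂ ≃ₜ OnePoint ℂ}
    (h : ∃ M₀ : ℝ, ∀ (M : ℝ) (hM : (M : ℂ) ≠ 0), M₀ ≤ M →
      ∃ u k : OnePoint ℂ ≃ₜ OnePoint ℂ,
        (ψ * B * ψ⁻¹) * (u * (φ * A * φ⁻¹) * u⁻¹) = k * mu (M : ℂ) hM * k⁻¹) : HasLox A B := by
  obtain ⟨M₀, h⟩ := h
  refine ⟨M₀, fun M hM hMM => ?_⟩
  obtain ⟨u, k, hk⟩ := h M hM hMM
  refine ⟨ψ⁻¹ * u * φ, ψ⁻¹ * k, ?_⟩
  have h1 : B * ((ψ⁻¹ * u * φ) * A * (ψ⁻¹ * u * φ)⁻¹) =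
      ψ⁻¹ * ((ψ * B * ψ⁻¹) * (u * (φ * A * φ⁻¹) * u⁻¹)) * ψ := by group
  rw [h1, hk]
  group

theorem exists_ne {A : OnePoint ℂ ≃ₜ OnePoint ℂ} (h : A ≠ 1) : ∃ p, A p ≠ p := by
  by_contra hcon
  push Not at hcon
  exact h (by ext x; exact hcon x)

theorem hasLox_gen {A B : OnePoint ℂ ≃ₜ OnePoint ℂ} (hA : AllGood A) (hB : AllGood B)
    (hA2 : A * A ≠ 1) (hB1 : B ≠ 1) : HasLox A B := by
  obtain ⟨p, hp⟩ := exists_ne hA2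
  rw [Homeomorph.mul_apply] at hp
  have hp1 : A p ≠ p := by
    intro h
    rw [h, h] at hp
    exact hp rfl
  obtain ⟨q, hq⟩ := exists_ne hB1
  obtain ⟨φ, hφ, h1, h2⟩ := normA hp1
  obtain ⟨ψ, hψ, h3, h4⟩ := normB hq
  exact HasLox.of_conj (key_gen ((hφ.mul hA).mul hφ.inv) ((hψ.mul hB).mul hψ.inv) h1 h3 h4 (h2 hp))

theorem hasLox_inv {A B : OnePoint ℂ ≃ₜ OnePoint ℂ} (hA : AllGood A) (hB : AllGood B)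
    (hA1 : A ≠ 1) (hB1 : B ≠ 1) (hA2 : A * A = 1) (hB2 : B * B = 1) : HasLox A B := by
  obtain ⟨p, hp⟩ := exists_ne hA1
  obtain ⟨q, hq⟩ := exists_ne hB1
  obtain ⟨φ, hφ, h1, -⟩ := normA hp
  obtain ⟨ψ, hψ, h3, h4⟩ := normB hq
  refine HasLox.of_conj (key_inv ((hφ.mul hA).mul hφ.inv) ((hψ.mul hB).mul hψ.inv) h1 h3 h4 ?_ ?_)
  · have : φ * A * φ⁻¹ * (φ * A * φ⁻¹) = φ * (A * A) * φ⁻¹ := by group
    rw [this, hA2]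
    group
  · have : ψ * B * ψ⁻¹ * (ψ * B * ψ⁻¹) = ψ * (B * B) * ψ⁻¹ := by group
    rw [this, hB2]
    group

theorem HasLox.symm {A B : OnePoint ℂ ≃ₜ OnePoint ℂ} (h : HasLox B A) : HasLox A B := by
  obtain ⟨M₀, h⟩ := h
  refine ⟨M₀, fun M hM hMM => ?_⟩
  obtain ⟨h, k, hk⟩ := h M hM hMM
  refine ⟨h⁻¹, B * h⁻¹ * k, ?_⟩
  have h1 : B * (h⁻¹ * A * h⁻¹⁻¹) = B * h⁻¹ * (A * (h * B * h⁻¹)) * h * B⁻¹ := by group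
  rw [h1, hk]
  group

/-- the key lemma -/
theorem hasLox {A B : OnePoint ℂ ≃ₜ OnePoint ℂ} (hA : AllGood A) (hB : AllGood B)
    (hA1 : A ≠ 1) (hB1 : B ≠ 1) : HasLox A B := by
  by_cases hA2 : A * A = 1
  · by_cases hB2 : B * B = 1
    · exact hasLox_inv hA hB hA1 hB1 hA2 hB2
    · exact (hasLox_gen hB hA hB2 hA1).symm
  · exact hasLox_gen hA hB hA2 hB1

/-- three conjugates suffice -/
theorem three {A B : OnePoint ℂ ≃ₜ OnePoint ℂ} (hA : AllGood A) (hB : AllGood B)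
    (hA1 : A ≠ 1) (hB1 : B ≠ 1) : ∃ h₁ h₂ h₃ : OnePoint ℂ ≃ₜ OnePoint ℂ,
      B = (h₁ * A * h₁⁻¹) * ((h₂ * A * h₂⁻¹) * (h₃ * A * h₃⁻¹)) := by
  obtain ⟨M₁, h1⟩ := hasLox hA.inv hB (inv_ne_one.2 hA1) hB1
  obtain ⟨M₂, h2⟩ := hasLox hA hA hA1 hA1
  set M : ℝ := max (max M₁ M₂) 1 with hM
  have hM0 : 0 < M := lt_max_of_lt_right one_pos
  have hMc : (M : ℂ) ≠ 0 := by exact_mod_cast hM0.ne'
  obtain ⟨h, k, hk⟩ := h1 M hMc ((le_max_left _ _).trans (le_max_left _ _))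
  obtain ⟨h', k', hk'⟩ := h2 M hMc ((le_max_right _ _).trans (le_max_left _ _))
  refine ⟨k * k'⁻¹, k * k'⁻¹ * h', h, ?_⟩
  have e1 : mu (M : ℂ) hMc = k'⁻¹ * (A * (h' * A * h'⁻¹)) * k' := by
    rw [hk']
    group
  have e2 : B = (k * mu (M : ℂ) hMc * k⁻¹) * (h * A⁻¹ * h⁻¹)⁻¹ := by
    rw [← hk]
    group
  rw [e2, e1]
  group

end Pool.Agent.H871R2.Sph
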